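import Pool.Agent.Lib.MP_848d44_nt.G.Base

/-!
# MP_848d44_nt, two-sided omega theorem: second moments over the reduced classes (module ASD)
-/

set_option autoImplicit false

namespace Pool.Agent.M848

open Finset
open scoped ArithmeticFunction ComplexConjugate

noncomputable section

namespace AsdAux

/-- the reduced classes partition the integers coprime to `q` -/
theorem fib (N q : ℕ) (hq : 1 ≤ q) (f : ℕ → ℝ) :
    ∑ a ∈ red q, ∑ n ∈ (Icc 1 N).filter (fun n => n % q = a), f n =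
      ∑ n ∈ (Icc 1 N).filter (fun n => n.Coprime q), f n := by
  have hcop : ∀ n : ℕ, (n % q).Coprime q ↔ n.Coprime q := by
    intro n
    rw [Nat.Coprime, Nat.Coprime, ← Nat.gcd_rec, Nat.gcd_comm]
  unfold red
  rw [← Finset.sum_fiberwise_of_maps_to (s := (Icc 1 N).filter (fun n => n.Coprime q))
    (t := (range q).filter (fun a => a.Coprime q)) (g := fun n => n % q)]
  · refine sum_congr rfl fun a ha => ?_
    refine sum_congr ?_ fun _ _ => rfl
    ext n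
    simp only [mem_filter, mem_range] at ha ⊢
    constructor
    · rintro ⟨h1, h3⟩
      exact ⟨⟨h1, (hcop n).1 (by rw [h3]; exact ha.2)⟩, h3⟩
    · rintro ⟨⟨h1, h2⟩, h3⟩; exact ⟨h1, h3⟩
  · intro n hn
    simp only [mem_filter, mem_range] at hn ⊢
    exact ⟨Nat.mod_lt _ (by omega), (hcop n).2 hn.2⟩

/-- sums over the integers coprime to `q` -/
theorem cop_sum (N q : ℕ) (hq : 1 ≤ q) (f : ℕ → ℝ) :
    ∑ n ∈ (Icc 1 N).filter (fun n => n.Coprime q), f n =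
      ∑ e ∈ q.divisors, (ArithmeticFunction.moebius e : ℝ) *
        ∑ n ∈ Icc 1 N, if e ∣ n then f n else 0 := by
  have e1 : ∀ n ∈ Icc 1 N, (if n.Coprime q then f n else 0) =
      ∑ e ∈ q.divisors, (ArithmeticFunction.moebius e : ℝ) * (if e ∣ n then f n else 0) := by
    intro n _
    have e2 : (if n.Coprime q then f n else 0) = (if n.Coprime q then (1 : ℝ) else 0) * f n := by
      split_ifs <;> simp
    rw [e2, CopAux.coprime_ind n q hq, sum_mul]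
    refine sum_congr rfl fun e _ => ?_
    split_ifs <;> simp
  rw [sum_filter, sum_congr rfl e1, sum_comm]
  refine sum_congr rfl fun e _ => ?_
  rw [mul_sum]

/-- a bound for sums over the integers coprime to `q` -/
theorem cop_bound (N q : ℕ) (hq : 1 ≤ q) (f : ℕ → ℝ) (B : ℝ)
    (h : ∀ e ∈ q.divisors, |∑ n ∈ Icc 1 N, if e ∣ n then f n else 0| ≤ B) :
    |∑ n ∈ (Icc 1 N).filter (fun n => n.Coprime q), f n| ≤ B * q.divisors.card := by
  rw [cop_sum N q hq f]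
  refine (abs_sum_le_sum_abs _ _).trans ?_
  have h1 : ∀ e ∈ q.divisors, |(ArithmeticFunction.moebius e : ℝ) *
      ∑ n ∈ Icc 1 N, if e ∣ n then f n else 0| ≤ B := by
    intro e he
    rw [abs_mul]
    calc |(ArithmeticFunction.moebius e : ℝ)| * |∑ n ∈ Icc 1 N, if e ∣ n then f n else 0|
        ≤ 1 * B := mul_le_mul (CopAux.moebius_abs e) (h e he) (abs_nonneg _) (by norm_num)
      _ = B := one_mul _
  refine (sum_le_sum h1).trans (le_of_eq ?_)
  rw [sum_const, nsmul_eq_mul, mul_comm]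

/-- the weight over the multiples of `E` -/
theorem w_mult (w : ℤ → ℝ) (N : ℕ) (hN : 1 ≤ N) (h0 : ∀ m, 0 ≤ w m) (h1 : ∀ m, w m ≤ 1)
    (hz : ∀ m : ℤ, m ≤ 0 ∨ (N : ℤ) ≤ m → w m = 0) (hl : ∀ m, |w m - w (m + 1)| ≤ 1 / N)
    (E : ℕ) (hE : 1 ≤ E) :
    |(∑ m ∈ Icc 1 N, if E ∣ m then w (m : ℤ) else 0) -
      (1 / (E : ℝ)) * ∑ m ∈ Icc (1 : ℤ) N, w m| ≤ 3 := by
  have h := class_sum N hN w h0 h1 hz hl E hE 0
  rw [CopAux.sum_int] at h
  exact h

/-- the basic sum -/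
theorem X_bound (w : ℤ → ℝ) (N : ℕ) (hN : 1 ≤ N) (h0 : ∀ m, 0 ≤ w m) (h1 : ∀ m, w m ≤ 1)
    (hz : ∀ m : ℤ, m ≤ 0 ∨ (N : ℤ) ≤ m → w m = 0) (hl : ∀ m, |w m - w (m + 1)| ≤ 1 / N)
    (l s : ℕ) (hl0 : 1 ≤ l) (hs : s.Prime) (hc : Nat.Coprime s l) :
    |∑ m ∈ Icc 1 N, (if l ∣ m then w (m : ℤ) * (dv s m - 1 / s) else 0)| ≤ 6 := by
  have hs0 : (1 : ℝ) ≤ s := by exact_mod_cast hs.one_lt.le
  have e1 : ∑ m ∈ Icc 1 N, (if l ∣ m then w (m : ℤ) * (dv s m - 1 / s) else 0) =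
      (∑ m ∈ Icc 1 N, if s * l ∣ m then w (m : ℤ) else 0) -
        1 / s * ∑ m ∈ Icc 1 N, if l ∣ m then w (m : ℤ) else 0 := by
    rw [Finset.mul_sum, ← Finset.sum_sub_distrib]
    refine Finset.sum_congr rfl fun m _ => ?_
    unfold dv
    simp only [Int.natCast_dvd_natCast]
    by_cases h1 : l ∣ m
    · by_cases h2 : s ∣ m
      · rw [if_pos h1, if_pos h2, if_pos (hc.mul_dvd_of_dvd_of_dvd h2 h1), if_pos h1]
        ring
      · rw [if_pos h1, if_neg h2, if_neg fun h => h2 ((Dvd.intro _ rfl).trans h), if_pos h1]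
        ring
    · rw [if_neg h1, if_neg fun h => h1 ((Dvd.intro_left _ rfl).trans h), if_neg h1]
      ring
  have k1 := w_mult w N hN h0 h1 hz hl (s * l) (Nat.mul_pos hs.pos hl0)
  have k2 := w_mult w N hN h0 h1 hz hl l hl0
  rw [e1]
  set u := ∑ m ∈ Icc (1 : ℤ) N, w m
  set A := ∑ m ∈ Icc 1 N, if s * l ∣ m then w (m : ℤ) else 0
  set B := ∑ m ∈ Icc 1 N, if l ∣ m then w (m : ℤ) else 0
  have hl1 : (0 : ℝ) < l := by exact_mod_cast hl0
  have e2 : A - 1 / s * B = (A - 1 / ((s * l : ℕ) : ℝ) * u) - 1 / s * (B - 1 / (l : ℝ) * u) := by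
    push_cast
    field_simp
    ring
  rw [e2]
  have h3 : |1 / (s : ℝ) * (B - 1 / (l : ℝ) * u)| ≤ 3 := by
    rw [abs_mul, abs_of_nonneg (by positivity)]
    calc 1 / (s : ℝ) * |B - 1 / (l : ℝ) * u| ≤ 1 * 3 := by
          refine mul_le_mul ?_ k2 (abs_nonneg _) (by norm_num)
          rw [div_le_one (by linarith)]
          exact hs0
      _ = 3 := by norm_num
  calc |(A - 1 / ((s * l : ℕ) : ℝ) * u) - 1 / s * (B - 1 / (l : ℝ) * u)|
      ≤ |A - 1 / ((s * l : ℕ) : ℝ) * u| + |1 / s * (B - 1 / (l : ℝ) * u)| := abs_sub _ _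
    _ ≤ 3 + 3 := add_le_add k1 h3
    _ = 6 := by norm_num

open ShfAux in
/-- the sum for a fixed divisor `e` of `q` -/
theorem XX_bound {N : ℕ} (hN : 1 ≤ N) (v : ℤ) {s s' e : ℕ} (hs : s.Prime) (hs' : s'.Prime)
    (hss : s ≠ s') (he : 1 ≤ e) (c1 : s.Coprime e) (c2 : s'.Coprime e) :
    |XX N v s s' e 1| ≤ 12 := by
  have hs2 : (2 : ℝ) ≤ s := by exact_mod_cast hs.two_le
  have hs2' : (2 : ℝ) ≤ s' := by exact_mod_cast hs'.two_le
  have hcl : ∀ m : ℤ, ((e : ℤ) ∣ m ∧ ((1 : ℕ) : ℤ) ∣ m + v) ↔ (e : ℤ) ∣ m - 0 := by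
    intro m
    rw [sub_zero]
    simp
  have t4 := TS_cls hN v (fun m => (e : ℤ) ∣ m ∧ ((1 : ℕ) : ℤ) ∣ m + v) he 0 hcl
  obtain ⟨m₁, hm₁⟩ := combine c1 0 0
  have t2 := TS_cls hN v (fun m => (s : ℤ) ∣ m ∧ (e : ℤ) ∣ m ∧ ((1 : ℕ) : ℤ) ∣ m + v)
    (D := s * e) (Nat.mul_pos hs.pos he) m₁ (fun m => by
      rw [← hm₁ m, hcl m, sub_zero])
  obtain ⟨m₂, hm₂⟩ := combine c2 (-v) 0
  have t3 := TS_cls hN v (fun m => (s' : ℤ) ∣ m + v ∧ (e : ℤ) ∣ m ∧ ((1 : ℕ) : ℤ) ∣ m + v)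
    (D := s' * e) (Nat.mul_pos hs'.pos he) m₂ (fun m => by
      rw [← hm₂ m, hcl m, sub_neg_eq_add])
  have c3 : s.Coprime (s' * e) := Nat.Coprime.mul_right ((Nat.coprime_primes hs hs').2 hss) c1
  obtain ⟨m₃, hm₃⟩ := combine c3 0 m₂
  have t1 := TS_cls hN v
    (fun m => (s : ℤ) ∣ m ∧ (s' : ℤ) ∣ m + v ∧ (e : ℤ) ∣ m ∧ ((1 : ℕ) : ℤ) ∣ m + v)
    (D := s * (s' * e)) (Nat.mul_pos hs.pos (Nat.mul_pos hs'.pos he)) m₃ (fun m => by
      rw [← hm₃ m, ← hm₂ m, hcl m, sub_zero, sub_neg_eq_add])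
  rw [XX_eq]
  set T1 := TS N v (fun m => (s : ℤ) ∣ m ∧ (s' : ℤ) ∣ m + v ∧ (e : ℤ) ∣ m ∧
    ((1 : ℕ) : ℤ) ∣ m + v)
  set T2 := TS N v (fun m => (s : ℤ) ∣ m ∧ (e : ℤ) ∣ m ∧ ((1 : ℕ) : ℤ) ∣ m + v)
  set T3 := TS N v (fun m => (s' : ℤ) ∣ m + v ∧ (e : ℤ) ∣ m ∧ ((1 : ℕ) : ℤ) ∣ m + v)
  set T4 := TS N v (fun m => (e : ℤ) ∣ m ∧ ((1 : ℕ) : ℤ) ∣ m + v)
  have he0 : (0 : ℝ) < e := by exact_mod_cast he
  have i1 : (0 : ℝ) < 1 / s := by positivity
  have i2 : (0 : ℝ) < 1 / s' := by positivity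
  have j1 : 1 / (s : ℝ) ≤ 1 / 2 := one_div_le_one_div_of_le (by norm_num) hs2
  have j2 : 1 / (s' : ℝ) ≤ 1 / 2 := one_div_le_one_div_of_le (by norm_num) hs2'
  set a := 1 / (s : ℝ) with ha
  set a' := 1 / (s' : ℝ) with ha'
  set u := w0 N v / e with hu
  have e0 : w0 N v / ((s * (s' * e) : ℕ) : ℝ) = a * a' * u := by
    rw [ha, ha', hu]; push_cast; field_simp
  have e1 : 1 / ((s : ℝ) * s') = a * a' := by rw [ha, ha']; field_simp
  have e2 : w0 N v / ((s * e : ℕ) : ℝ) = a * u := by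
    rw [ha, hu]; push_cast; field_simp
  have e3 : w0 N v / ((s' * e : ℕ) : ℝ) = a' * u := by
    rw [ha', hu]; push_cast; field_simp
  have t1' : |T1 - a * a' * u| ≤ 3 := by rw [← e0]; exact t1
  rw [e2] at t2
  rw [e3] at t3
  rw [e1]
  obtain ⟨p1, q1⟩ := abs_le.1 t1'
  obtain ⟨p2, q2⟩ := abs_le.1 t2
  obtain ⟨p3, q3⟩ := abs_le.1 t3
  obtain ⟨p4, q4⟩ := abs_le.1 t4
  have k1 : a' * T2 ≤ a' * (a * u + 3) := mul_le_mul_of_nonneg_left (by linarith) i2.le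
  have k2 : a' * (a * u - 3) ≤ a' * T2 := mul_le_mul_of_nonneg_left (by linarith) i2.le
  have k3 : a * T3 ≤ a * (a' * u + 3) := mul_le_mul_of_nonneg_left (by linarith) i1.le
  have k4 : a * (a' * u - 3) ≤ a * T3 := mul_le_mul_of_nonneg_left (by linarith) i1.le
  have k5 : a * a' * T4 ≤ a * a' * (u + 3) :=
    mul_le_mul_of_nonneg_left (by linarith) (by positivity)
  have k6 : a * a' * (u - 3) ≤ a * a' * T4 :=
    mul_le_mul_of_nonneg_left (by linarith) (by positivity)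
  have k7 : a * a' ≤ 1 / 2 * (1 / 2) := mul_le_mul j1 j2 i2.le (by norm_num)
  rw [abs_le]
  constructor
  · nlinarith
  · nlinarith

/-- sums over natural numbers and over integers -/
theorem nat_int (N : ℕ) (f : ℤ → ℝ) : ∑ m ∈ Icc 1 N, f (m : ℤ) = ∑ m ∈ Icc (1 : ℤ) N, f m := by
  rw [show (Icc (1 : ℤ) N) = (Icc 1 N).image (Nat.cast : ℕ → ℤ) by
    ext x
    rw [mem_Icc, mem_image]
    constructor
    · rintro ⟨h1, h2⟩
      exact ⟨x.toNat, mem_Icc.2 ⟨by omega, by omega⟩, by omega⟩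
    · rintro ⟨a, ha, rfl⟩
      rw [mem_Icc] at ha
      exact ⟨by omega, by omega⟩]
  rw [sum_image fun a _ b _ hab => by exact_mod_cast hab]

open ShfAux in
theorem dv_ind (s : ℕ) (m : ℤ) : dv s m = ind ((s : ℤ) ∣ m) := by
  unfold dv ind
  by_cases h : (s : ℤ) ∣ m <;> simp [h]

open ShfAux in
/-- the correlation with a shift over the integers coprime to `q` -/
theorem shift_bound (N q s s' : ℕ) (hN : 1 ≤ N) (hq : 1 ≤ q) (hs : s.Prime) (hs' : s'.Prime)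
    (hss : s ≠ s') (hsq : ¬ s ∣ q) (hsq' : ¬ s' ∣ q) (v : ℤ) :
    |∑ n ∈ (Icc 1 N).filter (fun n => n.Coprime q), ws N s (n : ℤ) * ws N s' ((n : ℤ) + v)| ≤
      12 * q.divisors.card := by
  refine cop_bound N q hq (fun n => ws N s (n : ℤ) * ws N s' ((n : ℤ) + v)) 12 fun e he => ?_
  have he1 : 1 ≤ e := Nat.pos_of_mem_divisors he
  have he2 := (Nat.mem_divisors.1 he).1
  have c1 : Nat.Coprime s e := by
    rw [hs.coprime_iff_not_dvd]
    exact fun h => hsq (h.trans he2)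
  have c2 : Nat.Coprime s' e := by
    rw [hs'.coprime_iff_not_dvd]
    exact fun h => hsq' (h.trans he2)
  have e1 : (∑ n ∈ Icc 1 N, if e ∣ n then ws N s (n : ℤ) * ws N s' ((n : ℤ) + v) else 0) =
      XX N v s s' e 1 := by
    unfold XX
    rw [← nat_int N (fun m => W N v m * ((ind ((s : ℤ) ∣ m) - 1 / s) *
      (ind ((s' : ℤ) ∣ m + v) - 1 / s') * (ind ((e : ℤ) ∣ m) * ind (((1 : ℕ) : ℤ) ∣ m + v))))]
    refine sum_congr rfl fun n _ => ?_
    have i1 : ind (((1 : ℕ) : ℤ) ∣ (n : ℤ) + v) = 1 := by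
      unfold ind
      rw [if_pos]
      simp
    rw [i1, mul_one]
    unfold ws W
    rw [dv_ind, dv_ind]
    by_cases h : e ∣ n
    · rw [if_pos h]
      have i2 : ind ((e : ℤ) ∣ (n : ℤ)) = 1 := by
        unfold ind
        rw [if_pos]
        exact Int.natCast_dvd_natCast.2 h
      rw [i2]
      ring
    · rw [if_neg h]
      have i2 : ind ((e : ℤ) ∣ (n : ℤ)) = 0 := by
        unfold ind
        rw [if_neg]
        exact fun h' => h (Int.natCast_dvd_natCast.1 h')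
      rw [i2]
      ring
  rw [e1]
  exact XX_bound hN v hs hs' hss he1 c1 c2

end AsdAux

open AsdAux in
/-- ASD. Correlations of the class sums of two test functions over the reduced classes. -/
theorem asd_pair (N q s s' : ℕ) (hN : 1 ≤ N) (hq : 1 ≤ q) (hs : s.Prime) (hs' : s'.Prime)
    (hss : s ≠ s') (hsq : ¬ s ∣ q) (hsq' : ¬ s' ∣ q) :
    |∑ a ∈ red q, cs (ws N s) N q a * cs (ws N s') N q a| ≤
      12 * (2 * (N / q : ℕ) + 1) * q.divisors.card := by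
  have e1 : ∑ a ∈ red q, cs (ws N s) N q a * cs (ws N s') N q a =
      ∑ n ∈ (Icc 1 N).filter (fun n => n.Coprime q), ws N s (n : ℤ) * cs (ws N s') N q (n % q) := by
    rw [← fib N q hq]
    refine sum_congr rfl fun a _ => ?_
    unfold cs
    rw [sum_mul]
    refine sum_congr rfl fun n hn => ?_
    rw [(mem_filter.mp hn).2]
  have hz : ∀ m : ℤ, (m ≤ 0 ∨ (N : ℤ) ≤ m) → ws N s' m = 0 := by
    intro m hm
    unfold ws
    rw [tent_zero N m hm, zero_mul]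
  have e2 : ∑ n ∈ (Icc 1 N).filter (fun n => n.Coprime q),
        ws N s (n : ℤ) * cs (ws N s') N q (n % q) =
      (∑ n ∈ (Icc 1 N).filter (fun n => n.Coprime q), ws N s (n : ℤ) * ws N s' ((n : ℤ) + 0)) +
      ∑ h ∈ Icc 1 (N / q),
        ((∑ n ∈ (Icc 1 N).filter (fun n => n.Coprime q),
          ws N s (n : ℤ) * ws N s' ((n : ℤ) + (h * q : ℤ))) +
        (∑ n ∈ (Icc 1 N).filter (fun n => n.Coprime q),
          ws N s (n : ℤ) * ws N s' ((n : ℤ) + (-(h * q) : ℤ)))) := by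
    rw [sum_add_distrib, sum_comm (s := Icc 1 (N / q)), sum_comm (s := Icc 1 (N / q)),
      ← sum_add_distrib, ← sum_add_distrib]
    refine sum_congr rfl fun n hn => ?_
    unfold cs
    rw [GeqAux.main (ws N s') N q hq hz n (mem_filter.mp hn).1, mul_add, add_zero, sum_add_distrib,
      mul_add, mul_sum, mul_sum]
    simp only [sub_eq_add_neg]
  rw [e1, e2]
  refine (abs_add_le _ _).trans ?_
  have h1 := shift_bound N q s s' hN hq hs hs' hss hsq hsq' 0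
  have h2 : |∑ h ∈ Icc 1 (N / q),
        ((∑ n ∈ (Icc 1 N).filter (fun n => n.Coprime q),
          ws N s (n : ℤ) * ws N s' ((n : ℤ) + (h * q : ℤ))) +
        (∑ n ∈ (Icc 1 N).filter (fun n => n.Coprime q),
          ws N s (n : ℤ) * ws N s' ((n : ℤ) + (-(h * q) : ℤ))))| ≤
      (N / q : ℕ) * (12 * q.divisors.card + 12 * q.divisors.card) := by
    refine (abs_sum_le_sum_abs _ _).trans ?_
    have h3 : ∀ h ∈ Icc 1 (N / q),
        |(∑ n ∈ (Icc 1 N).filter (fun n => n.Coprime q),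
          ws N s (n : ℤ) * ws N s' ((n : ℤ) + (h * q : ℤ))) +
        (∑ n ∈ (Icc 1 N).filter (fun n => n.Coprime q),
          ws N s (n : ℤ) * ws N s' ((n : ℤ) + (-(h * q) : ℤ)))| ≤
        12 * q.divisors.card + 12 * q.divisors.card := fun h _ =>
      (abs_add_le _ _).trans (add_le_add (shift_bound N q s s' hN hq hs hs' hss hsq hsq' _)
        (shift_bound N q s s' hN hq hs hs' hss hsq hsq' _))
    refine (sum_le_sum h3).trans (le_of_eq ?_)
    rw [sum_const, nsmul_eq_mul, Nat.card_Icc, Nat.add_sub_cancel]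
  refine (add_le_add h1 h2).trans (le_of_eq ?_)
  ring

open AsdAux in
/-- ASD. The class sums over the multiples of a prime, on average over the reduced classes. -/
theorem asd_one (w : ℤ → ℝ) (N q s : ℕ) (hN : 1 ≤ N) (hq : 1 ≤ q) (hs : s.Prime)
    (hsq : ¬ s ∣ q) (h0 : ∀ m, 0 ≤ w m) (h1 : ∀ m, w m ≤ 1)
    (hz : ∀ m : ℤ, m ≤ 0 ∨ (N : ℤ) ≤ m → w m = 0) (hl : ∀ m, |w m - w (m + 1)| ≤ 1 / N) :
    |∑ a ∈ red q, cs (fun m => w m * dv s m) N q a - (1 / (s : ℝ)) * ∑ a ∈ red q, cs w N q a| ≤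
      6 * q.divisors.card := by
  unfold cs
  rw [fib N q hq (fun n => w (n : ℤ) * dv s (n : ℤ)), fib N q hq (fun n => w (n : ℤ)), mul_sum,
    ← sum_sub_distrib]
  have e1 : ∀ n : ℕ, w (n : ℤ) * dv s (n : ℤ) - 1 / (s : ℝ) * w (n : ℤ) =
      w (n : ℤ) * (dv s (n : ℤ) - 1 / s) := fun n => by ring
  rw [sum_congr rfl fun n _ => e1 n]
  refine cop_bound N q hq (fun n => w (n : ℤ) * (dv s (n : ℤ) - 1 / s)) 6 fun e he => ?_
  have he1 : 1 ≤ e := Nat.pos_of_mem_divisors he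
  have he2 := (Nat.mem_divisors.1 he).1
  have c1 : Nat.Coprime s e := by
    rw [hs.coprime_iff_not_dvd]
    exact fun h => hsq (h.trans he2)
  exact X_bound w N hN h0 h1 hz hl e s he1 hs c1

end

end Pool.Agent.M848
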