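import Pool.Agent.Lib.MP_848d44_nt.Main

/-!
# MP_848d44_nt, two-sided omega theorem: basic definitions
-/

set_option autoImplicit false

namespace Pool.Agent.M848

open Finset
open scoped ArithmeticFunction ComplexConjugate

noncomputable section

/-- The sum of a function over a residue class modulo `q`. -/
def cs (F : ℤ → ℝ) (N q a : ℕ) : ℝ :=
  ∑ m ∈ (Icc 1 N).filter (fun m => m % q = a), F (m : ℤ)

/-- The indicator function of the multiples of `s`. -/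
def dv (s : ℕ) (m : ℤ) : ℝ := if (s : ℤ) ∣ m then 1 else 0

/-- The test function of one prime (no sieve weights). -/
def ws (N s : ℕ) (m : ℤ) : ℝ := tent N m * (dv s m - 1 / s)

/-- The kernel `∑_{h ≤ H} w(y + σ h q) conj χ(h)`. -/
def ker (w : ℤ → ℝ) (q H : ℕ) (χ : ℕ → ℂ) (σ y : ℤ) : ℂ :=
  ∑ h ∈ Icc 1 H, ((w (y + σ * (h * q)) : ℝ) : ℂ) * conj (χ h)

/-- The nonprincipal part of the class sum of `w` over the multiples of `s`. -/
def YC (w : ℤ → ℝ) (N q s n : ℕ) : ℂ :=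
  (1 / ((s : ℂ) - 1)) * ∑ χ ∈ nc s, χ n *
    (conj (χ (Off1Aux.tt s 1 1 * q)) * ker w q (N / q) χ 1 n +
      conj (χ (Off1Aux.tt s 1 (-1) * q)) * ker w q (N / q) χ (-1) n)

/-- Good kernels: bounded by `P` with Lipschitz constant `P / N`. -/
def Gd (N : ℕ) (P : ℝ) (K : ℤ → ℂ) : Prop :=
  (∀ y, ‖K y‖ ≤ P) ∧ ∀ y, ‖K y - K (y + 1)‖ ≤ P / N

/-- The square of the tent. -/
def tent2 (N : ℕ) (m : ℤ) : ℝ := tent N m ^ 2

/-- The reduced classes modulo `q`. -/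
def red (q : ℕ) : Finset ℕ := (range q).filter (fun a => a.Coprime q)

/-- The mean of `ψ(N; q, b)` over the reduced classes `b`. -/
def mea (N q : ℕ) : ℝ :=
  (∑ n ∈ (Icc 1 N).filter (fun n => n.Coprime q), (Λ n : ℝ)) / q.totient

/-- The error term `ψ(N; q, a) - mean`. -/
def EE (N q a : ℕ) : ℝ := (∑ n ∈ (Icc 1 N).filter (fun n => n % q = a), (Λ n : ℝ)) - mea N q

def T1 (N q s : ℕ) : ℝ := ‖∑ n ∈ Icc 1 N, ((Λ n : ℝ) : ℂ) * YC (tent N) N q s n‖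
def T2 (N q s : ℕ) : ℝ :=
  ‖∑ n ∈ Icc 1 N, ((Λ n : ℝ) : ℂ) * (((tent N n : ℝ) : ℂ) * YC (tent N) N q s n)‖
def T3 (N q s : ℕ) : ℝ := ‖∑ n ∈ Icc 1 N, ((Λ n : ℝ) : ℂ) * YC (tent2 N) N q s n‖
def T4 (N q s s' : ℕ) : ℝ :=
  ‖∑ n ∈ Icc 1 N, ((Λ n : ℝ) : ℂ) * (YC (tent N) N q s n * YC (tent N) N q s' n)‖

end

end Pool.Agent.M848
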