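import Pool.Agent.Lib.MP_848d44_nt.G.Base

/-!
# MP_848d44_nt, two-sided omega theorem: elementary facts
-/

set_option autoImplicit false

namespace Pool.Agent.M848

open Finset
open scoped ArithmeticFunction ComplexConjugate

noncomputable section

namespace GB

theorem Lam_nonneg (n : ℕ) : (0 : ℝ) ≤ Λ n := ArithmeticFunction.vonMangoldt_nonneg

theorem dv_abs (s : ℕ) (m : ℤ) : 0 ≤ dv s m ∧ dv s m ≤ 1 := by
  unfold dv
  split_ifs <;> norm_num

theorem tent2_nonneg (N : ℕ) (m : ℤ) : 0 ≤ tent2 N m := sq_nonneg _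

theorem tent2_le (N : ℕ) (m : ℤ) : tent2 N m ≤ 1 / 4 := by
  unfold tent2
  have h0 := tent_nonneg N m
  have h1 := tent_le N m
  nlinarith

theorem tent2_zero (N : ℕ) (m : ℤ) (h : m ≤ 0 ∨ (N : ℤ) ≤ m) : tent2 N m = 0 := by
  unfold tent2
  rw [tent_zero N m h]
  norm_num

theorem tent2_lip (N : ℕ) (m : ℤ) : |tent2 N m - tent2 N (m + 1)| ≤ 1 / N := by
  unfold tent2
  have h0 := tent_nonneg N m
  have h1 := tent_le N m
  have h2 := tent_nonneg N (m + 1)
  have h3 := tent_le N (m + 1)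
  have h4 := tent_lip N m
  have e : tent N m ^ 2 - tent N (m + 1) ^ 2 =
      (tent N m - tent N (m + 1)) * (tent N m + tent N (m + 1)) := by ring
  rw [e, abs_mul, abs_of_nonneg (by linarith : 0 ≤ tent N m + tent N (m + 1))]
  calc |tent N m - tent N (m + 1)| * (tent N m + tent N (m + 1)) ≤
      (1 / N) * 1 := by
        apply mul_le_mul h4 (by linarith) (by linarith) (by positivity)
    _ = 1 / N := mul_one _

theorem ws_zero (N s : ℕ) (m : ℤ) (h : m ≤ 0 ∨ (N : ℤ) ≤ m) : ws N s m = 0 := by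
  unfold ws
  rw [tent_zero N m h, zero_mul]

/-- class sums in terms of shifts -/
theorem cs_eq (F : ℤ → ℝ) (N q : ℕ) (hq : 1 ≤ q)
    (hF : ∀ m : ℤ, (m ≤ 0 ∨ (N : ℤ) ≤ m) → F m = 0) (n : ℕ) (hn : n ∈ Icc 1 N) :
    cs F N q (n % q) = F n + ∑ h ∈ Icc 1 (N / q), (F ((n : ℤ) + h * q) + F ((n : ℤ) - h * q)) :=
  GeqAux.main F N q hq hF n hn

theorem cs_abs (F : ℤ → ℝ) (N q : ℕ) (hq : 1 ≤ q)
    (hF : ∀ m : ℤ, (m ≤ 0 ∨ (N : ℤ) ≤ m) → F m = 0) (n : ℕ) (hn : n ∈ Icc 1 N)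
    (B : ℝ) (hB : ∀ m, |F m| ≤ B) :
    |cs F N q (n % q)| ≤ (2 * (N / q : ℕ) + 1) * B := by
  rw [cs_eq F N q hq hF n hn]
  refine (abs_add_le _ _).trans ?_
  have h1 : |∑ h ∈ Icc 1 (N / q), (F ((n : ℤ) + h * q) + F ((n : ℤ) - h * q))| ≤
      ∑ h ∈ Icc 1 (N / q), (2 * B) := by
    refine (Finset.abs_sum_le_sum_abs _ _).trans (Finset.sum_le_sum fun h _ => ?_)
    refine (abs_add_le _ _).trans ?_
    have := hB ((n : ℤ) + h * q)
    have := hB ((n : ℤ) - h * q)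
    linarith
  rw [Finset.sum_const, Nat.card_Icc, nsmul_eq_mul, Nat.add_sub_cancel] at h1
  have := hB (n : ℤ)
  linarith

theorem cs_sub (F G : ℤ → ℝ) (N q a : ℕ) : cs (fun m => F m - G m) N q a =
    cs F N q a - cs G N q a := by
  unfold cs
  rw [Finset.sum_sub_distrib]

theorem cs_mul (c : ℝ) (F : ℤ → ℝ) (N q a : ℕ) : cs (fun m => c * F m) N q a =
    c * cs F N q a := by
  unfold cs
  rw [Finset.mul_sum]

theorem cs_ws (N q s a : ℕ) : cs (ws N s) N q a =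
    cs (fun m => tent N m * dv s m) N q a - (1 / (s : ℝ)) * cs (tent N) N q a := by
  rw [← cs_mul, ← cs_sub]
  unfold cs
  refine Finset.sum_congr rfl fun m _ => ?_
  unfold ws
  ring

/-- fiberwise summation over the reduced classes -/
theorem sum_red (q : ℕ) (hq : 1 ≤ q) (N : ℕ) (f : ℕ → ℝ) :
    ∑ n ∈ (Icc 1 N).filter (fun n => n.Coprime q), f n =
      ∑ a ∈ red q, ∑ n ∈ (Icc 1 N).filter (fun n => n % q = a), f n := by
  have hcop : ∀ n : ℕ, (n % q).Coprime q ↔ n.Coprime q := by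
    intro n
    rw [Nat.Coprime, Nat.Coprime, ← Nat.gcd_rec, Nat.gcd_comm]
  unfold red
  rw [← Finset.sum_fiberwise_of_maps_to (s := (Icc 1 N).filter (fun n => n.Coprime q))
    (t := (range q).filter (fun a => a.Coprime q)) (g := fun n => n % q)]
  · refine sum_congr rfl fun a ha => ?_
    refine sum_congr ?_ fun _ _ => rfl
    ext n
    simp only [mem_filter, mem_range] at ha ⊢
    constructor
    · rintro ⟨⟨h1, h2⟩, h3⟩; exact ⟨h1, h3⟩
    · rintro ⟨h1, h3⟩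
      exact ⟨⟨h1, (hcop n).1 (by rw [h3]; exact ha.2)⟩, h3⟩
  · intro n hn
    simp only [mem_filter, mem_range] at hn ⊢
    exact ⟨Nat.mod_lt _ (by omega), (hcop n).2 hn.2⟩

theorem card_red (q : ℕ) : (red q).card = q.totient := by
  rw [red, Nat.totient]
  congr 1
  ext a
  simp only [mem_filter, mem_range, Nat.coprime_comm]

theorem EE_sum (N q : ℕ) (hq : 1 ≤ q) (Φ : ℕ → ℝ) :
    ∑ a ∈ red q, EE N q a * Φ a =
      ∑ n ∈ (Icc 1 N).filter (fun n => n.Coprime q), Λ n * Φ (n % q) -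
        mea N q * ∑ a ∈ red q, Φ a := by
  rw [sum_red q hq N (fun n => Λ n * Φ (n % q)), mul_sum, ← sum_sub_distrib]
  refine sum_congr rfl fun a _ => ?_
  rw [EE, sub_mul]
  congr 1
  rw [sum_mul]
  refine sum_congr rfl fun n hn => ?_
  rw [(mem_filter.mp hn).2]

theorem EE_const (N q : ℕ) (hq : 1 ≤ q) (c : ℝ) : ∑ a ∈ red q, EE N q a * c = 0 := by
  rw [EE_sum N q hq (fun _ => c), sum_const, nsmul_eq_mul, card_red, ← sum_mul, mea]
  have hφ : (q.totient : ℝ) ≠ 0 := by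
    have : 0 < q.totient := Nat.totient_pos.2 (by omega)
    exact_mod_cast this.ne'
  field_simp
  ring

theorem mea_nonneg (N q : ℕ) : 0 ≤ mea N q :=
  div_nonneg (sum_nonneg fun n _ => Lam_nonneg n) (Nat.cast_nonneg _)

theorem psi_cop (N q : ℕ) : ∑ n ∈ (Icc 1 N).filter (fun n => n.Coprime q), (Λ n : ℝ) ≤ 6 * N :=
  (sum_le_sum_of_subset_of_nonneg (filter_subset _ _) (fun n _ _ => Lam_nonneg n)).trans
    (Off1Aux.psi_bound N)

theorem mea_mul (N q : ℕ) (hq : 1 ≤ q) : mea N q * q.totient ≤ 6 * N := by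
  have hφ : (0 : ℝ) < q.totient := by
    have : 0 < q.totient := Nat.totient_pos.2 (by omega)
    exact_mod_cast this
  rw [mea, div_mul_cancel₀ _ hφ.ne']
  exact psi_cop N q

theorem EE_abs (N q : ℕ) (hq : 1 ≤ q) : ∑ a ∈ red q, |EE N q a| ≤ 12 * N := by
  have h1 : ∀ a ∈ red q, |EE N q a| ≤
      (∑ n ∈ (Icc 1 N).filter (fun n => n % q = a), (Λ n : ℝ)) + mea N q := by
    intro a _
    have h2 : 0 ≤ ∑ n ∈ (Icc 1 N).filter (fun n => n % q = a), (Λ n : ℝ) :=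
      sum_nonneg fun n _ => Lam_nonneg n
    have h3 := mea_nonneg N q
    rw [EE, abs_le]
    constructor <;> linarith
  refine (sum_le_sum h1).trans ?_
  rw [sum_add_distrib, ← sum_red q hq N (fun n => (Λ n : ℝ)), sum_const, nsmul_eq_mul, card_red]
  have h2 := psi_cop N q
  have h3 := mea_mul N q hq
  linarith

/-- transfer from the integers coprime to `q` to all integers -/
theorem transfer (N q K : ℕ) (hq : 1 ≤ q) (hK : 1 ≤ K) (hN : 1 ≤ N) (hqK : q * K ≤ N ^ 3)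
    (f g : ℕ → ℂ) (B : ℝ)
    (h1 : ∀ n ∈ Icc 1 N, n.Coprime (q * K) → f n = g n)
    (hf : ∀ n ∈ Icc 1 N, ‖f n‖ ≤ B) (hg : ∀ n ∈ Icc 1 N, ‖g n‖ ≤ B) :
    ‖∑ n ∈ (Icc 1 N).filter (fun n => n.Coprime q), ((Λ n : ℝ) : ℂ) * f n -
      ∑ n ∈ Icc 1 N, ((Λ n : ℝ) : ℂ) * g n‖ ≤ 12 * B * Real.log N ^ 2 := by
  have hB : 0 ≤ B := (norm_nonneg _).trans (hf 1 (mem_Icc.2 ⟨le_rfl, hN⟩))
  have e1 : ∑ n ∈ (Icc 1 N).filter (fun n => n.Coprime q), ((Λ n : ℝ) : ℂ) * f n -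
      ∑ n ∈ Icc 1 N, ((Λ n : ℝ) : ℂ) * g n =
      ∑ n ∈ (Icc 1 N).filter (fun n => ¬ n.Coprime (q * K)), ((Λ n : ℝ) : ℂ) *
        ((if n.Coprime q then f n else 0) - g n) := by
    rw [sum_filter, ← sum_sub_distrib, sum_filter]
    refine sum_congr rfl fun n hn => ?_
    by_cases hc : n.Coprime (q * K)
    · have hcq : n.Coprime q := Nat.Coprime.coprime_dvd_right (Dvd.intro K rfl) hc
      rw [if_pos hcq, if_neg (not_not.2 hc), h1 n hn hc, sub_self]
    · rw [if_pos hc]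
      split_ifs <;> ring
  rw [e1]
  have h2 : ∀ n ∈ (Icc 1 N).filter (fun n => ¬ n.Coprime (q * K)),
      ‖((Λ n : ℝ) : ℂ) * ((if n.Coprime q then f n else 0) - g n)‖ ≤ Λ n * (2 * B) := by
    intro n hn
    have hn' := (mem_filter.1 hn).1
    rw [norm_mul, Complex.norm_real, Real.norm_of_nonneg (Lam_nonneg n)]
    refine mul_le_mul_of_nonneg_left ?_ (Lam_nonneg n)
    refine (norm_sub_le _ _).trans ?_
    have h3 := hf n hn'
    have h4 := hg n hn'
    split_ifs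
    · linarith
    · rw [norm_zero]; linarith
  refine (norm_sum_le _ _).trans ((sum_le_sum h2).trans ?_)
  rw [← sum_mul]
  have h5 := noncoprime_sum N (q * K) (Nat.mul_pos hq hK)
  have hlog : 0 ≤ Real.log N := Real.log_natCast_nonneg N
  have h6 : (Nat.log 2 (q * K) : ℝ) ≤ 6 * Real.log N := by
    have h7 : (2 : ℝ) ^ (Nat.log 2 (q * K)) ≤ (N : ℝ) ^ 3 := by
      have : 2 ^ Nat.log 2 (q * K) ≤ N ^ 3 :=
        (Nat.pow_log_le_self 2 (Nat.mul_pos hq hK).ne').trans hqK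
      exact_mod_cast this
    have h8 := Real.log_le_log (by positivity) h7
    rw [Real.log_pow, Real.log_pow] at h8
    have h9 : (1 : ℝ) / 2 ≤ Real.log 2 := by
      have := Real.log_two_gt_d9
      linarith
    have h10 : (Nat.log 2 (q * K) : ℝ) * (1 / 2) ≤ Nat.log 2 (q * K) * Real.log 2 := by gcongr
    push_cast at h8
    linarith
  calc (∑ n ∈ (Icc 1 N).filter (fun n => ¬ n.Coprime (q * K)), (Λ n : ℝ)) * (2 * B)
      ≤ (Nat.log 2 (q * K) * Real.log N) * (2 * B) := by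
        exact mul_le_mul_of_nonneg_right h5 (by linarith)
    _ ≤ (6 * Real.log N * Real.log N) * (2 * B) := by gcongr
    _ = 12 * B * Real.log N ^ 2 := by ring

end GB

end

end Pool.Agent.M848
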