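import Pool.Agent.Lib.MP_848d44_nt.G.Base

/-!
# MP_848d44_nt, two-sided omega theorem, module KER: good kernels
-/

set_option autoImplicit false

namespace Pool.Agent.M848

open Finset
open scoped ArithmeticFunction ComplexConjugate

noncomputable section

theorem gd_mul (N : ℕ) (P P' : ℝ) (K K' : ℤ → ℂ) (h : Gd N P K) (h' : Gd N P' K') :
    Gd N (2 * P * P') (fun y => K y * K' y) := by
  have hP : 0 ≤ P := (norm_nonneg _).trans (h.1 0)
  have hP' : 0 ≤ P' := (norm_nonneg _).trans (h'.1 0)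
  have hPP : 0 ≤ P * P' := mul_nonneg hP hP'
  refine ⟨fun y => ?_, fun y => ?_⟩
  · rw [norm_mul]
    calc ‖K y‖ * ‖K' y‖ ≤ P * P' := mul_le_mul (h.1 y) (h'.1 y) (norm_nonneg _) hP
      _ ≤ 2 * P * P' := by linarith
  · have h1 : K y * K' y - K (y + 1) * K' (y + 1) =
        (K y - K (y + 1)) * K' y + K (y + 1) * (K' y - K' (y + 1)) := by ring
    rw [h1]
    refine (norm_add_le _ _).trans ?_
    rw [norm_mul, norm_mul]
    have hN : (0 : ℝ) ≤ N := Nat.cast_nonneg N
    calc ‖K y - K (y + 1)‖ * ‖K' y‖ + ‖K (y + 1)‖ * ‖K' y - K' (y + 1)‖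
        ≤ (P / N) * P' + P * (P' / N) :=
          add_le_add (mul_le_mul (h.2 y) (h'.1 y) (norm_nonneg _) (div_nonneg hP hN))
            (mul_le_mul (h.1 _) (h'.2 y) (norm_nonneg _) hP)
      _ = 2 * P * P' / N := by ring

theorem gd_abel (N : ℕ) (P : ℝ) (K : ℤ → ℂ) (h : Gd N P K) (g : ℕ → ℂ) :
    ‖∑ n ∈ Icc 1 N, ((Λ n : ℝ) : ℂ) * (g n * K n)‖ ≤
      (P / N) * ∑ y ∈ Icc 1 N, ‖SL g y‖ + P * ‖SL g N‖ := by
  have hab := OffBAux.abel (fun n => ((Λ n : ℝ) : ℂ) * g n) K N
  have hS : ∀ y, ∑ n ∈ Icc 1 y, ((Λ n : ℝ) : ℂ) * g n = SL g y := fun y => rfl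
  simp only [hS] at hab
  have h1 : ∑ n ∈ Icc 1 N, ((Λ n : ℝ) : ℂ) * (g n * K n) =
      ∑ n ∈ Icc 1 N, ((Λ n : ℝ) : ℂ) * g n * K n :=
    Finset.sum_congr rfl fun n _ => by ring
  rw [h1, hab]
  refine (norm_add_le _ _).trans (add_le_add ?_ ?_)
  · refine (norm_sum_le _ _).trans ?_
    rw [Finset.mul_sum]
    refine Finset.sum_le_sum fun y _ => ?_
    rw [norm_mul, mul_comm]
    exact mul_le_mul_of_nonneg_right (h.2 _) (norm_nonneg _)
  · rw [norm_mul, mul_comm]
    exact mul_le_mul_of_nonneg_right (h.1 _) (norm_nonneg _)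

theorem gd_tent (N : ℕ) : Gd N 1 (fun y => ((tent N y : ℝ) : ℂ)) := by
  refine ⟨fun y => ?_, fun y => ?_⟩
  · rw [Complex.norm_real, Real.norm_eq_abs, abs_of_nonneg (tent_nonneg N y)]
    linarith [tent_le N y]
  · rw [← Complex.ofReal_sub, Complex.norm_real, Real.norm_eq_abs]
    exact tent_lip N y

theorem gd_ker (N q H s : ℕ) (hs : s.Prime) {χ : ℕ → ℂ} (hχ : χ ∈ nc s) (σ : ℤ)
    (hσ : σ = 1 ∨ σ = -1) :
    Gd N (8 * (Real.sqrt s * (1 + Real.log s))) (ker (tent N) q H χ σ) := by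
  set P₀ : ℝ := Real.sqrt s * (1 + Real.log s) with hP₀
  have hP : ∀ z ≤ H, ‖∑ h ∈ Icc 1 z, conj (χ h)‖ ≤ P₀ := by
    intro z _
    rw [← map_sum, RCLike.norm_conj]
    have h1 := MP848.pv_prog hs hχ 1 1 z (fun h => hs.one_lt.ne' (Nat.dvd_one.1 h))
    have h2 : ∑ j ∈ range z, χ (1 + 1 * j) = ∑ h ∈ Icc 1 z, χ h := by
      have e : Icc 1 z = Ico 1 (z + 1) := by
        ext t
        simp only [mem_Icc, mem_Ico]
        omega
      rw [e, Finset.sum_Ico_eq_sum_range, Nat.add_sub_cancel]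
      exact Finset.sum_congr rfl fun j _ => by rw [one_mul]
    rw [← h2]
    exact h1
  have hP0 : 0 ≤ P₀ := (norm_nonneg _).trans (hP 0 (Nat.zero_le _))
  refine ⟨fun y => ?_, fun y => ?_⟩
  · have h1 := tent_sum N q H y σ hσ (fun h => conj (χ h)) P₀ hP
    unfold ker
    linarith
  · have h1 := tent_diff_sum N q H y σ hσ (fun h => conj (χ h)) P₀ hP
    have h2 : ker (tent N) q H χ σ y - ker (tent N) q H χ σ (y + 1) = ∑ h ∈ Icc 1 H,
        ((tent N (y + σ * (h * q)) - tent N (y + 1 + σ * (h * q)) : ℝ) : ℂ) * conj (χ h) := by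
      unfold ker
      rw [← Finset.sum_sub_distrib]
      refine Finset.sum_congr rfl fun h _ => ?_
      push_cast
      ring
    rw [h2]
    exact h1

theorem gd_ker2 (N q H s : ℕ) {χ : ℕ → ℂ} (hχ : χ ∈ nc s) (σ : ℤ) :
    Gd N H (ker (tent2 N) q H χ σ) := by
  have hχ1 : ∀ h : ℕ, ‖conj (χ h)‖ ≤ 1 := fun h => by
    rw [RCLike.norm_conj]
    exact nc_norm_le hχ h
  refine ⟨fun y => ?_, fun y => ?_⟩
  · unfold ker
    refine (norm_sum_le _ _).trans ?_
    calc ∑ h ∈ Icc 1 H, ‖((tent2 N (y + σ * (h * q)) : ℝ) : ℂ) * conj (χ h)‖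
        ≤ ∑ h ∈ Icc 1 H, (1 : ℝ) := by
          refine Finset.sum_le_sum fun h _ => ?_
          rw [norm_mul, Complex.norm_real, Real.norm_eq_abs]
          have h1 := tent_nonneg N (y + σ * (h * q))
          have h2 := tent_le N (y + σ * (h * q))
          have h3 : |tent2 N (y + σ * (h * q))| ≤ 1 := by
            unfold tent2
            rw [abs_of_nonneg (sq_nonneg _)]
            nlinarith
          calc |tent2 N (y + σ * (h * q))| * ‖conj (χ h)‖ ≤ 1 * 1 :=
                mul_le_mul h3 (hχ1 h) (norm_nonneg _) zero_le_one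
            _ = 1 := one_mul 1
      _ = H := by simp
  · have h2 : ker (tent2 N) q H χ σ y - ker (tent2 N) q H χ σ (y + 1) = ∑ h ∈ Icc 1 H,
        ((tent2 N (y + σ * (h * q)) - tent2 N (y + 1 + σ * (h * q)) : ℝ) : ℂ) * conj (χ h) := by
      unfold ker
      rw [← Finset.sum_sub_distrib]
      refine Finset.sum_congr rfl fun h _ => ?_
      push_cast
      ring
    rw [h2]
    refine (norm_sum_le _ _).trans ?_
    calc ∑ h ∈ Icc 1 H, ‖((tent2 N (y + σ * (h * q)) - tent2 N (y + 1 + σ * (h * q)) : ℝ) : ℂ) *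
            conj (χ h)‖
        ≤ ∑ h ∈ Icc 1 H, (1 / (N : ℝ)) := by
          refine Finset.sum_le_sum fun h _ => ?_
          rw [norm_mul, Complex.norm_real, Real.norm_eq_abs]
          have e : y + 1 + σ * (h * q) = (y + σ * (h * q)) + 1 := by ring
          rw [e]
          set m := y + σ * (h * q)
          have h1 := tent_nonneg N m
          have h3 := tent_le N m
          have h1' := tent_nonneg N (m + 1)
          have h3' := tent_le N (m + 1)
          have h4 := tent_lip N m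
          have h5 : |tent2 N m - tent2 N (m + 1)| ≤ 1 / N := by
            unfold tent2
            have h6 : tent N m ^ 2 - tent N (m + 1) ^ 2 =
                (tent N m - tent N (m + 1)) * (tent N m + tent N (m + 1)) := by ring
            rw [h6, abs_mul, abs_of_nonneg (add_nonneg h1 h1')]
            calc |tent N m - tent N (m + 1)| * (tent N m + tent N (m + 1))
                ≤ |tent N m - tent N (m + 1)| * 1 :=
                  mul_le_mul_of_nonneg_left (by linarith) (abs_nonneg _)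
              _ ≤ 1 / N := by rw [mul_one]; exact h4
          calc |tent2 N m - tent2 N (m + 1)| * ‖conj (χ h)‖ ≤ (1 / N) * 1 :=
                mul_le_mul h5 (hχ1 h) (norm_nonneg _) (by positivity)
            _ = 1 / N := mul_one _
      _ = H / N := by
          rw [Finset.sum_const, Nat.card_Icc, Nat.add_sub_cancel, nsmul_eq_mul]
          ring

end

end Pool.Agent.M848
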