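import Pool.Agent.Lib.MP_848d44_nt.G.Pair
import Pool.Agent.Lib.MP_848d44_nt.G.Ker

/-!
# MP_848d44_nt, two-sided omega theorem, module BLK: the block bounds for T1, T2, T3, T4
-/

set_option autoImplicit false

namespace Pool.Agent.M848

open Finset
open scoped ArithmeticFunction ComplexConjugate

noncomputable section

namespace BlkGAux

/-- the sum over `n` with an extra factor in terms of the kernels -/
theorem yc_le (w : ℤ → ℝ) (N q s : ℕ) (hs : s.Prime) (G : ℕ → ℂ) :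
    ‖∑ n ∈ Icc 1 N, ((Λ n : ℝ) : ℂ) * (G n * YC w N q s n)‖ ≤
      (1 / ((s : ℝ) - 1)) * ∑ χ ∈ nc s,
        (‖∑ n ∈ Icc 1 N, ((Λ n : ℝ) : ℂ) * (χ n * (G n * ker w q (N / q) χ 1 n))‖ +
          ‖∑ n ∈ Icc 1 N, ((Λ n : ℝ) : ℂ) * (χ n * (G n * ker w q (N / q) χ (-1) n))‖) := by
  have hs1 : (1 : ℝ) < s := by exact_mod_cast hs.one_lt
  have e : ∑ n ∈ Icc 1 N, ((Λ n : ℝ) : ℂ) * (G n * YC w N q s n) =
      (1 / ((s : ℂ) - 1)) * ∑ χ ∈ nc s,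
        (conj (χ (Off1Aux.tt s 1 1 * q)) *
            ∑ n ∈ Icc 1 N, ((Λ n : ℝ) : ℂ) * (χ n * (G n * ker w q (N / q) χ 1 n)) +
          conj (χ (Off1Aux.tt s 1 (-1) * q)) *
            ∑ n ∈ Icc 1 N, ((Λ n : ℝ) : ℂ) * (χ n * (G n * ker w q (N / q) χ (-1) n))) := by
    simp only [YC]
    have e1 : ∀ n ∈ Icc 1 N, ((Λ n : ℝ) : ℂ) * (G n * ((1 / ((s : ℂ) - 1)) * ∑ χ ∈ nc s, χ n *
        (conj (χ (Off1Aux.tt s 1 1 * q)) * ker w q (N / q) χ 1 n +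
          conj (χ (Off1Aux.tt s 1 (-1) * q)) * ker w q (N / q) χ (-1) n))) =
        ∑ χ ∈ nc s, (1 / ((s : ℂ) - 1)) * (conj (χ (Off1Aux.tt s 1 1 * q)) *
            (((Λ n : ℝ) : ℂ) * (χ n * (G n * ker w q (N / q) χ 1 n))) +
          conj (χ (Off1Aux.tt s 1 (-1) * q)) *
            (((Λ n : ℝ) : ℂ) * (χ n * (G n * ker w q (N / q) χ (-1) n)))) := by
      intro n _
      rw [Finset.mul_sum, Finset.mul_sum, Finset.mul_sum]
      refine Finset.sum_congr rfl fun χ _ => ?_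
      ring
    rw [Finset.sum_congr rfl e1, Finset.sum_comm, Finset.mul_sum]
    refine Finset.sum_congr rfl fun χ _ => ?_
    rw [← Finset.mul_sum, Finset.sum_add_distrib, Finset.mul_sum, Finset.mul_sum]
  rw [e, norm_mul]
  have e2 : ‖(1 / ((s : ℂ) - 1))‖ = 1 / ((s : ℝ) - 1) := by
    have : ((s : ℂ) - 1) = (((s : ℝ) - 1 : ℝ) : ℂ) := by push_cast; ring
    rw [this, norm_div, norm_one, Complex.norm_real, Real.norm_of_nonneg (by linarith)]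
  rw [e2]
  refine mul_le_mul_of_nonneg_left ?_ (by
    have : 0 < (s : ℝ) - 1 := by linarith
    positivity)
  refine (norm_sum_le _ _).trans (Finset.sum_le_sum fun χ hχ => ?_)
  refine (norm_add_le _ _).trans (add_le_add ?_ ?_)
  · rw [norm_mul, RCLike.norm_conj]
    exact mul_le_of_le_one_left (norm_nonneg _) (L1Aux.nc_norm hχ _)
  · rw [norm_mul, RCLike.norm_conj]
    exact mul_le_of_le_one_left (norm_nonneg _) (L1Aux.nc_norm hχ _)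

/-- the sum over `n` with good kernels -/
theorem yc_gd (w : ℤ → ℝ) (N q s : ℕ) (hs : s.Prime) (G : ℤ → ℂ) (P : ℝ)
    (hK : ∀ χ ∈ nc s, ∀ σ : ℤ, (σ = 1 ∨ σ = -1) →
      Gd N P (fun y => G y * ker w q (N / q) χ σ y)) :
    ‖∑ n ∈ Icc 1 N, ((Λ n : ℝ) : ℂ) * (G n * YC w N q s n)‖ ≤
      (1 / ((s : ℝ) - 1)) * ∑ χ ∈ nc s,
        (2 * ((P / N) * ∑ y ∈ Icc 1 N, ‖SL χ y‖ + P * ‖SL χ N‖)) := by
  have hs1 : (1 : ℝ) < s := by exact_mod_cast hs.one_lt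
  refine (yc_le w N q s hs (fun n => G n)).trans ?_
  refine mul_le_mul_of_nonneg_left ?_ (by
    have : 0 < (s : ℝ) - 1 := by linarith
    positivity)
  refine Finset.sum_le_sum fun χ hχ => ?_
  rw [two_mul]
  exact add_le_add (gd_abel N P _ (hK χ hχ 1 (Or.inl rfl)) χ)
    (gd_abel N P _ (hK χ hχ (-1) (Or.inr rfl)) χ)

theorem memPR {R s : ℕ} (h : s ∈ PR R) : s.Prime ∧ R < s ∧ s ≤ 2 * R := by
  rw [PR, mem_filter, mem_Ioc] at h
  exact ⟨h.2, h.1⟩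

theorem one_mem_ac : (fun _ : ℕ => (1 : ℂ)) ∈ ac 1 := by
  classical
  unfold ac
  rw [dif_neg one_ne_zero, Finset.mem_image]
  refine ⟨1, Finset.mem_univ _, ?_⟩
  funext n
  have : ((n : ℕ) : ZMod 1) = 1 := Subsingleton.elim _ _
  rw [this, map_one]

/-- the mean value theorem without twist -/
theorem l1_one (δ : ℝ) (hδ : 0 < δ) :
    ∃ C : ℝ, 0 < C ∧ ∀ N R y : ℕ, 1 ≤ R → R ^ 3 ≤ N → y ≤ N →
      ∑ s ∈ PR R, ∑ χ ∈ nc s, ‖SL χ y‖ ≤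
        C * (N : ℝ) ^ δ * (N + (N : ℝ) ^ ((5 : ℝ) / 6) * R) := by
  obtain ⟨C, hC, h⟩ := l1_mean δ hδ
  refine ⟨C, hC, ?_⟩
  intro N R y hR hRN hy
  have h1 := h N R 1 y hR hRN le_rfl hR hy _ one_mem_ac
  simpa using h1

/-- the sum over the primes `s` of a block -/
theorem sum_block (δ : ℝ) (hδ : 0 < δ) :
    ∃ C : ℝ, 0 < C ∧ ∀ N R : ℕ, 1 ≤ R → R ^ 3 ≤ N → ∀ (F : ℕ → ℝ) (P : ℝ), 0 ≤ P →
      (∀ s ∈ PR R, F s ≤ (1 / ((s : ℝ) - 1)) * ∑ χ ∈ nc s,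
        (2 * ((P / N) * ∑ y ∈ Icc 1 N, ‖SL χ y‖ + P * ‖SL χ N‖))) →
      ∑ s ∈ PR R, F s ≤ C * (N : ℝ) ^ δ * (P * (N / R + (N : ℝ) ^ ((5 : ℝ) / 6))) := by
  obtain ⟨C₁, hC₁, hl1⟩ := l1_one δ hδ
  refine ⟨4 * C₁, by positivity, ?_⟩
  intro N R hR hRN F P hP hF
  have hRN' : R ≤ N := le_trans (Nat.le_self_pow (by norm_num) R) hRN
  have hN1 : 1 ≤ N := le_trans hR hRN'
  have hRr : (1 : ℝ) ≤ R := by exact_mod_cast hR
  have hNr : (1 : ℝ) ≤ N := by exact_mod_cast hN1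
  have hNpos : (0 : ℝ) < N := by linarith
  have hRpos : (0 : ℝ) < R := by linarith
  set B : ℝ := C₁ * (N : ℝ) ^ δ * (N + (N : ℝ) ^ ((5 : ℝ) / 6) * R) with hBdef
  have hB : ∀ y ≤ N, ∑ s ∈ PR R, ∑ χ ∈ nc s, ‖SL χ y‖ ≤ B := fun y hy => hl1 N R y hR hRN hy
  have h1 : ∑ s ∈ PR R, F s ≤ (1 / (R : ℝ)) * ∑ s ∈ PR R, ∑ χ ∈ nc s,
        (2 * ((P / N) * ∑ y ∈ Icc 1 N, ‖SL χ y‖ + P * ‖SL χ N‖)) := by
    rw [Finset.mul_sum]
    refine Finset.sum_le_sum fun s hs => (hF s hs).trans ?_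
    obtain ⟨hsp, hs1, hs2⟩ := memPR hs
    have hsr : (R : ℝ) ≤ (s : ℝ) - 1 := by
      have : ((R + 1 : ℕ) : ℝ) ≤ (s : ℝ) := by exact_mod_cast hs1
      push_cast at this
      linarith
    refine mul_le_mul_of_nonneg_right (one_div_le_one_div_of_le hRpos hsr) ?_
    exact Finset.sum_nonneg fun χ _ => by positivity
  have h2 : ∑ s ∈ PR R, ∑ χ ∈ nc s,
        (2 * ((P / N) * ∑ y ∈ Icc 1 N, ‖SL χ y‖ + P * ‖SL χ N‖)) ≤ 4 * P * B := by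
    have e1 : ∑ s ∈ PR R, ∑ χ ∈ nc s,
        (2 * ((P / N) * ∑ y ∈ Icc 1 N, ‖SL χ y‖ + P * ‖SL χ N‖)) =
        2 * ((P / N) * ∑ y ∈ Icc 1 N, ∑ s ∈ PR R, ∑ χ ∈ nc s, ‖SL χ y‖ +
        P * ∑ s ∈ PR R, ∑ χ ∈ nc s, ‖SL χ N‖) := by
      simp only [Finset.sum_add_distrib, ← Finset.mul_sum]
      congr 3
      rw [Finset.sum_comm]
      refine Finset.sum_congr rfl fun s _ => ?_
      exact Finset.sum_comm
    rw [e1]
    have e2 : ∑ y ∈ Icc 1 N, ∑ s ∈ PR R, ∑ χ ∈ nc s, ‖SL χ y‖ ≤ N * B := by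
      calc ∑ y ∈ Icc 1 N, ∑ s ∈ PR R, ∑ χ ∈ nc s, ‖SL χ y‖
          ≤ ∑ y ∈ Icc 1 N, B := Finset.sum_le_sum fun y hy => hB y (mem_Icc.1 hy).2
        _ = N * B := by simp
    have e3 := hB N le_rfl
    calc 2 * ((P / N) * ∑ y ∈ Icc 1 N, ∑ s ∈ PR R, ∑ χ ∈ nc s, ‖SL χ y‖ +
          P * ∑ s ∈ PR R, ∑ χ ∈ nc s, ‖SL χ N‖)
        ≤ 2 * ((P / N) * (N * B) + P * B) := by
          gcongr
      _ = 4 * P * B := by
          field_simp
          ring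
  calc ∑ s ∈ PR R, F s ≤ (1 / (R : ℝ)) * (4 * P * B) :=
        h1.trans (mul_le_mul_of_nonneg_left h2 (by positivity))
    _ = 4 * C₁ * (N : ℝ) ^ δ * (P * (N / R + (N : ℝ) ^ ((5 : ℝ) / 6))) := by
        rw [hBdef]
        field_simp

/-- the logarithm -/
theorem log_le (δ : ℝ) (hδ : 0 < δ) (N R : ℕ) (hR : 1 ≤ R) (hRN : R ≤ N) :
    1 + Real.log (2 * R) ≤ (2 + 1 / δ) * (N : ℝ) ^ δ := by
  have hRr : (1 : ℝ) ≤ R := by exact_mod_cast hR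
  have hNr : (1 : ℝ) ≤ N := by exact_mod_cast hR.trans hRN
  have a1 : (1 : ℝ) ≤ (N : ℝ) ^ δ := Real.one_le_rpow hNr (by linarith)
  have a2 : Real.log (2 * R) = Real.log 2 + Real.log R :=
    Real.log_mul (by norm_num) (by linarith)
  have a3 : Real.log 2 ≤ 1 := by
    have := Real.log_two_lt_d9
    linarith
  have a4 : Real.log R ≤ Real.log N := Real.log_le_log (by linarith) (by exact_mod_cast hRN)
  have a5 : Real.log N ≤ (N : ℝ) ^ δ / δ := Real.log_le_rpow_div (by linarith) hδ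
  have a6 : (N : ℝ) ^ δ / δ = 1 / δ * (N : ℝ) ^ δ := by
    field_simp
  rw [a2]
  nlinarith

/-- the Polya-Vinogradov bound for the primes of a block -/
theorem pv_le {R s : ℕ} (h : s ∈ PR R) :
    Real.sqrt s * (1 + Real.log s) ≤ Real.sqrt (2 * R) * (1 + Real.log (2 * R)) := by
  obtain ⟨hsp, hs1, hs2⟩ := memPR h
  have hsr : (s : ℝ) ≤ 2 * R := by exact_mod_cast hs2
  have hs0 : (0 : ℝ) < s := by exact_mod_cast hsp.pos
  have hs1' : (1 : ℝ) ≤ s := by exact_mod_cast hsp.one_lt.le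
  have hl := Real.log_le_log hs0 hsr
  have hl0 := Real.log_nonneg hs1'
  gcongr

theorem gd_mono {N : ℕ} {P P' : ℝ} {K : ℤ → ℂ} (h : Gd N P K) (hP : P ≤ P') : Gd N P' K := by
  refine ⟨fun y => (h.1 y).trans hP, fun y => (h.2 y).trans ?_⟩
  exact div_le_div_of_nonneg_right hP (Nat.cast_nonneg _)

/-- the block sum with a kernel bound of Polya-Vinogradov size -/
theorem sum_pv (δ : ℝ) (hδ : 0 < δ) (A : ℝ) (hA : 0 < A) :
    ∃ C : ℝ, 0 < C ∧ ∀ N R : ℕ, 1 ≤ R → R ^ 3 ≤ N → ∀ (F : ℕ → ℝ),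
      (∀ s ∈ PR R, F s ≤ (1 / ((s : ℝ) - 1)) * ∑ χ ∈ nc s,
        (2 * ((A * (Real.sqrt (2 * R) * (1 + Real.log (2 * R))) / N) *
          ∑ y ∈ Icc 1 N, ‖SL χ y‖ + A * (Real.sqrt (2 * R) * (1 + Real.log (2 * R))) *
            ‖SL χ N‖))) →
      ∑ s ∈ PR R, F s ≤
        C * (N : ℝ) ^ δ * (N / Real.sqrt R + (N : ℝ) ^ ((5 : ℝ) / 6) * Real.sqrt R) := by
  obtain ⟨C₁, hC₁, hl1⟩ := sum_block (δ / 2) (by linarith)
  refine ⟨C₁ * (A * (Real.sqrt 2 * (2 + 1 / (δ / 2)))), by positivity, ?_⟩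
  intro N R hR hRN F hF
  have hRN' : R ≤ N := le_trans (Nat.le_self_pow (by norm_num) R) hRN
  have hN1 : 1 ≤ N := le_trans hR hRN'
  have hRr : (1 : ℝ) ≤ R := by exact_mod_cast hR
  have hNr : (1 : ℝ) ≤ N := by exact_mod_cast hN1
  have hNpos : (0 : ℝ) < N := by linarith
  have hRpos : (0 : ℝ) < R := by linarith
  have hlog0 : 0 ≤ Real.log (2 * (R : ℝ)) := Real.log_nonneg (by linarith)
  have h1 := hl1 N R hR hRN F (A * (Real.sqrt (2 * R) * (1 + Real.log (2 * R))))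
    (by positivity) hF
  have h3 := log_le (δ / 2) (by linarith) N R hR hRN'
  have h4 : Real.sqrt (2 * R) = Real.sqrt 2 * Real.sqrt R := Real.sqrt_mul (by norm_num) _
  have hsq : Real.sqrt R * Real.sqrt R = R := Real.mul_self_sqrt hRpos.le
  have hsqpos : 0 < Real.sqrt R := Real.sqrt_pos.2 hRpos
  have h5 : (N : ℝ) ^ (δ / 2) * (N : ℝ) ^ (δ / 2) = (N : ℝ) ^ δ := by
    rw [← Real.rpow_add hNpos]
    congr 1
    ring
  calc ∑ s ∈ PR R, F s ≤ C₁ * (N : ℝ) ^ (δ / 2) *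
        (A * (Real.sqrt (2 * R) * (1 + Real.log (2 * R))) * (N / R + (N : ℝ) ^ ((5 : ℝ) / 6))) := h1
    _ ≤ C₁ * (N : ℝ) ^ (δ / 2) *
        (A * (Real.sqrt (2 * R) * ((2 + 1 / (δ / 2)) * (N : ℝ) ^ (δ / 2))) *
          (N / R + (N : ℝ) ^ ((5 : ℝ) / 6))) := by
        gcongr
    _ = C₁ * (A * (Real.sqrt 2 * (2 + 1 / (δ / 2)))) * ((N : ℝ) ^ (δ / 2) * (N : ℝ) ^ (δ / 2)) *
        (Real.sqrt R * (N / R + (N : ℝ) ^ ((5 : ℝ) / 6))) := by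
        rw [h4]
        ring
    _ = C₁ * (A * (Real.sqrt 2 * (2 + 1 / (δ / 2)))) * (N : ℝ) ^ δ *
        (N / Real.sqrt R + (N : ℝ) ^ ((5 : ℝ) / 6) * Real.sqrt R) := by
        rw [h5]
        congr 1
        generalize Real.sqrt (R : ℝ) = r at hsq hsqpos ⊢
        rw [← hsq]
        field_simp

end BlkGAux

open BlkGAux

theorem sum_T1 (δ : ℝ) (hδ : 0 < δ) :
    ∃ C : ℝ, 0 < C ∧ ∀ N q j : ℕ, (2 ^ j) ^ 3 ≤ N →
      ∑ s ∈ PR (2 ^ j), T1 N q s ≤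
        C * (N : ℝ) ^ δ * (N / Real.sqrt (2 ^ j) + (N : ℝ) ^ ((5 : ℝ) / 6) * Real.sqrt (2 ^ j)) := by
  obtain ⟨C, hC, h⟩ := sum_pv δ hδ 8 (by norm_num)
  refine ⟨C, hC, ?_⟩
  intro N q j hj
  have h1 := h N (2 ^ j) Nat.one_le_two_pow hj (T1 N q) (by
    intro s hs
    obtain ⟨hsp, hs1, hs2⟩ := memPR hs
    have h2 := yc_gd (tent N) N q s hsp (fun _ => 1)
      (8 * (Real.sqrt (2 * (2 ^ j : ℕ)) * (1 + Real.log (2 * (2 ^ j : ℕ)))))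
      (by
        intro χ hχ σ hσ
        simp only [one_mul]
        exact gd_mono (gd_ker N q (N / q) s hsp hχ σ hσ)
          (mul_le_mul_of_nonneg_left (pv_le hs) (by norm_num)))
    simp only [one_mul] at h2
    exact h2)
  push_cast at h1
  exact h1

theorem sum_T2 (δ : ℝ) (hδ : 0 < δ) :
    ∃ C : ℝ, 0 < C ∧ ∀ N q j : ℕ, (2 ^ j) ^ 3 ≤ N →
      ∑ s ∈ PR (2 ^ j), T2 N q s ≤
        C * (N : ℝ) ^ δ * (N / Real.sqrt (2 ^ j) + (N : ℝ) ^ ((5 : ℝ) / 6) * Real.sqrt (2 ^ j)) := by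
  obtain ⟨C, hC, h⟩ := sum_pv δ hδ 16 (by norm_num)
  refine ⟨C, hC, ?_⟩
  intro N q j hj
  have h1 := h N (2 ^ j) Nat.one_le_two_pow hj (T2 N q) (by
    intro s hs
    obtain ⟨hsp, hs1, hs2⟩ := memPR hs
    exact yc_gd (tent N) N q s hsp (fun y => ((tent N y : ℝ) : ℂ))
      (16 * (Real.sqrt (2 * (2 ^ j : ℕ)) * (1 + Real.log (2 * (2 ^ j : ℕ)))))
      (by
        intro χ hχ σ hσ
        refine gd_mono (gd_mul N _ _ _ _ (gd_tent N) (gd_ker N q (N / q) s hsp hχ σ hσ)) ?_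
        have := pv_le hs
        linarith))
  push_cast at h1
  exact h1

theorem sum_T3 (δ : ℝ) (hδ : 0 < δ) :
    ∃ C : ℝ, 0 < C ∧ ∀ N q j : ℕ, (2 ^ j) ^ 3 ≤ N →
      ∑ s ∈ PR (2 ^ j), T3 N q s ≤
        C * (N : ℝ) ^ δ * ((N / q : ℕ) * (N / 2 ^ j + (N : ℝ) ^ ((5 : ℝ) / 6))) := by
  obtain ⟨C, hC, h⟩ := sum_block δ hδ
  refine ⟨C, hC, ?_⟩
  intro N q j hj
  have h1 := h N (2 ^ j) Nat.one_le_two_pow hj (T3 N q) ((N / q : ℕ) : ℝ) (Nat.cast_nonneg _) (by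
    intro s hs
    obtain ⟨hsp, hs1, hs2⟩ := memPR hs
    have h2 := yc_gd (tent2 N) N q s hsp (fun _ => 1) ((N / q : ℕ) : ℝ)
      (by
        intro χ hχ σ hσ
        simp only [one_mul]
        exact gd_ker2 N q (N / q) s hχ σ)
    simp only [one_mul] at h2
    exact h2)
  have e : ((2 ^ j : ℕ) : ℝ) = 2 ^ j := by push_cast; ring
  rw [e] at h1
  exact h1

namespace BlkGAux

/-- the product of two class sums -/
theorem yc_two (N q s s' : ℕ) (hs : s.Prime) (hs' : s'.Prime) (w : ℤ → ℝ) (P : ℝ)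
    (hK : ∀ χ ∈ nc s, ∀ χ' ∈ nc s', ∀ σ : ℤ, (σ = 1 ∨ σ = -1) → ∀ σ' : ℤ, (σ' = 1 ∨ σ' = -1) →
      Gd N P (fun y => ker w q (N / q) χ σ y * ker w q (N / q) χ' σ' y)) :
    ‖∑ n ∈ Icc 1 N, ((Λ n : ℝ) : ℂ) * (YC w N q s n * YC w N q s' n)‖ ≤
      (1 / ((s : ℝ) - 1)) * ((1 / ((s' : ℝ) - 1)) * ∑ χ ∈ nc s, ∑ χ' ∈ nc s',
        (4 * ((P / N) * ∑ y ∈ Icc 1 N, ‖SL (fun n => χ n * χ' n) y‖ +
          P * ‖SL (fun n => χ n * χ' n) N‖))) := by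
  have hs1 : (1 : ℝ) < s := by exact_mod_cast hs.one_lt
  have hs1' : (1 : ℝ) < s' := by exact_mod_cast hs'.one_lt
  -- the outer sum
  have h1 := yc_le w N q s hs (fun n => YC w N q s' n)
  have e1 : ∑ n ∈ Icc 1 N, ((Λ n : ℝ) : ℂ) * (YC w N q s n * YC w N q s' n) =
      ∑ n ∈ Icc 1 N, ((Λ n : ℝ) : ℂ) * (YC w N q s' n * YC w N q s n) := by
    refine Finset.sum_congr rfl fun n _ => ?_
    ring
  rw [e1]
  refine h1.trans ?_
  refine mul_le_mul_of_nonneg_left ?_ (by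
    have : 0 < (s : ℝ) - 1 := by linarith
    positivity)
  rw [Finset.mul_sum]
  refine Finset.sum_le_sum fun χ hχ => ?_
  have key : ∀ σ : ℤ, (σ = 1 ∨ σ = -1) →
      ‖∑ n ∈ Icc 1 N, ((Λ n : ℝ) : ℂ) * (χ n * (YC w N q s' n * ker w q (N / q) χ σ n))‖ ≤
      (1 / ((s' : ℝ) - 1)) * ∑ χ' ∈ nc s',
        (2 * ((P / N) * ∑ y ∈ Icc 1 N, ‖SL (fun n => χ n * χ' n) y‖ +
          P * ‖SL (fun n => χ n * χ' n) N‖)) := by
    intro σ hσ
    have h2 := yc_le w N q s' hs' (fun n => χ n * ker w q (N / q) χ σ n)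
    have e2 : ∑ n ∈ Icc 1 N, ((Λ n : ℝ) : ℂ) * (χ n * (YC w N q s' n * ker w q (N / q) χ σ n)) =
        ∑ n ∈ Icc 1 N, ((Λ n : ℝ) : ℂ) * ((χ n * ker w q (N / q) χ σ n) * YC w N q s' n) := by
      refine Finset.sum_congr rfl fun n _ => ?_
      ring
    rw [e2]
    refine h2.trans ?_
    refine mul_le_mul_of_nonneg_left ?_ (by
      have : 0 < (s' : ℝ) - 1 := by linarith
      positivity)
    refine Finset.sum_le_sum fun χ' hχ' => ?_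
    rw [two_mul]
    have e3 : ∀ σ' : ℤ, ∑ n ∈ Icc 1 N, ((Λ n : ℝ) : ℂ) *
        (χ' n * ((χ n * ker w q (N / q) χ σ n) * ker w q (N / q) χ' σ' n)) =
        ∑ n ∈ Icc 1 N, ((Λ n : ℝ) : ℂ) *
          ((fun n => χ n * χ' n) n * (fun y : ℤ => ker w q (N / q) χ σ y *
            ker w q (N / q) χ' σ' y) n) := by
      intro σ'
      refine Finset.sum_congr rfl fun n _ => ?_
      ring
    rw [e3, e3]
    exact add_le_add (gd_abel N P _ (hK χ hχ χ' hχ' σ hσ 1 (Or.inl rfl)) _)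
      (gd_abel N P _ (hK χ hχ χ' hχ' σ hσ (-1) (Or.inr rfl)) _)
  refine (add_le_add (key 1 (Or.inl rfl)) (key (-1) (Or.inr rfl))).trans (le_of_eq ?_)
  rw [← mul_add, ← Finset.sum_add_distrib]
  congr 1
  refine Finset.sum_congr rfl fun χ' _ => ?_
  ring

end BlkGAux

theorem sum_T4 (δ : ℝ) (hδ : 0 < δ) :
    ∃ C : ℝ, 0 < C ∧ ∀ N q j j' : ℕ, (2 ^ j * 2 ^ j') ^ 5 ≤ N ^ 2 →
      ∑ s ∈ PR (2 ^ j), ∑ s' ∈ (PR (2 ^ j')).filter (fun s' => s' ≠ s), T4 N q s s' ≤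
        C * (N : ℝ) ^ δ * (N / Real.sqrt (2 ^ j * 2 ^ j') +
          (N : ℝ) ^ ((9 : ℝ) / 10) * Real.sqrt (2 ^ j * 2 ^ j')) := by
  obtain ⟨C₁, hC₁, hl1⟩ := l1_pair (δ / 2) (by linarith)
  refine ⟨8 * C₁ * (128 * (2 * (2 + 1 / (δ / 4)) ^ 2)), by positivity, ?_⟩
  intro N q j j' hj
  obtain ⟨R, hR⟩ : ∃ R : ℕ, R = 2 ^ j := ⟨_, rfl⟩
  obtain ⟨R', hR'⟩ : ∃ R' : ℕ, R' = 2 ^ j' := ⟨_, rfl⟩
  have hRc : (2 : ℝ) ^ j = R := by rw [hR]; push_cast; ring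
  have hRc' : (2 : ℝ) ^ j' = R' := by rw [hR']; push_cast; ring
  rw [hRc, hRc', ← hR, ← hR']
  rw [← hR, ← hR'] at hj
  have hR1 : 1 ≤ R := hR ▸ Nat.one_le_two_pow
  have hR1' : 1 ≤ R' := hR' ▸ Nat.one_le_two_pow
  have hRR : 1 ≤ R * R' := Nat.one_le_iff_ne_zero.2 (Nat.mul_ne_zero (by omega) (by omega))
  have hN1 : 1 ≤ N := by
    rcases Nat.eq_zero_or_pos N with h0 | h0
    · rw [h0] at hj
      have : 1 ≤ (R * R') ^ 5 := Nat.one_le_pow _ _ hRR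
      omega
    · exact h0
  have hRRN : R * R' ≤ N := by
    by_contra hcon
    rw [not_le] at hcon
    have h1 : N ^ 2 < (R * R') ^ 2 := Nat.pow_lt_pow_left hcon (by norm_num)
    have h2 : (R * R') ^ 2 ≤ (R * R') ^ 5 := Nat.pow_le_pow_right hRR (by norm_num)
    omega
  have hRN : R ≤ N := (Nat.le_mul_of_pos_right R hR1').trans hRRN
  have hRN' : R' ≤ N := (Nat.le_mul_of_pos_left R' hR1).trans hRRN
  have hRr : (1 : ℝ) ≤ R := by exact_mod_cast hR1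
  have hRr' : (1 : ℝ) ≤ R' := by exact_mod_cast hR1'
  have hNr : (1 : ℝ) ≤ N := by exact_mod_cast hN1
  have hNpos : (0 : ℝ) < N := by linarith
  have hRpos : (0 : ℝ) < R := by linarith
  have hRpos' : (0 : ℝ) < R' := by linarith
  have hlog0 : 0 ≤ Real.log (2 * (R : ℝ)) := Real.log_nonneg (by linarith)
  have hlog0' : 0 ≤ Real.log (2 * (R' : ℝ)) := Real.log_nonneg (by linarith)
  set P : ℝ := 128 * ((Real.sqrt (2 * R) * (1 + Real.log (2 * R))) *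
    (Real.sqrt (2 * R') * (1 + Real.log (2 * R')))) with hP
  have hP0 : 0 ≤ P := by
    rw [hP]
    positivity
  set B : ℝ := C₁ * (N : ℝ) ^ (δ / 2) * (N + (N : ℝ) ^ ((9 : ℝ) / 10) * (R * R')) with hBdef
  have hB : ∀ y ≤ N, ∑ s ∈ PR R, ∑ s' ∈ (PR R').filter (fun s' => s' ≠ s), ∑ χ ∈ nc s,
      ∑ χ' ∈ nc s', ‖SL (fun n => χ n * χ' n) y‖ ≤ B :=
    fun y hy => hl1 N R R' y hR1 hR1' hj hy
  have h1 : ∑ s ∈ PR R, ∑ s' ∈ (PR R').filter (fun s' => s' ≠ s), T4 N q s s' ≤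
      (1 / ((R : ℝ) * R')) * ∑ s ∈ PR R, ∑ s' ∈ (PR R').filter (fun s' => s' ≠ s),
        ∑ χ ∈ nc s, ∑ χ' ∈ nc s',
        (4 * ((P / N) * ∑ y ∈ Icc 1 N, ‖SL (fun n => χ n * χ' n) y‖ +
          P * ‖SL (fun n => χ n * χ' n) N‖)) := by
    rw [Finset.mul_sum]
    refine Finset.sum_le_sum fun s hs => ?_
    rw [Finset.mul_sum]
    refine Finset.sum_le_sum fun s' hs' => ?_
    have hs'2 := (Finset.mem_filter.1 hs').1
    obtain ⟨hsp, hs1, hs2⟩ := memPR hs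
    obtain ⟨hsp', hs1', hs2'⟩ := memPR hs'2
    have hsr : (R : ℝ) ≤ (s : ℝ) - 1 := by
      have : ((R + 1 : ℕ) : ℝ) ≤ (s : ℝ) := by exact_mod_cast hs1
      push_cast at this
      linarith
    have hsr' : (R' : ℝ) ≤ (s' : ℝ) - 1 := by
      have : ((R' + 1 : ℕ) : ℝ) ≤ (s' : ℝ) := by exact_mod_cast hs1'
      push_cast at this
      linarith
    have h2 := yc_two N q s s' hsp hsp' (tent N) P (by
      intro χ hχ χ' hχ' σ hσ σ' hσ'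
      refine gd_mono (gd_mul N _ _ _ _ (gd_ker N q (N / q) s hsp hχ σ hσ)
        (gd_ker N q (N / q) s' hsp' hχ' σ' hσ')) ?_
      have a1 := pv_le hs
      have a2 := pv_le hs'2
      have a0 : 0 ≤ Real.sqrt s * (1 + Real.log s) := by
        have := Real.log_natCast_nonneg s
        positivity
      have a0' : 0 ≤ Real.sqrt s' * (1 + Real.log s') := by
        have := Real.log_natCast_nonneg s'
        positivity
      have a3 := mul_le_mul a1 a2 a0' (a0.trans a1)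
      rw [hP]
      nlinarith)
    have h3 : T4 N q s s' ≤ _ := h2
    refine h3.trans ?_
    rw [← mul_assoc]
    refine mul_le_mul_of_nonneg_right ?_ ?_
    · rw [one_div, one_div, one_div, ← mul_inv]
      exact inv_anti₀ (by positivity) (mul_le_mul hsr hsr' hRpos'.le (by linarith))
    · exact Finset.sum_nonneg fun χ _ => Finset.sum_nonneg fun χ' _ => by positivity
  have h2 : ∑ s ∈ PR R, ∑ s' ∈ (PR R').filter (fun s' => s' ≠ s),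
        ∑ χ ∈ nc s, ∑ χ' ∈ nc s',
        (4 * ((P / N) * ∑ y ∈ Icc 1 N, ‖SL (fun n => χ n * χ' n) y‖ +
          P * ‖SL (fun n => χ n * χ' n) N‖)) ≤ 8 * P * B := by
    have e1 : ∑ s ∈ PR R, ∑ s' ∈ (PR R').filter (fun s' => s' ≠ s),
        ∑ χ ∈ nc s, ∑ χ' ∈ nc s',
        (4 * ((P / N) * ∑ y ∈ Icc 1 N, ‖SL (fun n => χ n * χ' n) y‖ +
          P * ‖SL (fun n => χ n * χ' n) N‖)) =
        4 * ((P / N) * ∑ y ∈ Icc 1 N, ∑ s ∈ PR R, ∑ s' ∈ (PR R').filter (fun s' => s' ≠ s),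
          ∑ χ ∈ nc s, ∑ χ' ∈ nc s', ‖SL (fun n => χ n * χ' n) y‖ +
        P * ∑ s ∈ PR R, ∑ s' ∈ (PR R').filter (fun s' => s' ≠ s),
          ∑ χ ∈ nc s, ∑ χ' ∈ nc s', ‖SL (fun n => χ n * χ' n) N‖) := by
      simp only [Finset.sum_add_distrib, ← Finset.mul_sum]
      congr 3
      conv_rhs => rw [Finset.sum_comm]
      refine Finset.sum_congr rfl fun s _ => ?_
      conv_rhs => rw [Finset.sum_comm]
      refine Finset.sum_congr rfl fun s' _ => ?_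
      conv_rhs => rw [Finset.sum_comm]
      refine Finset.sum_congr rfl fun χ _ => ?_
      exact Finset.sum_comm
    rw [e1]
    have e2 : ∑ y ∈ Icc 1 N, ∑ s ∈ PR R, ∑ s' ∈ (PR R').filter (fun s' => s' ≠ s),
          ∑ χ ∈ nc s, ∑ χ' ∈ nc s', ‖SL (fun n => χ n * χ' n) y‖ ≤ N * B := by
      calc _ ≤ ∑ y ∈ Icc 1 N, B := Finset.sum_le_sum fun y hy => hB y (mem_Icc.1 hy).2
        _ = N * B := by simp
    have e3 := hB N le_rfl
    calc _ ≤ 4 * ((P / N) * (N * B) + P * B) := by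
          gcongr
      _ = 8 * P * B := by
          field_simp
          ring
  have h3 := log_le (δ / 4) (by linarith) N R hR1 hRN
  have h3' := log_le (δ / 4) (by linarith) N R' hR1' hRN'
  have h4 : Real.sqrt (2 * R) = Real.sqrt 2 * Real.sqrt R := Real.sqrt_mul (by norm_num) _
  have h4' : Real.sqrt (2 * R') = Real.sqrt 2 * Real.sqrt R' := Real.sqrt_mul (by norm_num) _
  have h4'' : Real.sqrt ((R : ℝ) * R') = Real.sqrt R * Real.sqrt R' :=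
    Real.sqrt_mul hRpos.le _
  have hsq : Real.sqrt R * Real.sqrt R = R := Real.mul_self_sqrt hRpos.le
  have hsqpos : 0 < Real.sqrt R := Real.sqrt_pos.2 hRpos
  have hsq' : Real.sqrt R' * Real.sqrt R' = R' := Real.mul_self_sqrt hRpos'.le
  have hsqpos' : 0 < Real.sqrt R' := Real.sqrt_pos.2 hRpos'
  have h22 : Real.sqrt 2 * Real.sqrt 2 = 2 := Real.mul_self_sqrt (by norm_num)
  have h5 : (N : ℝ) ^ (δ / 2) * ((N : ℝ) ^ (δ / 4) * (N : ℝ) ^ (δ / 4)) = (N : ℝ) ^ δ := by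
    rw [← Real.rpow_add hNpos, ← Real.rpow_add hNpos]
    congr 1
    ring
  have hPle : P ≤ 128 * ((Real.sqrt (2 * R) * ((2 + 1 / (δ / 4)) * (N : ℝ) ^ (δ / 4))) *
    (Real.sqrt (2 * R') * ((2 + 1 / (δ / 4)) * (N : ℝ) ^ (δ / 4)))) := by
    rw [hP]
    gcongr
  have hB0 : 0 ≤ B := by
    rw [hBdef]
    positivity
  calc ∑ s ∈ PR R, ∑ s' ∈ (PR R').filter (fun s' => s' ≠ s), T4 N q s s'
      ≤ (1 / ((R : ℝ) * R')) * (8 * P * B) :=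
        h1.trans (mul_le_mul_of_nonneg_left h2 (by positivity))
    _ ≤ (1 / ((R : ℝ) * R')) * (8 * (128 * ((Real.sqrt (2 * R) *
          ((2 + 1 / (δ / 4)) * (N : ℝ) ^ (δ / 4))) *
          (Real.sqrt (2 * R') * ((2 + 1 / (δ / 4)) * (N : ℝ) ^ (δ / 4))))) * B) := by
        gcongr
    _ = 8 * C₁ * (128 * ((Real.sqrt 2 * Real.sqrt 2) * (2 + 1 / (δ / 4)) ^ 2)) *
          ((N : ℝ) ^ (δ / 2) * ((N : ℝ) ^ (δ / 4) * (N : ℝ) ^ (δ / 4))) *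
          ((1 / ((R : ℝ) * R')) * (Real.sqrt R * Real.sqrt R') *
            (N + (N : ℝ) ^ ((9 : ℝ) / 10) * (R * R'))) := by
        rw [hBdef, h4, h4']
        ring
    _ = 8 * C₁ * (128 * (2 * (2 + 1 / (δ / 4)) ^ 2)) * (N : ℝ) ^ δ *
          (N / Real.sqrt (R * R') + (N : ℝ) ^ ((9 : ℝ) / 10) * Real.sqrt (R * R')) := by
        rw [h5, h22, h4'']
        congr 1
        generalize Real.sqrt (R : ℝ) = r at hsq hsqpos ⊢
        generalize Real.sqrt (R' : ℝ) = r' at hsq' hsqpos' ⊢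
        rw [← hsq, ← hsq']
        field_simp

end

end Pool.Agent.M848
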