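import Pool.Agent.Lib.MP_848d44_nt.G.Base

/-!
# The class sum over the multiples of a prime (module DEC)
-/

set_option autoImplicit false

namespace Pool.Agent.M848

open Finset
open scoped ArithmeticFunction ComplexConjugate

noncomputable section

namespace DecAux

/-- the indicator of the multiples of `s` by characters -/
theorem dv_char (q s n h : ℕ) (hs : s.Prime) (hsq : ¬ s ∣ q) (hh : 1 ≤ h)
    (hhs : h < s) (hns : n.Coprime s) (σ : ℤ) (hσ : σ = 1 ∨ σ = -1) :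
    ((dv s ((n : ℤ) + σ * (h * q)) : ℝ) : ℂ) =
      1 / ((s : ℂ) - 1) + (1 / ((s : ℂ) - 1)) * ∑ χ ∈ nc s,
        χ n * (conj (χ (Off1Aux.tt s 1 σ * q)) * conj (χ h)) := by
  have hsd : 1 ≤ s * 1 := by rw [mul_one]; exact hs.one_lt.le
  set v : ℕ := Off1Aux.tt s 1 σ * q * h with hv
  have hvs : v.Coprime s := Off1Aux.v_coprime s 1 q h hs le_rfl hsq hh hhs σ
  have o1 := nc_orth hs n v hns hvs
  have d1 := Off1Aux.dvd_iff s 1 q h n s (by rw [mul_one]) hsd σ hσ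
  rw [← hv] at d1
  have hs1 : (s : ℂ) - 1 ≠ 0 := by
    have : (s : ℂ) ≠ 1 := by exact_mod_cast hs.one_lt.ne'
    exact sub_ne_zero.mpr this
  have e1 : ∑ χ ∈ nc s, χ n * (conj (χ (Off1Aux.tt s 1 σ * q)) * conj (χ h))
      = ∑ χ ∈ nc s, χ n * conj (χ v) := by
    apply Finset.sum_congr rfl
    intro χ hχ
    rw [hv, nc_mul hχ (Off1Aux.tt s 1 σ * q) h, map_mul]
  rw [e1, o1]
  unfold dv
  by_cases c1 : n % s = v % s
  · rw [if_pos c1, if_pos (d1.mpr c1)]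
    push_cast
    field_simp
    ring
  · have c1' : ¬ ((s : ℤ) ∣ (n : ℤ) + σ * (h * q)) := fun hh => c1 (d1.mp hh)
    rw [if_neg c1, if_neg c1']
    push_cast
    field_simp
    ring

/-- one sign -/
theorem one_sign (w : ℤ → ℝ) (N q s n : ℕ) (hs : s.Prime) (hsq : ¬ s ∣ q) (hH : N / q < s)
    (hns : n.Coprime s) (σ : ℤ) (hσ : σ = 1 ∨ σ = -1) :
    ((∑ h ∈ Icc 1 (N / q), w ((n : ℤ) + σ * (h * q)) * dv s ((n : ℤ) + σ * (h * q)) : ℝ) : ℂ) =
      (1 / ((s : ℂ) - 1)) * ((∑ h ∈ Icc 1 (N / q), w ((n : ℤ) + σ * (h * q)) : ℝ) : ℂ) +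
      (1 / ((s : ℂ) - 1)) * ∑ χ ∈ nc s,
        χ n * (conj (χ (Off1Aux.tt s 1 σ * q)) * ker w q (N / q) χ σ n) := by
  have e1 : ∑ χ ∈ nc s, χ n * (conj (χ (Off1Aux.tt s 1 σ * q)) * ker w q (N / q) χ σ n)
      = ∑ h ∈ Icc 1 (N / q), ((w ((n : ℤ) + σ * (h * q)) : ℝ) : ℂ) *
        ∑ χ ∈ nc s, χ n * (conj (χ (Off1Aux.tt s 1 σ * q)) * conj (χ h)) := by
    simp only [Finset.mul_sum]
    rw [Finset.sum_comm]
    apply Finset.sum_congr rfl
    intro χ _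
    unfold ker
    rw [Finset.mul_sum, Finset.mul_sum]
    apply Finset.sum_congr rfl
    intro h _
    ring
  rw [e1, Complex.ofReal_sum, Complex.ofReal_sum, Finset.mul_sum, Finset.mul_sum,
    ← Finset.sum_add_distrib]
  apply Finset.sum_congr rfl
  intro h hh
  rw [Finset.mem_Icc] at hh
  rw [Complex.ofReal_mul, dv_char q s n h hs hsq hh.1 (by omega) hns σ hσ]
  ring

end DecAux

open DecAux

/-- DEC. The class sum over the multiples of `s` in terms of characters. -/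
theorem dec_gen (w : ℤ → ℝ) (N q s : ℕ) (hq : 1 ≤ q) (hs : s.Prime) (hsq : ¬ s ∣ q)
    (hH : N / q < s) (hw : ∀ m : ℤ, (m ≤ 0 ∨ (N : ℤ) ≤ m) → w m = 0) (n : ℕ) (hn : n ∈ Icc 1 N)
    (hns : n.Coprime s) :
    ((cs (fun m => w m * dv s m) N q (n % q) : ℝ) : ℂ) =
      (((1 / ((s : ℝ) - 1)) * (cs w N q (n % q) - w n) : ℝ) : ℂ) + YC w N q s n := by
  have hs1 : (s : ℂ) - 1 ≠ 0 := by
    have : (s : ℂ) ≠ 1 := by exact_mod_cast hs.one_lt.ne'
    exact sub_ne_zero.mpr this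
  have hdn : dv s (n : ℤ) = 0 := by
    unfold dv
    rw [if_neg]
    intro h1
    have h2 : s ∣ n := by exact_mod_cast h1
    exact (Nat.Prime.coprime_iff_not_dvd hs).mp (Nat.coprime_comm.mp hns) h2
  have g1 := GeqAux.main (fun m => w m * dv s m) N q hq (fun m hm => by
    show w m * dv s m = 0
    rw [hw m hm, zero_mul]) n hn
  have g2 := GeqAux.main w N q hq hw n hn
  have c1 := one_sign w N q s n hs hsq hH hns 1 (Or.inl rfl)
  have c2 := one_sign w N q s n hs hsq hH hns (-1) (Or.inr rfl)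
  have f1 : ∀ F : ℤ → ℝ, ∑ h ∈ Icc 1 (N / q), (F ((n : ℤ) + h * q) + F ((n : ℤ) - h * q)) =
      ∑ h ∈ Icc 1 (N / q), F ((n : ℤ) + 1 * (h * q)) +
        ∑ h ∈ Icc 1 (N / q), F ((n : ℤ) + (-1) * (h * q)) := by
    intro F
    rw [Finset.sum_add_distrib]
    congr 1
    · exact Finset.sum_congr rfl fun h _ => by rw [one_mul]
    · exact Finset.sum_congr rfl fun h _ => by rw [neg_one_mul, sub_eq_add_neg]
  have g1' : cs (fun m => w m * dv s m) N q (n % q) =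
      ∑ h ∈ Icc 1 (N / q), w ((n : ℤ) + 1 * (h * q)) * dv s ((n : ℤ) + 1 * (h * q)) +
      ∑ h ∈ Icc 1 (N / q), w ((n : ℤ) + (-1) * (h * q)) * dv s ((n : ℤ) + (-1) * (h * q)) := by
    refine g1.trans ?_
    rw [f1 (fun m => w m * dv s m)]
    show w (n : ℤ) * dv s (n : ℤ) + _ = _
    rw [hdn, mul_zero, zero_add]
  have g2' : cs w N q (n % q) - w n = ∑ h ∈ Icc 1 (N / q), w ((n : ℤ) + 1 * (h * q)) +
      ∑ h ∈ Icc 1 (N / q), w ((n : ℤ) + (-1) * (h * q)) := by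
    have g3 : cs w N q (n % q) = w n + ∑ h ∈ Icc 1 (N / q),
        (w ((n : ℤ) + h * q) + w ((n : ℤ) - h * q)) := g2
    rw [g3, f1 w]
    ring
  rw [g1', g2', Complex.ofReal_add, c1, c2]
  unfold YC
  have e1 : ∑ χ ∈ nc s, χ n *
      (conj (χ (Off1Aux.tt s 1 1 * q)) * ker w q (N / q) χ 1 n +
        conj (χ (Off1Aux.tt s 1 (-1) * q)) * ker w q (N / q) χ (-1) n) =
      ∑ χ ∈ nc s, χ n * (conj (χ (Off1Aux.tt s 1 1 * q)) * ker w q (N / q) χ 1 n) +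
      ∑ χ ∈ nc s, χ n * (conj (χ (Off1Aux.tt s 1 (-1) * q)) * ker w q (N / q) χ (-1) n) := by
    rw [← Finset.sum_add_distrib]
    exact Finset.sum_congr rfl fun χ _ => by ring
  rw [e1]
  push_cast
  ring

end

end Pool.Agent.M848
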