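import Pool.Agent.Lib.MP_848d44_nt.G.OffD

/-!
# MP_848d44_nt, two-sided omega theorem: the diagonal terms
-/

set_option autoImplicit false

namespace Pool.Agent.M848

open Finset
open scoped ArithmeticFunction ComplexConjugate

noncomputable section

namespace GB

theorem cs_red_abs (F : ℤ → ℝ) (J q : ℕ) (hJ : 1 ≤ J) (hq : 1 ≤ q)
    (hF : ∀ m : ℤ, (m ≤ 0 ∨ ((2 * J * q : ℕ) : ℤ) ≤ m) → F m = 0) (a : ℕ) (ha : a < q)
    (B : ℝ) (hB : ∀ m, |F m| ≤ B) :
    |cs F (2 * J * q) q a| ≤ (4 * J + 1) * B := by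
  have hn : a + q ∈ Icc 1 (2 * J * q) := by
    rw [mem_Icc]
    constructor
    · omega
    · have : 2 * q ≤ 2 * J * q := Nat.mul_le_mul_right q (by omega)
      omega
  have h := cs_abs F (2 * J * q) q hq hF (a + q) hn B hB
  rw [Nat.add_mod_right, Nat.mod_eq_of_lt ha, div_NJ J q hq] at h
  push_cast at h
  calc _ ≤ _ := h
    _ = _ := by ring

/-- the linear sum -/
theorem eU (J q s : ℕ) (hJ : 1 ≤ J) (hq : 1 ≤ q) (hs : s.Prime) (hsq : ¬ s ∣ q)
    (hH : 2 * J < s) (hsN : s ≤ 2 * J * q) :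
    |∑ a ∈ red q, EE (2 * J * q) q a *
      cs (fun m => tent (2 * J * q) m * dv s m) (2 * J * q) q a| ≤
      T1 (2 * J * q) q s + 6 * ((2 * J * q : ℕ) : ℝ) / s +
        12 * (2 * J + 1) * Real.log ((2 * J * q : ℕ) : ℝ) ^ 2 +
        6 * q.divisors.card * mea (2 * J * q) q := by
  set N := 2 * J * q with hN
  have hN1 : 1 ≤ N := by rw [hN]; exact Nat.mul_pos (by omega) hq
  have hqN : q ≤ N := by rw [hN]; exact Nat.le_mul_of_pos_left q (by omega)
  have hs0 : (0 : ℝ) < s := by exact_mod_cast hs.pos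
  set U : ℕ → ℝ := fun a => cs (fun m => tent N m * dv s m) N q a with hU
  set c : ℝ := (1 / (s : ℝ)) * (J / 2) with hc
  have hB0 : (0 : ℝ) ≤ 2 * J + 1 := by positivity
  -- a-side
  have ha := asd_one (tent N) N q s hN1 hq hs hsq (tent_nonneg N)
    (fun m => (tent_le N m).trans (by norm_num)) (tent_zero N) (tent_lip N)
  have hct : ∑ a ∈ red q, cs (tent N) N q a = q.totient * (J / 2) := by
    have h1 : ∀ a ∈ red q, cs (tent N) N q a = (J : ℝ) / 2 := by
      intro a ha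
      rw [red, mem_filter, mem_range] at ha
      exact cs_tent J q hJ hq a ha.1
    rw [sum_congr rfl h1, sum_const, nsmul_eq_mul, card_red]
  rw [hct] at ha
  -- psi-side
  set f : ℕ → ℂ := fun n => ((cs (ws N s) N q (n % q) : ℝ) : ℂ) with hf
  set g : ℕ → ℂ := fun n => ((ZR J N s n : ℝ) : ℂ) + YC (tent N) N q s n with hg
  have htr := transfer N q s hq hs.pos hN1
    (by
      calc q * s ≤ N * N := Nat.mul_le_mul hqN hsN
        _ = N * N * 1 := by ring
        _ ≤ N * N * N := Nat.mul_le_mul_left _ hN1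
        _ = N ^ 3 := by ring) f g (2 * J + 1)
    (fun n hn hcc => by
      have hcs : n.Coprime s := Nat.Coprime.coprime_dvd_right ⟨q, by ring⟩ hcc
      simp only [hf, hg]
      rw [ws_dec J q s hJ hq hs hsq hH n hn hcs])
    (fun n hn => by
      simp only [hf]
      rw [Complex.norm_real, Real.norm_eq_abs]
      exact X_abs J q s hq hs n hn)
    (fun n hn => W_abs J q s hJ hq hs hsq hH n hn)
  have h1 : ‖∑ n ∈ Icc 1 N, ((Λ n : ℝ) : ℂ) * g n‖ ≤ T1 N q s + 6 * (N : ℝ) / s := by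
    have e : ∑ n ∈ Icc 1 N, ((Λ n : ℝ) : ℂ) * g n =
        ∑ n ∈ Icc 1 N, ((Λ n : ℝ) : ℂ) * YC (tent N) N q s n +
        ∑ n ∈ Icc 1 N, ((Λ n : ℝ) : ℂ) * ((ZR J N s n : ℝ) : ℂ) := by
      rw [← sum_add_distrib]
      refine sum_congr rfl fun n _ => ?_
      simp only [hg]
      ring
    rw [e]
    refine (norm_add_le _ _).trans (add_le_add le_rfl ?_)
    have h1 : ∀ n ∈ Icc 1 N, ‖((Λ n : ℝ) : ℂ) * ((ZR J N s n : ℝ) : ℂ)‖ ≤ Λ n * (1 / s) := by
      intro n _
      rw [norm_mul, Complex.norm_real, Complex.norm_real,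
        Real.norm_of_nonneg (Lam_nonneg n), Real.norm_eq_abs]
      exact mul_le_mul_of_nonneg_left (ZR_abs J N s hs hH n) (Lam_nonneg n)
    refine (norm_sum_le _ _).trans ((sum_le_sum h1).trans ?_)
    rw [← sum_mul]
    calc (∑ n ∈ Icc 1 N, (Λ n : ℝ)) * (1 / s) ≤ (6 * N) * (1 / s) := by
          have := Off1Aux.psi_bound N
          gcongr
      _ = 6 * (N : ℝ) / s := by ring
  have e1 : ((∑ n ∈ (Icc 1 N).filter (fun n => n.Coprime q), Λ n * cs (ws N s) N q (n % q) : ℝ) :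
      ℂ) = ∑ n ∈ (Icc 1 N).filter (fun n => n.Coprime q), ((Λ n : ℝ) : ℂ) * f n := by
    push_cast
    rfl
  have h2 : |∑ n ∈ (Icc 1 N).filter (fun n => n.Coprime q), Λ n * cs (ws N s) N q (n % q)| ≤
      T1 N q s + 6 * (N : ℝ) / s + 12 * (2 * J + 1) * Real.log N ^ 2 := by
    rw [← Real.norm_eq_abs, ← Complex.norm_real, e1]
    have h6 := norm_sub_norm_le (∑ n ∈ (Icc 1 N).filter (fun n => n.Coprime q),
      ((Λ n : ℝ) : ℂ) * f n) (∑ n ∈ Icc 1 N, ((Λ n : ℝ) : ℂ) * g n)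
    linarith
  -- combination
  have hφ : (q.totient : ℝ) ≠ 0 := by
    have : 0 < q.totient := Nat.totient_pos.2 (by omega)
    exact_mod_cast this.ne'
  have hmean : mea N q * q.totient = ∑ n ∈ (Icc 1 N).filter (fun n => n.Coprime q), (Λ n : ℝ) := by
    rw [mea, div_mul_cancel₀ _ hφ]
  have e3 : ∑ a ∈ red q, EE N q a * U a =
      ∑ n ∈ (Icc 1 N).filter (fun n => n.Coprime q), Λ n * cs (ws N s) N q (n % q) -
        mea N q * (∑ a ∈ red q, U a - 1 / (s : ℝ) * (q.totient * (J / 2))) := by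
    rw [EE_sum N q hq U]
    have h3 : ∑ n ∈ (Icc 1 N).filter (fun n => n.Coprime q), Λ n * cs (ws N s) N q (n % q) =
        ∑ n ∈ (Icc 1 N).filter (fun n => n.Coprime q), Λ n * U (n % q) -
        c * ∑ n ∈ (Icc 1 N).filter (fun n => n.Coprime q), (Λ n : ℝ) := by
      rw [mul_sum, ← sum_sub_distrib]
      refine sum_congr rfl fun n _ => ?_
      rw [cs_ws, cs_tent J q hJ hq (n % q) (Nat.mod_lt _ (by omega))]
      ring
    rw [h3, ← hmean]
    ring
  rw [e3]
  refine (abs_sub _ _).trans ?_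
  rw [abs_mul, abs_of_nonneg (mea_nonneg N q)]
  have h4 := mul_le_mul_of_nonneg_left ha (mea_nonneg N q)
  calc _ ≤ (T1 N q s + 6 * (N : ℝ) / s + 12 * (2 * J + 1) * Real.log N ^ 2) +
        mea N q * (6 * q.divisors.card) := add_le_add h2 h4
    _ = _ := by ring

/-- the sum with the squares of the tent -/
theorem eV (J q s : ℕ) (hJ : 1 ≤ J) (hq : 1 ≤ q) (hs : s.Prime) (hsq : ¬ s ∣ q)
    (hH : 2 * J < s) (hsN : s ≤ 2 * J * q) :
    |∑ a ∈ red q, EE (2 * J * q) q a *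
      cs (fun m => tent2 (2 * J * q) m * dv s m) (2 * J * q) q a| ≤
      T3 (2 * J * q) q s + 39 * ((2 * J * q : ℕ) : ℝ) / s +
        12 * (2 * J + 1) * Real.log ((2 * J * q : ℕ) : ℝ) ^ 2 +
        6 * q.divisors.card * mea (2 * J * q) q := by
  set N := 2 * J * q with hN
  have hN1 : 1 ≤ N := by rw [hN]; exact Nat.mul_pos (by omega) hq
  have hqN : q ≤ N := by rw [hN]; exact Nat.le_mul_of_pos_left q (by omega)
  have hs0 : (0 : ℝ) < s := by exact_mod_cast hs.pos
  obtain ⟨hs1, hs2⟩ := s_sub s hs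
  have hinv := inv_sub s hs
  have hs1' : (1 : ℝ) ≤ (s : ℝ) - 1 := by
    have : (2 : ℝ) ≤ s := by exact_mod_cast hs.two_le
    linarith
  have hinv1 : 1 / ((s : ℝ) - 1) ≤ 1 := by rw [div_le_one hs1]; exact hs1'
  have hinv0 : 0 ≤ 1 / ((s : ℝ) - 1) := by positivity
  have hJs : 2 * (J : ℝ) ≤ s := by exact_mod_cast hH.le
  have hJ1 : (1 : ℝ) ≤ J := by exact_mod_cast hJ
  set V : ℕ → ℝ := fun a => cs (fun m => tent2 N m * dv s m) N q a with hV
  set Bf : ℕ → ℝ := fun a => cs (tent2 N) N q a with hBf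
  obtain ⟨B₀, hB₀⟩ := cs_tent2 J q hJ hq
  have ha := asd_one (tent2 N) N q s hN1 hq hs hsq (tent2_nonneg N)
    (fun m => (tent2_le N m).trans (by norm_num)) (tent2_zero N) (tent2_lip N)
  have hVabs : ∀ n ∈ Icc 1 N, |V (n % q)| ≤ J + 1 / 4 := by
    intro n hn
    have h := cs_abs (fun m => tent2 N m * dv s m) N q hq
      (fun m hm => by simp only [tent2_zero N m hm, zero_mul]) n hn (1 / 4)
      (fun m => by
        have h1 := tent2_nonneg N m
        have h2 := tent2_le N m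
        obtain ⟨h3, h4⟩ := dv_abs s m
        rw [abs_of_nonneg (mul_nonneg h1 h3)]
        nlinarith)
    rw [div_NJ J q hq] at h
    push_cast at h
    linarith
  have hBabs : ∀ n ∈ Icc 1 N, |Bf (n % q)| ≤ J + 1 / 4 := by
    intro n hn
    have h := cs_abs (tent2 N) N q hq (fun m hm => tent2_zero N m hm) n hn (1 / 4)
      (fun m => by rw [abs_of_nonneg (tent2_nonneg N m)]; exact tent2_le N m)
    rw [div_NJ J q hq] at h
    push_cast at h
    linarith
  have hBred : ∀ a ∈ red q, |Bf a| ≤ J + 1 / 4 := by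
    intro a ha
    rw [red, mem_filter, mem_range] at ha
    have h := cs_red_abs (tent2 N) J q hJ hq (fun m hm => tent2_zero N m hm) a ha.1 (1 / 4)
      (fun m => by rw [abs_of_nonneg (tent2_nonneg N m)]; exact tent2_le N m)
    linarith
  set r : ℕ → ℝ := fun n => V (n % q) - (1 / ((s : ℝ) - 1)) * (Bf (n % q) - tent2 N n) with hr
  set f : ℕ → ℂ := fun n => ((r n : ℝ) : ℂ) with hf
  set g : ℕ → ℂ := fun n => YC (tent2 N) N q s n with hg
  have hfg : ∀ n ∈ Icc 1 N, n.Coprime s → f n = g n := by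
    intro n hn hc
    have h := dec_gen (tent2 N) N q s hq hs hsq (by rw [hN, div_NJ J q hq]; exact hH)
      (fun m hm => tent2_zero N m hm) n hn hc
    simp only [hf, hg, hr]
    push_cast
    push_cast at h
    simp only [hV, hBf]
    rw [h]
    ring
  have hfabs : ∀ n ∈ Icc 1 N, ‖f n‖ ≤ 2 * J + 1 := by
    intro n hn
    simp only [hf, hr]
    rw [Complex.norm_real, Real.norm_eq_abs]
    refine (abs_sub _ _).trans ?_
    rw [abs_mul, abs_of_nonneg hinv0]
    have h1 := hVabs n hn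
    have h2 := hBabs n hn
    have h3 : |Bf (n % q) - tent2 N n| ≤ J + 1 / 4 + 1 / 4 := by
      refine (abs_sub _ _).trans ?_
      have h4 : |tent2 N (n : ℤ)| ≤ 1 / 4 := by
        rw [abs_of_nonneg (tent2_nonneg N n)]; exact tent2_le N n
      linarith
    have h5 : 1 / ((s : ℝ) - 1) * |Bf (n % q) - tent2 N n| ≤ 1 * (J + 1 / 4 + 1 / 4) :=
      mul_le_mul hinv1 h3 (abs_nonneg _) zero_le_one
    linarith
  have htr := transfer N q s hq hs.pos hN1
    (by
      calc q * s ≤ N * N := Nat.mul_le_mul hqN hsN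
        _ = N * N * 1 := by ring
        _ ≤ N * N * N := Nat.mul_le_mul_left _ hN1
        _ = N ^ 3 := by ring) f g (2 * J + 1)
    (fun n hn hcc => hfg n hn (Nat.Coprime.coprime_dvd_right ⟨q, by ring⟩ hcc)) hfabs
    (fun n hn => by
      by_cases hc : n.Coprime s
      · rw [← hfg n hn hc]; exact hfabs n hn
      · simp only [hg]
        rw [YC_zero _ _ _ s n hs hc, norm_zero]
        positivity)
  have e1 : ((∑ n ∈ (Icc 1 N).filter (fun n => n.Coprime q), Λ n * r n : ℝ) : ℂ) =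
      ∑ n ∈ (Icc 1 N).filter (fun n => n.Coprime q), ((Λ n : ℝ) : ℂ) * f n := by
    push_cast
    rfl
  have h2 : |∑ n ∈ (Icc 1 N).filter (fun n => n.Coprime q), Λ n * r n| ≤
      T3 N q s + 12 * (2 * J + 1) * Real.log N ^ 2 := by
    rw [← Real.norm_eq_abs, ← Complex.norm_real, e1]
    have h6 := norm_sub_norm_le (∑ n ∈ (Icc 1 N).filter (fun n => n.Coprime q),
      ((Λ n : ℝ) : ℂ) * f n) (∑ n ∈ Icc 1 N, ((Λ n : ℝ) : ℂ) * g n)
    have h7 : ‖∑ n ∈ Icc 1 N, ((Λ n : ℝ) : ℂ) * g n‖ = T3 N q s := rfl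
    linarith
  -- the sum with B
  have hEB : |∑ a ∈ red q, EE N q a * Bf a| ≤ 12 * N := by
    have e : ∑ a ∈ red q, EE N q a * Bf a = ∑ a ∈ red q, EE N q a * (Bf a - B₀) := by
      have h3 := EE_const N q hq B₀
      have h4 : ∑ a ∈ red q, EE N q a * (Bf a - B₀) =
          ∑ a ∈ red q, EE N q a * Bf a - ∑ a ∈ red q, EE N q a * B₀ := by
        rw [← sum_sub_distrib]
        refine sum_congr rfl fun a _ => ?_
        ring
      rw [h4, h3, sub_zero]
    rw [e]
    refine (abs_sum_le_sum_abs _ _).trans ((sum_le_sum fun a ha => ?_).trans (EE_abs N q hq))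
    rw [abs_mul]
    rw [red, mem_filter, mem_range] at ha
    have := hB₀ a ha.1
    calc |EE N q a| * |Bf a - B₀| ≤ |EE N q a| * 1 :=
          mul_le_mul_of_nonneg_left this (abs_nonneg _)
      _ = |EE N q a| := mul_one _
  -- the sum of B over the reduced classes
  have hsB : |∑ a ∈ red q, Bf a| ≤ q.totient * (J + 1 / 4) := by
    refine (abs_sum_le_sum_abs _ _).trans ((sum_le_sum hBred).trans ?_)
    rw [sum_const, nsmul_eq_mul, card_red]
  have hm0 := mea_nonneg N q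
  have hmsB : |(1 / ((s : ℝ) - 1) - 1 / s) * (mea N q * ∑ a ∈ red q, Bf a)| ≤ 12 * N / s := by
    have h3 : 0 ≤ 1 / ((s : ℝ) - 1) - 1 / s := by
      rw [sub_nonneg]
      exact one_div_le_one_div_of_le hs1 (by linarith)
    rw [abs_mul, abs_mul, abs_of_nonneg h3, abs_of_nonneg hm0]
    have h4 : mea N q * |∑ a ∈ red q, Bf a| ≤ 6 * N * (J + 1 / 4) := by
      calc mea N q * |∑ a ∈ red q, Bf a| ≤ mea N q * (q.totient * (J + 1 / 4)) :=
            mul_le_mul_of_nonneg_left hsB hm0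
        _ = (mea N q * q.totient) * (J + 1 / 4) := by ring
        _ ≤ (6 * N) * (J + 1 / 4) := by
            have := mea_mul N q hq
            gcongr
    have e : 1 / ((s : ℝ) - 1) - 1 / s = 1 / ((s : ℝ) - 1) * (1 / s) := by
      field_simp
      ring
    rw [e]
    calc 1 / ((s : ℝ) - 1) * (1 / s) * (mea N q * |∑ a ∈ red q, Bf a|)
        ≤ (2 / s) * (1 / s) * (6 * N * (J + 1 / 4)) := by gcongr
      _ ≤ (2 / s) * (1 / s) * (6 * N * s) := by
          gcongr
          linarith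
      _ = 12 * N / s := by
          field_simp
          ring
  have ht2 : |∑ n ∈ (Icc 1 N).filter (fun n => n.Coprime q), Λ n * tent2 N n| ≤ 3 / 2 * N := by
    refine (abs_sum_le_sum_abs _ _).trans ?_
    have h3 : ∀ n ∈ (Icc 1 N).filter (fun n => n.Coprime q), |Λ n * tent2 N n| ≤ Λ n * (1 / 4) := by
      intro n _
      rw [abs_mul, abs_of_nonneg (Lam_nonneg n), abs_of_nonneg (tent2_nonneg N n)]
      exact mul_le_mul_of_nonneg_left (tent2_le N n) (Lam_nonneg n)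
    refine (sum_le_sum h3).trans ?_
    rw [← sum_mul]
    have := psi_cop N q
    linarith
  -- combination
  have e3 : ∑ a ∈ red q, EE N q a * V a =
      ∑ n ∈ (Icc 1 N).filter (fun n => n.Coprime q), Λ n * r n +
      (1 / ((s : ℝ) - 1)) * ∑ a ∈ red q, EE N q a * Bf a +
      (1 / ((s : ℝ) - 1) - 1 / s) * (mea N q * ∑ a ∈ red q, Bf a) -
      (1 / ((s : ℝ) - 1)) * ∑ n ∈ (Icc 1 N).filter (fun n => n.Coprime q), Λ n * tent2 N n -
      mea N q * (∑ a ∈ red q, V a - 1 / (s : ℝ) * ∑ a ∈ red q, Bf a) := by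
    rw [EE_sum N q hq V, EE_sum N q hq Bf]
    have h3 : ∑ n ∈ (Icc 1 N).filter (fun n => n.Coprime q), Λ n * V (n % q) =
        ∑ n ∈ (Icc 1 N).filter (fun n => n.Coprime q), Λ n * r n +
        (1 / ((s : ℝ) - 1)) * ∑ n ∈ (Icc 1 N).filter (fun n => n.Coprime q), Λ n * Bf (n % q) -
        (1 / ((s : ℝ) - 1)) * ∑ n ∈ (Icc 1 N).filter (fun n => n.Coprime q), Λ n * tent2 N n := by
      rw [mul_sum, mul_sum, ← sum_add_distrib, ← sum_sub_distrib]
      refine sum_congr rfl fun n _ => ?_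
      simp only [hr]
      ring
    rw [h3]
    ring
  rw [e3]
  have b1 : |(1 / ((s : ℝ) - 1)) * ∑ a ∈ red q, EE N q a * Bf a| ≤ 24 * N / s := by
    rw [abs_mul, abs_of_nonneg hinv0]
    calc 1 / ((s : ℝ) - 1) * |∑ a ∈ red q, EE N q a * Bf a| ≤ (2 / s) * (12 * N) := by gcongr
      _ = 24 * N / s := by ring
  have b2 : |(1 / ((s : ℝ) - 1)) * ∑ n ∈ (Icc 1 N).filter (fun n => n.Coprime q),
      Λ n * tent2 N n| ≤ 3 * N / s := by
    rw [abs_mul, abs_of_nonneg hinv0]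
    calc 1 / ((s : ℝ) - 1) * |∑ n ∈ (Icc 1 N).filter (fun n => n.Coprime q), Λ n * tent2 N n|
        ≤ (2 / s) * (3 / 2 * N) := by gcongr
      _ = 3 * N / s := by ring
  have b3 : |mea N q * (∑ a ∈ red q, V a - 1 / (s : ℝ) * ∑ a ∈ red q, Bf a)| ≤
      6 * q.divisors.card * mea N q := by
    rw [abs_mul, abs_of_nonneg hm0]
    calc _ ≤ mea N q * (6 * q.divisors.card) := mul_le_mul_of_nonneg_left ha hm0
      _ = _ := by ring
  have e5 : (39 : ℝ) * N / s = 24 * N / s + 12 * N / s + 3 * N / s := by ring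
  rw [e5]
  refine (abs_sub _ _).trans ?_
  refine (add_le_add (abs_sub _ _) le_rfl).trans ?_
  refine (add_le_add (add_le_add ((abs_add_le _ _).trans (add_le_add (abs_add_le _ _) le_rfl))
    le_rfl) le_rfl).trans ?_
  linarith

theorem diag_bound (J q s : ℕ) (hJ : 1 ≤ J) (hq : 1 ≤ q) (hs : s.Prime) (hsq : ¬ s ∣ q)
    (hH : 2 * J < s) (hsN : s ≤ 2 * J * q) :
    |∑ a ∈ red q, EE (2 * J * q) q a * cs (ws (2 * J * q) s) (2 * J * q) q a ^ 2| ≤
      T3 (2 * J * q) q s + T1 (2 * J * q) q s + 45 * ((2 * J * q : ℕ) : ℝ) / s +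
        24 * (2 * J + 1) * Real.log ((2 * J * q : ℕ) : ℝ) ^ 2 +
        12 * q.divisors.card * mea (2 * J * q) q := by
  have h1 := eU J q s hJ hq hs hsq hH hsN
  have h2 := eV J q s hJ hq hs hsq hH hsN
  set N := 2 * J * q with hN
  have hs0 : (0 : ℝ) < s := by exact_mod_cast hs.pos
  have hJs : 2 * (J : ℝ) ≤ s := by exact_mod_cast hH.le
  have hJ0 : (0 : ℝ) ≤ J := Nat.cast_nonneg J
  set c : ℝ := (1 / (s : ℝ)) * (J / 2) with hc
  have hc0 : 0 ≤ 2 * c := by rw [hc]; positivity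
  have hc1 : 2 * c ≤ 1 := by
    rw [hc]
    have : 2 * (1 / (s : ℝ) * (J / 2)) = J / s := by ring
    rw [this, div_le_one hs0]
    linarith
  have e : ∑ a ∈ red q, EE N q a * cs (ws N s) N q a ^ 2 =
      ∑ a ∈ red q, EE N q a * cs (fun m => tent2 N m * dv s m) N q a -
      2 * c * ∑ a ∈ red q, EE N q a * cs (fun m => tent N m * dv s m) N q a +
      ∑ a ∈ red q, EE N q a * c ^ 2 := by
    rw [mul_sum, ← sum_sub_distrib, ← sum_add_distrib]
    refine sum_congr rfl fun a ha => ?_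
    rw [red, mem_filter, mem_range] at ha
    have h3 := cs_dv_sq N q s hq hs hsq (by rw [hN, div_NJ J q hq]; exact hH) a
    rw [← h3, cs_ws, hN, cs_tent J q hJ hq a ha.1]
    ring
  rw [e, EE_const N q (by omega) (c ^ 2), add_zero]
  refine (abs_sub _ _).trans ?_
  rw [abs_mul, abs_of_nonneg hc0]
  have h4 : 2 * c * |∑ a ∈ red q, EE N q a * cs (fun m => tent N m * dv s m) N q a| ≤
      1 * (T1 N q s + 6 * (N : ℝ) / s + 12 * (2 * J + 1) * Real.log N ^ 2 +
        6 * q.divisors.card * mea N q) :=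
    mul_le_mul hc1 h1 (abs_nonneg _) zero_le_one
  have e5 : (45 : ℝ) * N / s = 39 * N / s + 6 * N / s := by ring
  rw [e5]
  linarith

end GB

end

end Pool.Agent.M848
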