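import Pool.Agent.Lib.MP_848d44_nt.G.Basic

/-!
# MP_848d44_nt, two-sided omega theorem: error bounds for the choice of the parameters
-/

set_option autoImplicit false

namespace Pool.Agent.M848

open Finset
open scoped ArithmeticFunction ComplexConjugate

noncomputable section

namespace GB

/-- the trivial weight -/
def b1 : ℕ → ℝ := fun _ => 1

theorem lam_b1 (m : ℤ) : lam b1 1 m = 1 := by
  unfold lam b1
  have h : (Icc 1 1).filter (fun d : ℕ => (d : ℤ) ∣ m) = {1} := by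
    ext d
    simp only [mem_filter, mem_Icc, mem_singleton]
    constructor
    · rintro ⟨h, _⟩; omega
    · rintro rfl; simp
  rw [h, sum_singleton]

theorem fs_b1 (N s : ℕ) (m : ℤ) : fs b1 1 N s m = ws N s m := by
  unfold fs ws dv
  rw [lam_b1, mul_one]

theorem GG_b1 (N q : ℕ) (S : Finset ℕ) (a : ℕ) :
    GG b1 1 N q S a = ∑ s ∈ S, cs (ws N s) N q a := by
  unfold GG cs FF
  rw [sum_comm]
  refine sum_congr rfl fun s _ => sum_congr rfl fun m _ => ?_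
  rw [fs_b1]

theorem BB_b1 : BB b1 1 = 1 := by
  unfold BB b1
  simp

theorem QQ_b1 : QQ b1 1 = 1 := by
  unfold QQ b1
  simp

/-- a rough upper bound for `A` -/
theorem AA_upper (q j₀ j₁ : ℕ) : AA (SS q j₀ j₁) ≤ j₁ := by
  unfold AA
  refine (sum_SS_le q j₀ j₁ (fun s => 1 / (s : ℝ)) (fun j _ s _ => by positivity)).trans ?_
  have h1 : ∀ j ∈ Ico j₀ j₁, ∑ s ∈ PR (2 ^ j), 1 / (s : ℝ) ≤ 1 := by
    intro j _
    have h2 : ∀ s ∈ PR (2 ^ j), 1 / (s : ℝ) ≤ 1 / 2 ^ j := by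
      intro s hs
      rw [mem_PR] at hs
      have h3 : (2 : ℝ) ^ j ≤ s := by
        have : 2 ^ j ≤ s := hs.1.1.le
        exact_mod_cast this
      exact one_div_le_one_div_of_le (by positivity) h3
    refine (sum_le_sum h2).trans ?_
    rw [sum_const, nsmul_eq_mul]
    have h5 : ((PR (2 ^ j)).card : ℝ) ≤ (2 : ℝ) ^ j := by exact_mod_cast card_PR (2 ^ j)
    calc ((PR (2 ^ j)).card : ℝ) * (1 / 2 ^ j) ≤ 2 ^ j * (1 / 2 ^ j) := by gcongr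
      _ = 1 := by field_simp
  refine (sum_le_sum h1).trans ?_
  rw [sum_const, nsmul_eq_mul, Nat.card_Ico, mul_one]
  exact_mod_cast Nat.sub_le _ _

/-- summing a bound over the blocks -/
theorem sum_blocks_le (j₀ j₁ : ℕ) (f : ℕ → ℝ) (B : ℝ) (hB : 0 ≤ B)
    (h : ∀ j ∈ Ico j₀ j₁, f j ≤ B) : ∑ j ∈ Ico j₀ j₁, f j ≤ j₁ * B := by
  refine (sum_le_sum h).trans ?_
  rw [sum_const, nsmul_eq_mul, Nat.card_Ico]
  have : ((j₁ - j₀ : ℕ) : ℝ) ≤ j₁ := by exact_mod_cast Nat.sub_le _ _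
  gcongr

/-- the error terms of the quadratic sum -/
theorem err_bound (C C₂ C₃ : ℝ) (hC : 0 ≤ C) (hC₂ : 1 ≤ C₂) (hC₃ : 1 ≤ C₃)
    (N J j₀ j₁ : ℕ) (A X τ u m r v : ℝ) (t1 t2 t3 : ℕ → ℝ) (t4 : ℕ → ℕ → ℝ)
    (hu : 1 ≤ u) (hNm : (N : ℝ) = m ^ 6) (hm : 0 < m)
    (h56 : (N : ℝ) ^ ((5 : ℝ) / 6) = m ^ 5)
    (hNr : (N : ℝ) = r ^ 10) (hr : 0 < r) (h910 : (N : ℝ) ^ ((9 : ℝ) / 10) = r ^ 9)
    (hv1 : 1 ≤ v) (hvJ : 2 * (J : ℝ) = v ^ 2) (hJ1 : 1 ≤ J)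
    (hvm : v * u ^ 200 ≤ m) (hvr : v * u ^ 600 ≤ r)
    (hj₀ : v ^ 2 * u ^ 100 ≤ 2 ^ j₀) (hj₁ : (2 : ℝ) ^ j₁ ≤ v ^ 2 * u ^ 200)
    (hL : Real.log N ≤ C₃ * u) (hτ0 : 0 ≤ τ) (hτ : τ ≤ C₂ * u) (hX0 : 0 ≤ X)
    (hX : X ≤ 12 * v ^ 2 * (C₂ * u)) (hjj : (j₁ : ℝ) ≤ 2 * C₃ * u) (hA0 : 0 ≤ A) (hA : A ≤ j₁)
    (h1 : ∀ j ∈ Ico j₀ j₁, t1 j ≤ C * u *
      (N / Real.sqrt (2 ^ j) + (N : ℝ) ^ ((5 : ℝ) / 6) * Real.sqrt (2 ^ j)))
    (h2 : ∀ j ∈ Ico j₀ j₁, t2 j ≤ C * u *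
      (N / Real.sqrt (2 ^ j) + (N : ℝ) ^ ((5 : ℝ) / 6) * Real.sqrt (2 ^ j)))
    (h3 : ∀ j ∈ Ico j₀ j₁, t3 j ≤ C * u * ((2 * J : ℕ) * (N / 2 ^ j + (N : ℝ) ^ ((5 : ℝ) / 6))))
    (h4 : ∀ j ∈ Ico j₀ j₁, ∀ j' ∈ Ico j₀ j₁, t4 j j' ≤ C * u *
      (N / Real.sqrt (2 ^ j * 2 ^ j') + (N : ℝ) ^ ((9 : ℝ) / 10) * Real.sqrt (2 ^ j * 2 ^ j'))) :
    ∑ j ∈ Ico j₀ j₁, t3 j + ∑ j ∈ Ico j₀ j₁, t1 j +
      4 * A * (∑ j ∈ Ico j₀ j₁, t1 j + ∑ j ∈ Ico j₀ j₁, t2 j) +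
      ∑ j ∈ Ico j₀ j₁, ∑ j' ∈ Ico j₀ j₁, t4 j j' +
      2 ^ j₁ * (24 * (2 * J + 1) * Real.log N ^ 2 + 12 * τ * X) +
      (2 ^ j₁) ^ 2 * (12 * (2 * J + 1) ^ 2 * Real.log N ^ 2 + 12 * (4 * J + 1) * τ * X) ≤
      (8 * C * C₃ + 76 * C * C₃ ^ 2 + 100 * C₃ ^ 2 + 600 * C₂ ^ 2) * (N * v / u) := by
  have hu0 : 0 < u := by linarith
  have hv0 : 0 < v := by linarith
  have hN0 : (0 : ℝ) < N := by rw [hNm]; positivity
  have hlog0 : 0 ≤ Real.log N := Real.log_natCast_nonneg N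
  have hup : ∀ a b : ℕ, a ≤ b → u ^ a ≤ u ^ b := fun a b h => pow_le_pow_right₀ hu h
  have hu1 : ∀ a : ℕ, 1 ≤ u ^ a := fun a => one_le_pow₀ hu
  -- sizes of the blocks
  have g1 : ∀ j ∈ Ico j₀ j₁, v * u ^ 50 ≤ Real.sqrt (2 ^ j) := by
    intro j hj
    rw [mem_Ico] at hj
    apply Real.le_sqrt_of_sq_le
    calc (v * u ^ 50) ^ 2 = v ^ 2 * u ^ 100 := by ring
      _ ≤ 2 ^ j₀ := hj₀
      _ ≤ 2 ^ j := pow_le_pow_right₀ (by norm_num) hj.1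
  have g2 : ∀ j ∈ Ico j₀ j₁, Real.sqrt (2 ^ j) ≤ v * u ^ 100 := by
    intro j hj
    rw [mem_Ico] at hj
    rw [Real.sqrt_le_left (by positivity)]
    calc (2 : ℝ) ^ j ≤ 2 ^ j₁ := pow_le_pow_right₀ (by norm_num) hj.2.le
      _ ≤ v ^ 2 * u ^ 200 := hj₁
      _ = (v * u ^ 100) ^ 2 := by ring
  -- u^3 / u^50 ≤ 1 / u
  have hsmall : ∀ a : ℕ, a ≤ 49 → u ^ a * (N / u ^ 50) ≤ N / u := by
    intro a ha
    rw [div_eq_mul_one_div, mul_comm (N : ℝ), ← mul_assoc, div_eq_mul_one_div (N : ℝ) u,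
      mul_comm (N : ℝ) (1 / u)]
    gcongr
    rw [mul_one_div, div_le_div_iff₀ (by positivity) hu0, one_mul]
    calc u ^ a * u = u ^ (a + 1) := by ring
      _ ≤ u ^ 50 := hup _ _ (by omega)
  -- T1, T2
  have b12 : ∀ t : ℕ → ℝ, (∀ j ∈ Ico j₀ j₁, t j ≤ C * u *
      (N / Real.sqrt (2 ^ j) + (N : ℝ) ^ ((5 : ℝ) / 6) * Real.sqrt (2 ^ j))) →
      ∑ j ∈ Ico j₀ j₁, t j ≤ 4 * C * C₃ * (u ^ 2 * (N / u ^ 50)) := by
    intro t ht
    have h5 : ∀ j ∈ Ico j₀ j₁, t j ≤ 2 * C * u * (N / u ^ 50) := by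
      intro j hj
      refine (ht j hj).trans ?_
      have e1 : (N : ℝ) / Real.sqrt (2 ^ j) ≤ N / u ^ 50 := by
        apply div_le_div_of_nonneg_left hN0.le (by positivity)
        exact (le_mul_of_one_le_left (by positivity) hv1).trans (g1 j hj)
      have e2 : (N : ℝ) ^ ((5 : ℝ) / 6) * Real.sqrt (2 ^ j) ≤ N / u ^ 50 := by
        rw [h56, le_div_iff₀ (by positivity)]
        calc m ^ 5 * Real.sqrt (2 ^ j) * u ^ 50 ≤ m ^ 5 * (v * u ^ 100) * u ^ 50 := by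
              have := g2 j hj
              gcongr
          _ = m ^ 5 * (v * u ^ 150) := by ring
          _ ≤ m ^ 5 * (v * u ^ 200) := by
              have := hup 150 200 (by norm_num)
              gcongr
          _ ≤ m ^ 5 * m := by gcongr
          _ = N := by rw [hNm]; ring
      calc C * u * (N / Real.sqrt (2 ^ j) + (N : ℝ) ^ ((5 : ℝ) / 6) * Real.sqrt (2 ^ j)) ≤
          C * u * (N / u ^ 50 + N / u ^ 50) := by gcongr
        _ = 2 * C * u * (N / u ^ 50) := by ring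
    refine (sum_blocks_le j₀ j₁ t _ (by positivity) h5).trans ?_
    calc (j₁ : ℝ) * (2 * C * u * (N / u ^ 50)) ≤ (2 * C₃ * u) * (2 * C * u * (N / u ^ 50)) := by
          gcongr
      _ = 4 * C * C₃ * (u ^ 2 * (N / u ^ 50)) := by ring
  have B1 := b12 t1 h1
  have B2 := b12 t2 h2
  have hNvu : (N : ℝ) / u ≤ N * v / u := by
    gcongr
    exact le_mul_of_one_le_right hN0.le hv1
  have c1 : ∑ j ∈ Ico j₀ j₁, t1 j ≤ 4 * C * C₃ * (N * v / u) := by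
    refine B1.trans ?_
    have := hsmall 2 (by norm_num)
    have h0 : 0 ≤ 4 * C * C₃ := by positivity
    exact mul_le_mul_of_nonneg_left (this.trans hNvu) h0
  have c2 : 4 * A * (∑ j ∈ Ico j₀ j₁, t1 j + ∑ j ∈ Ico j₀ j₁, t2 j) ≤
      64 * C * C₃ ^ 2 * (N * v / u) := by
    have h5 : 4 * A * (∑ j ∈ Ico j₀ j₁, t1 j + ∑ j ∈ Ico j₀ j₁, t2 j) ≤
        4 * A * (4 * C * C₃ * (u ^ 2 * (N / u ^ 50)) + 4 * C * C₃ * (u ^ 2 * (N / u ^ 50))) := by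
      gcongr
    refine h5.trans ?_
    calc 4 * A * (4 * C * C₃ * (u ^ 2 * (N / u ^ 50)) + 4 * C * C₃ * (u ^ 2 * (N / u ^ 50)))
        = A * (32 * C * C₃ * (u ^ 2 * (N / u ^ 50))) := by ring
      _ ≤ (2 * C₃ * u) * (32 * C * C₃ * (u ^ 2 * (N / u ^ 50))) := by
          have : A ≤ 2 * C₃ * u := hA.trans hjj
          gcongr
      _ = 64 * C * C₃ ^ 2 * (u ^ 3 * (N / u ^ 50)) := by ring
      _ ≤ 64 * C * C₃ ^ 2 * (N * v / u) := by
          have := hsmall 3 (by norm_num)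
          have h0 : 0 ≤ 64 * C * C₃ ^ 2 := by positivity
          exact mul_le_mul_of_nonneg_left (this.trans hNvu) h0
  -- T3
  have c3 : ∑ j ∈ Ico j₀ j₁, t3 j ≤ 4 * C * C₃ * (N * v / u) := by
    have h5 : ∀ j ∈ Ico j₀ j₁, t3 j ≤ 2 * C * u * (N * v / u ^ 50) := by
      intro j hj
      refine (h3 j hj).trans ?_
      have hcast : (((2 * J : ℕ) : ℕ) : ℝ) = v ^ 2 := by push_cast; exact hvJ
      rw [hcast]
      have hj' := mem_Ico.1 hj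
      have e1 : v ^ 2 * ((N : ℝ) / 2 ^ j) ≤ N * v / u ^ 50 := by
        rw [← mul_div_assoc, div_le_div_iff₀ (by positivity) (by positivity)]
        have h6 : v ^ 2 * u ^ 100 ≤ 2 ^ j :=
          hj₀.trans (pow_le_pow_right₀ (by norm_num) hj'.1)
        calc v ^ 2 * N * u ^ 50 ≤ v ^ 2 * N * u ^ 100 := by
              have := hup 50 100 (by norm_num)
              gcongr
          _ = N * 1 * (v ^ 2 * u ^ 100) := by ring
          _ ≤ N * v * (v ^ 2 * u ^ 100) := by gcongr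
          _ ≤ N * v * 2 ^ j := by gcongr
      have e2 : v ^ 2 * (N : ℝ) ^ ((5 : ℝ) / 6) ≤ N * v / u ^ 50 := by
        rw [h56, le_div_iff₀ (by positivity)]
        calc v ^ 2 * m ^ 5 * u ^ 50 ≤ v ^ 2 * m ^ 5 * u ^ 200 := by
              have := hup 50 200 (by norm_num)
              gcongr
          _ = m ^ 5 * v * (v * u ^ 200) := by ring
          _ ≤ m ^ 5 * v * m := by gcongr
          _ = N * v := by rw [hNm]; ring
      calc C * u * (v ^ 2 * (N / 2 ^ j + (N : ℝ) ^ ((5 : ℝ) / 6))) =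
          C * u * (v ^ 2 * ((N : ℝ) / 2 ^ j) + v ^ 2 * (N : ℝ) ^ ((5 : ℝ) / 6)) := by ring
        _ ≤ C * u * (N * v / u ^ 50 + N * v / u ^ 50) := by gcongr
        _ = _ := by ring
    refine (sum_blocks_le j₀ j₁ t3 _ (by positivity) h5).trans ?_
    calc (j₁ : ℝ) * (2 * C * u * (N * v / u ^ 50)) ≤ (2 * C₃ * u) * (2 * C * u * (N * v / u ^ 50)) := by
          gcongr
      _ = 4 * C * C₃ * v * (u ^ 2 * (N / u ^ 50)) := by ring
      _ ≤ 4 * C * C₃ * v * (N / u) := by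
          have := hsmall 2 (by norm_num)
          gcongr
      _ = _ := by ring
  -- T4
  have c4 : ∑ j ∈ Ico j₀ j₁, ∑ j' ∈ Ico j₀ j₁, t4 j j' ≤ 8 * C * C₃ ^ 2 * (N * v / u) := by
    have h5 : ∀ j ∈ Ico j₀ j₁, ∀ j' ∈ Ico j₀ j₁, t4 j j' ≤ 2 * C * u * (N * v / u ^ 50) := by
      intro j hj j' hj'
      refine (h4 j hj j' hj').trans ?_
      have hsq : Real.sqrt ((2 : ℝ) ^ j * 2 ^ j') = Real.sqrt (2 ^ j) * Real.sqrt (2 ^ j') :=
        Real.sqrt_mul (by positivity) _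
      have l1 := g1 j hj
      have l2 := g1 j' hj'
      have l3 := g2 j hj
      have l4 := g2 j' hj'
      have e1 : (N : ℝ) / Real.sqrt (2 ^ j * 2 ^ j') ≤ N * v / u ^ 50 := by
        rw [hsq, div_le_div_iff₀ (by positivity) (by positivity)]
        calc (N : ℝ) * u ^ 50 = N * 1 * ((1 * 1) * u ^ 50) := by ring
          _ ≤ N * v * ((v * v) * u ^ 100) := by
              have := hup 50 100 (by norm_num)
              gcongr
          _ = N * v * ((v * u ^ 50) * (v * u ^ 50)) := by ring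
          _ ≤ N * v * (Real.sqrt (2 ^ j) * Real.sqrt (2 ^ j')) := by gcongr
      have e2 : (N : ℝ) ^ ((9 : ℝ) / 10) * Real.sqrt (2 ^ j * 2 ^ j') ≤ N * v / u ^ 50 := by
        rw [hsq, h910, le_div_iff₀ (by positivity)]
        calc r ^ 9 * (Real.sqrt (2 ^ j) * Real.sqrt (2 ^ j')) * u ^ 50 ≤
            r ^ 9 * ((v * u ^ 100) * (v * u ^ 100)) * u ^ 50 := by gcongr
          _ = r ^ 9 * v * (v * u ^ 250) := by ring
          _ ≤ r ^ 9 * v * (v * u ^ 600) := by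
              have := hup 250 600 (by norm_num)
              gcongr
          _ ≤ r ^ 9 * v * r := by gcongr
          _ = N * v := by rw [hNr]; ring
      calc C * u * (N / Real.sqrt (2 ^ j * 2 ^ j') +
            (N : ℝ) ^ ((9 : ℝ) / 10) * Real.sqrt (2 ^ j * 2 ^ j')) ≤
          C * u * (N * v / u ^ 50 + N * v / u ^ 50) := by gcongr
        _ = _ := by ring
    have h6 : ∀ j ∈ Ico j₀ j₁, ∑ j' ∈ Ico j₀ j₁, t4 j j' ≤ j₁ * (2 * C * u * (N * v / u ^ 50)) :=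
      fun j hj => sum_blocks_le j₀ j₁ (t4 j) _ (by positivity) (h5 j hj)
    refine (sum_blocks_le j₀ j₁ _ _ (by positivity) h6).trans ?_
    calc (j₁ : ℝ) * (j₁ * (2 * C * u * (N * v / u ^ 50))) ≤
        (2 * C₃ * u) * ((2 * C₃ * u) * (2 * C * u * (N * v / u ^ 50))) := by
          gcongr
      _ = 8 * C * C₃ ^ 2 * v * (u ^ 3 * (N / u ^ 50)) := by ring
      _ ≤ 8 * C * C₃ ^ 2 * v * (N / u) := by
          have := hsmall 3 (by norm_num)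
          gcongr
      _ = _ := by ring
  -- the D terms
  have hJv : 2 * (J : ℝ) + 1 ≤ 2 * v ^ 2 := by
    have : (1 : ℝ) ≤ J := by exact_mod_cast hJ1
    linarith
  have hJv2 : 4 * (J : ℝ) + 1 ≤ 3 * v ^ 2 := by
    have : (1 : ℝ) ≤ J := by exact_mod_cast hJ1
    linarith
  have hJ0 : (0 : ℝ) ≤ J := Nat.cast_nonneg J
  have hL2 : Real.log (N : ℝ) ^ 2 ≤ C₃ ^ 2 * u ^ 2 := by
    calc Real.log (N : ℝ) ^ 2 ≤ (C₃ * u) ^ 2 := pow_le_pow_left₀ hlog0 hL 2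
      _ = _ := by ring
  have hτX : τ * X ≤ 12 * C₂ ^ 2 * v ^ 2 * u ^ 2 := by
    calc τ * X ≤ (C₂ * u) * (12 * v ^ 2 * (C₂ * u)) := by gcongr
      _ = _ := by ring
  have hvr8 : v ^ 8 * u ^ 800 ≤ r ^ 8 := by
    calc v ^ 8 * u ^ 800 ≤ v ^ 8 * u ^ 4800 := by
          have := hup 800 4800 (by norm_num)
          gcongr
      _ = (v * u ^ 600) ^ 8 := by ring
      _ ≤ r ^ 8 := pow_le_pow_left₀ (by positivity) hvr 8
  have hr1 : 1 ≤ r := by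
    refine le_trans ?_ hvr
    have := hu1 600
    nlinarith
  have hNu : v ^ 8 * u ^ 800 ≤ N := by
    refine hvr8.trans ?_
    rw [hNr]
    exact pow_le_pow_right₀ hr1 (by norm_num)
  have d1 : 2 ^ j₁ * (24 * (2 * (J : ℝ) + 1) * Real.log N ^ 2 + 12 * τ * X) ≤
      (48 * C₃ ^ 2 + 144 * C₂ ^ 2) * (N * v / u) := by
    calc 2 ^ j₁ * (24 * (2 * (J : ℝ) + 1) * Real.log N ^ 2 + 12 * τ * X)
        ≤ (v ^ 2 * u ^ 200) * (24 * (2 * v ^ 2) * (C₃ ^ 2 * u ^ 2) +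
            12 * (12 * C₂ ^ 2 * v ^ 2 * u ^ 2)) := by
          have e : 12 * τ * X = 12 * (τ * X) := by ring
          rw [e]
          gcongr
      _ = (48 * C₃ ^ 2 + 144 * C₂ ^ 2) * (v ^ 4 * u ^ 202) := by ring
      _ ≤ (48 * C₃ ^ 2 + 144 * C₂ ^ 2) * (N * v / u) := by
          gcongr
          rw [le_div_iff₀ hu0]
          calc v ^ 4 * u ^ 202 * u = v ^ 4 * u ^ 203 * 1 := by ring
            _ ≤ v ^ 8 * u ^ 800 * v := by
                have e1 := hup 203 800 (by norm_num)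
                have e2 : v ^ 4 ≤ v ^ 8 := pow_le_pow_right₀ hv1 (by norm_num)
                gcongr
            _ ≤ N * v := by gcongr
  have d2 : (2 ^ j₁) ^ 2 * (12 * (2 * (J : ℝ) + 1) ^ 2 * Real.log N ^ 2 +
      12 * (4 * J + 1) * τ * X) ≤ (48 * C₃ ^ 2 + 432 * C₂ ^ 2) * (N * v / u) := by
    calc (2 ^ j₁) ^ 2 * (12 * (2 * (J : ℝ) + 1) ^ 2 * Real.log N ^ 2 + 12 * (4 * J + 1) * τ * X)
        ≤ (v ^ 2 * u ^ 200) ^ 2 * (12 * (2 * v ^ 2) ^ 2 * (C₃ ^ 2 * u ^ 2) +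
            12 * (3 * v ^ 2) * (12 * C₂ ^ 2 * v ^ 2 * u ^ 2)) := by
          have e : 12 * (4 * (J : ℝ) + 1) * τ * X = 12 * (4 * J + 1) * (τ * X) := by ring
          rw [e]
          gcongr
      _ = (48 * C₃ ^ 2 + 432 * C₂ ^ 2) * (v ^ 8 * u ^ 402) := by ring
      _ ≤ (48 * C₃ ^ 2 + 432 * C₂ ^ 2) * (N * v / u) := by
          gcongr
          rw [le_div_iff₀ hu0]
          calc v ^ 8 * u ^ 402 * u = v ^ 8 * u ^ 403 * 1 := by ring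
            _ ≤ v ^ 8 * u ^ 800 * v := by
                have e1 := hup 403 800 (by norm_num)
                gcongr
            _ ≤ N * v := by gcongr
  have hfin : 0 ≤ (N : ℝ) * v / u := by positivity
  have hK : (8 * C * C₃ + 76 * C * C₃ ^ 2 + 100 * C₃ ^ 2 + 600 * C₂ ^ 2) * (N * v / u) =
      4 * C * C₃ * (N * v / u) + 4 * C * C₃ * (N * v / u) + 64 * C * C₃ ^ 2 * (N * v / u) +
      8 * C * C₃ ^ 2 * (N * v / u) + (48 * C₃ ^ 2 + 144 * C₂ ^ 2) * (N * v / u) +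
      (48 * C₃ ^ 2 + 432 * C₂ ^ 2) * (N * v / u) +
      (4 * C * C₃ ^ 2 + 4 * C₃ ^ 2 + 24 * C₂ ^ 2) * (N * v / u) := by ring
  have hrest : 0 ≤ (4 * C * C₃ ^ 2 + 4 * C₃ ^ 2 + 24 * C₂ ^ 2) * (N * v / u) := by positivity
  rw [hK]
  linarith

end GB

end

end Pool.Agent.M848
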