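import Pool.Agent.Lib.MP_848d44_nt.G.Quad
import Pool.Agent.Lib.MP_848d44_nt.G.Par

/-!
# MP_848d44_nt, two-sided omega theorem: final assembly for `N = 2 J q`
-/

set_option autoImplicit false

namespace Pool.Agent.M848

open Finset
open scoped ArithmeticFunction ComplexConjugate

noncomputable section

namespace GB

/-- the positivity argument, with the number of classes -/
theorem positivity_count (q : ℕ) (E T : ℕ → ℝ) (η lam lin Q V Em Wm : ℝ) (hlam : 0 < lam)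
    (hη : 0 ≤ η) (hEm : 0 ≤ Em) (h0 : ∑ a ∈ red q, E a = 0) (hT : ∑ a ∈ red q, T a ^ 2 ≤ V)
    (hlin : ∑ a ∈ red q, E a * T a ≤ -lin) (hQ : |∑ a ∈ red q, E a * T a ^ 2| ≤ Q)
    (hE : ∀ a ∈ red q, |E a| ≤ Em) (hW1 : ∀ a ∈ red q, 2 * (1 + T a ^ 2 / lam ^ 2) ≤ Wm) :
    2 * lin / lam - Q / lam ^ 2 - 2 * η * (q + V / lam ^ 2) ≤
      ((red q).filter (fun a => η ≤ E a)).card * (Em * Wm) ∧
    2 * lin / lam - Q / lam ^ 2 - 2 * η * (q + V / lam ^ 2) ≤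
      ((red q).filter (fun a => E a ≤ -η)).card * (Em * Wm) := by
  have hcard : ((red q).card : ℝ) ≤ q := by
    have : (red q).card ≤ q := by
      refine le_trans (card_filter_le _ _) ?_
      simp
    exact_mod_cast this
  have hWp : ∀ σ : ℝ, σ ^ 2 = 1 → ∀ a ∈ red q,
      (1 + σ * T a / lam) ^ 2 ≤ 2 * (1 + T a ^ 2 / lam ^ 2) := by
    intro σ hσ a _
    have e : T a ^ 2 / lam ^ 2 = (σ * T a / lam) ^ 2 := by
      rw [div_pow, mul_pow, hσ, one_mul]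
    rw [e]
    nlinarith [sq_nonneg (1 - σ * T a / lam)]
  have hW : ∀ σ : ℝ, σ ^ 2 = 1 → ∑ a ∈ red q, (1 + σ * T a / lam) ^ 2 ≤ 2 * (q + V / lam ^ 2) := by
    intro σ hσ
    refine (sum_le_sum (hWp σ hσ)).trans ?_
    rw [← mul_sum, sum_add_distrib, sum_const, nsmul_eq_mul, mul_one, ← sum_div]
    gcongr
  have hexp : ∀ σ : ℝ, σ ^ 2 = 1 → ∑ a ∈ red q, E a * (1 + σ * T a / lam) ^ 2 =
      2 * σ / lam * ∑ a ∈ red q, E a * T a + 1 / lam ^ 2 * ∑ a ∈ red q, E a * T a ^ 2 := by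
    intro σ hσ
    have e : ∀ a ∈ red q, E a * (1 + σ * T a / lam) ^ 2 =
        E a + 2 * σ / lam * (E a * T a) + 1 / lam ^ 2 * (E a * T a ^ 2) := by
      intro a _
      have h1 : (1 + σ * T a / lam) ^ 2 = 1 + 2 * σ / lam * T a + σ ^ 2 * (1 / lam ^ 2 * T a ^ 2) := by
        field_simp
        ring
      rw [h1, hσ]
      ring
    rw [sum_congr rfl e, sum_add_distrib, sum_add_distrib, h0, zero_add, mul_sum, mul_sum]
  have hlam2 : 0 < 1 / lam ^ 2 := by positivity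
  have hq := abs_le.1 hQ
  constructor
  · have h1 : ∑ a ∈ red q, E a * (1 + (-1) * T a / lam) ^ 2 ≤
        ∑ a ∈ red q, (η * (1 + (-1) * T a / lam) ^ 2 + if η ≤ E a then Em * Wm else 0) := by
      refine sum_le_sum fun a ha => ?_
      have hw0 : 0 ≤ (1 + (-1) * T a / lam) ^ 2 := sq_nonneg _
      have hw1 := (hWp (-1) (by norm_num) a ha).trans (hW1 a ha)
      split_ifs with hc
      · have h2 : E a ≤ Em := (le_abs_self _).trans (hE a ha)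
        have h3 : E a * (1 + (-1) * T a / lam) ^ 2 ≤ Em * Wm :=
          mul_le_mul h2 hw1 hw0 hEm
        have h4 := mul_nonneg hη hw0
        linarith
      · rw [add_zero]
        exact mul_le_mul_of_nonneg_right (not_le.1 hc).le hw0
    rw [sum_add_distrib, ← mul_sum, hexp (-1) (by norm_num), ← sum_filter, sum_const,
      nsmul_eq_mul] at h1
    have h2 := mul_le_mul_of_nonneg_left (hW (-1) (by norm_num)) hη
    have h3 : 2 * lin / lam ≤ 2 * (-1) / lam * ∑ a ∈ red q, E a * T a := by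
      have h4 : 0 < 2 / lam := by positivity
      have h5 := mul_le_mul_of_nonneg_left hlin h4.le
      calc 2 * lin / lam = -(2 / lam * -lin) := by ring
        _ ≤ -(2 / lam * ∑ a ∈ red q, E a * T a) := neg_le_neg h5
        _ = _ := by ring
    have h6 : -(Q / lam ^ 2) ≤ 1 / lam ^ 2 * ∑ a ∈ red q, E a * T a ^ 2 := by
      have h7 := mul_le_mul_of_nonneg_left hq.1 hlam2.le
      calc -(Q / lam ^ 2) = 1 / lam ^ 2 * -Q := by ring
        _ ≤ _ := h7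
    linarith
  · have h1 : ∑ a ∈ red q, ((-η) * (1 + 1 * T a / lam) ^ 2 - if E a ≤ -η then Em * Wm else 0) ≤
        ∑ a ∈ red q, E a * (1 + 1 * T a / lam) ^ 2 := by
      refine sum_le_sum fun a ha => ?_
      have hw0 : 0 ≤ (1 + 1 * T a / lam) ^ 2 := sq_nonneg _
      have hw1 := (hWp 1 (by norm_num) a ha).trans (hW1 a ha)
      split_ifs with hc
      · have h2 : -E a ≤ Em := (neg_le_abs _).trans (hE a ha)
        have h3 : -E a * (1 + 1 * T a / lam) ^ 2 ≤ Em * Wm :=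
          mul_le_mul h2 hw1 hw0 hEm
        have h4 := mul_nonneg hη hw0
        linarith
      · rw [sub_zero]
        exact mul_le_mul_of_nonneg_right (not_le.1 hc).le hw0
    rw [sum_sub_distrib, ← mul_sum, hexp 1 (by norm_num), ← sum_filter, sum_const,
      nsmul_eq_mul] at h1
    have h2 := mul_le_mul_of_nonneg_left (hW 1 (by norm_num)) hη
    have h3 : 2 * 1 / lam * ∑ a ∈ red q, E a * T a ≤ -(2 * lin / lam) := by
      have h4 : 0 < 2 / lam := by positivity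
      have h5 := mul_le_mul_of_nonneg_left hlin h4.le
      calc 2 * 1 / lam * ∑ a ∈ red q, E a * T a = 2 / lam * ∑ a ∈ red q, E a * T a := by ring
        _ ≤ 2 / lam * -lin := h5
        _ = _ := by ring
    have h6 : 1 / lam ^ 2 * ∑ a ∈ red q, E a * T a ^ 2 ≤ Q / lam ^ 2 := by
      have h7 := mul_le_mul_of_nonneg_left hq.2 hlam2.le
      calc _ ≤ 1 / lam ^ 2 * Q := h7
        _ = _ := by ring
    linarith

/-- a residue class contains at most `N / q + 1` integers -/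
theorem card_class (N q a : ℕ) (hq : 1 ≤ q) :
    ((Icc 1 N).filter (fun n => n % q = a)).card ≤ N / q + 1 := by
  have h : ((Icc 1 N).filter (fun n => n % q = a)).card ≤ (range (N / q + 1)).card := by
    apply card_le_card_of_injOn (fun n => n / q)
    · intro n hn
      rw [mem_coe, mem_filter, mem_Icc] at hn
      rw [mem_coe, mem_range]
      exact Nat.lt_succ_of_le (Nat.div_le_div_right hn.1.2)
    · intro n hn n' hn' h
      rw [mem_coe, mem_filter] at hn hn'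
      simp only at h
      rw [← Nat.div_add_mod n q, ← Nat.div_add_mod n' q, h, hn.2, hn'.2]
  simpa using h

theorem EE_le (N q a : ℕ) (hq : 1 ≤ q) (X : ℝ) (hX : mea N q ≤ X)
    (hX2 : ((N / q : ℕ) + 1) * Real.log N ≤ X) : |EE N q a| ≤ X := by
  have h1 : 0 ≤ ∑ n ∈ (Icc 1 N).filter (fun n => n % q = a), (Λ n : ℝ) :=
    sum_nonneg fun n _ => Lam_nonneg n
  have h2 : ∑ n ∈ (Icc 1 N).filter (fun n => n % q = a), (Λ n : ℝ) ≤
      ((N / q : ℕ) + 1) * Real.log N := by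
    have h3 : ∀ n ∈ (Icc 1 N).filter (fun n => n % q = a), (Λ n : ℝ) ≤ Real.log N := by
      intro n hn
      rw [mem_filter, mem_Icc] at hn
      refine ArithmeticFunction.vonMangoldt_le_log.trans ?_
      exact Real.log_le_log (by exact_mod_cast hn.1.1) (by exact_mod_cast hn.1.2)
    refine (sum_le_sum h3).trans ?_
    rw [sum_const, nsmul_eq_mul]
    have h4 : (((Icc 1 N).filter (fun n => n % q = a)).card : ℝ) ≤ (N / q : ℕ) + 1 := by
      exact_mod_cast card_class N q a hq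
    exact mul_le_mul_of_nonneg_right h4 (Real.log_natCast_nonneg N)
  have h5 := mea_nonneg N q
  rw [EE, abs_le]
  constructor <;> linarith

/-- the class sum of one prime is at most one -/
theorem X_one (J q s : ℕ) (hJ : 1 ≤ J) (hq : 1 ≤ q) (hs : s.Prime) (hsq : ¬ s ∣ q)
    (hH : 2 * J < s) (a : ℕ) (ha : a < q) :
    |cs (ws (2 * J * q) s) (2 * J * q) q a| ≤ 1 := by
  set N := 2 * J * q with hN
  have h1 := cs_dv_sq N q s hq hs hsq (by rw [hN, div_NJ J q hq]; exact hH) a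
  set U := cs (fun m => tent N m * dv s m) N q a with hU
  have hU0 : 0 ≤ U := by
    rw [hU]
    exact sum_nonneg fun m _ => mul_nonneg (tent_nonneg N m) (dv_abs s m).1
  have h2 : cs (fun m => tent2 N m * dv s m) N q a ≤ 1 / 2 * U := by
    rw [hU, ← cs_mul]
    refine sum_le_sum fun m _ => ?_
    have h3 := tent_nonneg N m
    have h4 := tent_le N m
    have h5 := (dv_abs s m).1
    have h6 : tent2 N m ≤ 1 / 2 * tent N m := by
      unfold tent2; nlinarith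
    calc tent2 N m * dv s m ≤ (1 / 2 * tent N m) * dv s m := mul_le_mul_of_nonneg_right h6 h5
      _ = _ := by ring
  have hU1 : U ≤ 1 / 2 := by
    rcases hU0.eq_or_lt with h | h
    · rw [← h]; norm_num
    · have h7 : U * U ≤ 1 / 2 * U := by
        rw [← sq, h1]; exact h2
      exact le_of_mul_le_mul_right h7 h
  have hs0 : (0 : ℝ) < s := by exact_mod_cast hs.pos
  have hJs : 2 * (J : ℝ) ≤ s := by exact_mod_cast hH.le
  have hJ0 : (0 : ℝ) ≤ J := Nat.cast_nonneg J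
  have hc : 1 / (s : ℝ) * (J / 2) ≤ 1 / 4 := by
    rw [one_div_mul_eq_div, div_le_iff₀ hs0]
    linarith
  have hc0 : 0 ≤ 1 / (s : ℝ) * (J / 2) := by positivity
  rw [cs_ws, hN, cs_tent J q hJ hq a ha, abs_le]
  constructor <;> linarith

/-- the block bounds with one constant -/
def BlkC (κ C : ℝ) : Prop :=
  (∀ N q j : ℕ, (2 ^ j) ^ 3 ≤ N → ∑ s ∈ PR (2 ^ j), T1 N q s ≤
    C * (N : ℝ) ^ κ * (N / Real.sqrt (2 ^ j) + (N : ℝ) ^ ((5 : ℝ) / 6) * Real.sqrt (2 ^ j))) ∧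
  (∀ N q j : ℕ, (2 ^ j) ^ 3 ≤ N → ∑ s ∈ PR (2 ^ j), T2 N q s ≤
    C * (N : ℝ) ^ κ * (N / Real.sqrt (2 ^ j) + (N : ℝ) ^ ((5 : ℝ) / 6) * Real.sqrt (2 ^ j))) ∧
  (∀ N q j : ℕ, (2 ^ j) ^ 3 ≤ N → ∑ s ∈ PR (2 ^ j), T3 N q s ≤
    C * (N : ℝ) ^ κ * ((N / q : ℕ) * (N / 2 ^ j + (N : ℝ) ^ ((5 : ℝ) / 6)))) ∧
  (∀ N q j j' : ℕ, (2 ^ j * 2 ^ j') ^ 5 ≤ N ^ 2 →
    ∑ s ∈ PR (2 ^ j), ∑ s' ∈ (PR (2 ^ j')).filter (fun s' => s' ≠ s), T4 N q s s' ≤
    C * (N : ℝ) ^ κ * (N / Real.sqrt (2 ^ j * 2 ^ j') +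
      (N : ℝ) ^ ((9 : ℝ) / 10) * Real.sqrt (2 ^ j * 2 ^ j')))

theorem exists_BlkC (κ : ℝ) (hκ : 0 < κ) : ∃ C : ℝ, 0 < C ∧ BlkC κ C := by
  obtain ⟨C₁, h1, k1⟩ := sum_T1 κ hκ
  obtain ⟨C₂, h2, k2⟩ := sum_T2 κ hκ
  obtain ⟨C₃, h3, k3⟩ := sum_T3 κ hκ
  obtain ⟨C₄, h4, k4⟩ := sum_T4 κ hκ
  have hb : ∀ C C' : ℝ, ∀ N : ℕ, ∀ X : ℝ, 0 ≤ X → C ≤ C' → C * (N : ℝ) ^ κ * X ≤
      C' * (N : ℝ) ^ κ * X := by
    intro C C' N X hX hC
    gcongr
  refine ⟨C₁ + C₂ + C₃ + C₄, by positivity, ?_, ?_, ?_, ?_⟩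
  · intro N q j hj
    exact (k1 N q j hj).trans (hb _ _ _ _ (by positivity) (by linarith))
  · intro N q j hj
    exact (k2 N q j hj).trans (hb _ _ _ _ (by positivity) (by linarith))
  · intro N q j hj
    exact (k3 N q j hj).trans (hb _ _ _ _ (by positivity) (by linarith))
  · intro N q j j' hj
    exact (k4 N q j j' hj).trans (hb _ _ _ _ (by positivity) (by linarith))

theorem count_final (q : ℕ) (C₂ C₃ ε g v u Y : ℝ) (hq : (0 : ℝ) < q) (hC₂ : 0 < C₂)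
    (hC₃ : 0 < C₃) (hε : 0 < ε) (hg : 0 < g) (hv : 0 < v) (hu0 : 1 ≤ u)
    (hu6 : 400 * g * (2 * C₃ + 12 * C₂) * (1 + 1600 / ε ^ 2) ≤ u)
    (hmain : v * q / (200 * g) ≤ Y) (n : ℝ)
    (hn : Y ≤ n * ((v ^ 2 * u * (2 * C₃ + 12 * C₂)) *
      (2 * (1 + 1600 / ε ^ 2) * (v ^ 2 * u ^ 400)))) :
    (q : ℝ) / (v ^ 3 * u ^ 1200) ≤ n := by
  have hu : 0 < u := by linarith
  have h1 := hmain.trans hn
  rw [div_le_iff₀ (by positivity)] at h1
  have h4 : 0 < (v ^ 2 * u * (2 * C₃ + 12 * C₂)) *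
      (2 * (1 + 1600 / ε ^ 2) * (v ^ 2 * u ^ 400)) * (200 * g) := by positivity
  have hn0 : 0 ≤ n := by
    by_contra hneg
    rw [not_le] at hneg
    have h3 : 0 < v * (q : ℝ) := by positivity
    have h5 := mul_neg_of_neg_of_pos hneg h4
    rw [← mul_assoc] at h5
    linarith
  rw [div_le_iff₀ (by positivity)]
  have h3 : v * (q : ℝ) ≤ v * (n * (v ^ 3 * u ^ 1200)) := by
    calc v * (q : ℝ) ≤ n * ((v ^ 2 * u * (2 * C₃ + 12 * C₂)) *
          (2 * (1 + 1600 / ε ^ 2) * (v ^ 2 * u ^ 400))) * (200 * g) := h1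
      _ = n * (v ^ 4 * u ^ 401) * (400 * g * (2 * C₃ + 12 * C₂) * (1 + 1600 / ε ^ 2)) := by ring
      _ ≤ n * (v ^ 4 * u ^ 401) * u := by gcongr
      _ = n * (v ^ 4 * u ^ 402) := by ring
      _ ≤ n * (v ^ 4 * u ^ 1200) := by
          have : u ^ 402 ≤ u ^ 1200 := pow_le_pow_right₀ hu0 (by norm_num)
          gcongr
      _ = v * (n * (v ^ 3 * u ^ 1200)) := by ring
  exact le_of_mul_le_mul_left h3 hv

theorem main_final_ineq (q : ℕ) (A g v w c₀ J' : ℝ) (hq : (0 : ℝ) < q) (hA : 0 < A)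
    (hg : 0 < g) (hv : 0 < v) (hw : 0 < w) (hwg : w ≤ A * g) (hc₀ : c₀ = 1 / (1000 * g))
    (hJ : J' ≤ v) :
    v * q / (200 * g) ≤ A * v * q / (80 * w) - 2 * (c₀ * J') * (q + 2 * q) := by
  have hc : 0 < c₀ := by rw [hc₀]; positivity
  have h1 : 2 * (c₀ * J') * (q + 2 * q) ≤ 6 * c₀ * v * q := by
    calc 2 * (c₀ * J') * (q + 2 * q) = 6 * c₀ * J' * q := by ring
      _ ≤ 6 * c₀ * v * q := by gcongr
  have h2 : v * q / (80 * g) ≤ A * v * q / (80 * w) := by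
    rw [div_le_div_iff₀ (by positivity) (by positivity)]
    calc v * q * (80 * w) ≤ v * q * (80 * (A * g)) := by gcongr
      _ = A * v * q * (80 * g) := by ring
  have h3 : 6 * c₀ * v * q = 6 / 1000 * (v * q / g) := by
    rw [hc₀]
    field_simp
  have h4 : v * q / (80 * g) = 1 / 80 * (v * q / g) := by
    field_simp
  have h5 : v * q / (200 * g) = 1 / 200 * (v * q / g) := by
    field_simp
  have h6 : 0 ≤ v * q / g := by positivity
  rw [h5]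
  rw [h4] at h2
  rw [h3] at h1
  linarith

/-- The theorem for one `N = 2 J q` (all the asymptotic conditions are hypotheses). -/
theorem one_J (ε κ C C₁ C₂ C₃ K : ℝ) (N₀ J₀ : ℕ) (hε : 0 < ε) (hε1 : ε ≤ 1 / 12)
    (hκ : κ = ε / 400) (hC : 0 ≤ C) (hoff : OffC κ C) (hC₁ : 0 ≤ C₁) (hblk : BlkC κ C₁)
    (hC₂ : 1 ≤ C₂)
    (hdiv : ∀ n : ℕ, 1 ≤ n → (n.divisors.card : ℝ) ≤ C₂ * (n : ℝ) ^ κ)
    (hC₃ : C₃ = 1 / κ) (hD : DiagC N₀) (hJ₀ : 1 ≤ J₀)
    (hrec : ∀ j₀ j₁ : ℕ, J₀ ≤ j₀ → j₀ + 1 ≤ j₁ →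
      ((j₁ : ℝ) - 1 - j₀) / (8 * ((j₁ : ℝ) + 1)) ≤ ∑ j ∈ Ico j₀ j₁, ∑ s ∈ PR (2 ^ j), (1 : ℝ) / s)
    (hK : K = 8 * C₁ * C₃ + 76 * C₁ * C₃ ^ 2 + 100 * C₃ ^ 2 + 600 * C₂ ^ 2)
    (J q N : ℕ) (hJ : 1 ≤ J) (hq1 : 1 ≤ q) (hNJ : N = 2 * J * q)
    (hN3 : 3 ≤ N) (hNN : N₀ ≤ N) (u : ℝ) (hu : u = (N : ℝ) ^ κ)
    (hu4 : 4 ≤ u) (huJ : (2 : ℝ) ^ J₀ ≤ u) (huL : 30 * Real.log 2 / ε ≤ Real.log N)
    (hu1 : 3200 * (6 + 3 * C₃ + 2 * C₃ ^ 2 + 8 * C * C₃ + 8 * C₃ ^ 2 + 48 * C₃ + 72 * C₂ ^ 2) / ε ≤ u)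
    (hu2 : 40 * (36 + 4 * C₃) / ε ≤ u) (hu3 : 80 * C₃ / ε ≤ u)
    (hu5 : 160 * K * 1600 / ε ^ 2 ≤ u)
    (hu6 : 400 * Real.sqrt (1 + 40 / ε) * (2 * C₃ + 12 * C₂) * (1 + 1600 / ε ^ 2) ≤ u)
    (hJbig : 7200 ^ 2 * (1 + 40 / ε) ≤ 2 * (J : ℝ))
    (hqq : (N : ℝ) ^ ((4 : ℝ) / 5 + 3 * ε) ≤ q) :
    ((q : ℝ) / (Real.sqrt (2 * J) ^ 3 * (N : ℝ) ^ (3 * ε)) ≤
      ((red q).filter (fun a => 1 / (1000 * Real.sqrt (1 + 40 / ε)) * Real.sqrt J ≤
        EE N q a)).card) ∧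
    ((q : ℝ) / (Real.sqrt (2 * J) ^ 3 * (N : ℝ) ^ (3 * ε)) ≤
      ((red q).filter (fun a => EE N q a ≤
        -(1 / (1000 * Real.sqrt (1 + 40 / ε)) * Real.sqrt J))).card) := by
  have hκ0 : 0 < κ := by rw [hκ]; positivity
  have hNR : (1 : ℝ) ≤ N := by
    have : 1 ≤ N := by omega
    exact_mod_cast this
  have hN0 : (0 : ℝ) < N := by linarith
  have hqR : (0 : ℝ) < q := by exact_mod_cast hq1
  have hu0 : 1 ≤ u := by linarith
  have hupos : 0 < u := by linarith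
  have hqN : q ≤ N := by rw [hNJ]; exact Nat.le_mul_of_pos_left q (by omega)
  have hNq : N / q = 2 * J := by rw [hNJ]; exact div_NJ J q hq1
  have hJ1 : (1 : ℝ) ≤ J := by exact_mod_cast hJ
  have hC₃1 : 1 ≤ C₃ := by
    rw [hC₃, hκ, le_div_iff₀ (by positivity)]
    linarith
  set m : ℝ := (N : ℝ) ^ ((1 : ℝ) / 6) with hm
  have hmpos : 0 < m := by rw [hm]; positivity
  have hmN : (N : ℝ) = m ^ 6 := by
    rw [hm, ← Real.rpow_natCast, ← Real.rpow_mul hN0.le]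
    norm_num
  have h56 : (N : ℝ) ^ ((5 : ℝ) / 6) = m ^ 5 := by
    rw [hm, ← Real.rpow_natCast, ← Real.rpow_mul hN0.le]
    norm_num
  have hm2 : m ^ 2 = (N : ℝ) ^ ((1 : ℝ) / 3) := by
    rw [hm, ← Real.rpow_natCast, ← Real.rpow_mul hN0.le]
    norm_num
  have hm1 : 1 ≤ m := Real.one_le_rpow hNR (by norm_num)
  set r : ℝ := (N : ℝ) ^ ((1 : ℝ) / 10) with hr
  have hrpos : 0 < r := by rw [hr]; positivity
  have hrN : (N : ℝ) = r ^ 10 := by
    rw [hr, ← Real.rpow_natCast, ← Real.rpow_mul hN0.le]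
    norm_num
  have h910 : (N : ℝ) ^ ((9 : ℝ) / 10) = r ^ 9 := by
    rw [hr, ← Real.rpow_natCast, ← Real.rpow_mul hN0.le]
    norm_num
  have hr2 : r ^ 2 = (N : ℝ) ^ ((1 : ℝ) / 5) := by
    rw [hr, ← Real.rpow_natCast, ← Real.rpow_mul hN0.le]
    norm_num
  have hr1 : 1 ≤ r := Real.one_le_rpow hNR (by norm_num)
  have hum : u ^ 10 ≤ m := by
    rw [hu, hm, ← Real.rpow_natCast, ← Real.rpow_mul hN0.le]
    apply Real.rpow_le_rpow_of_exponent_le hNR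
    rw [hκ]; push_cast; linarith
  have hu1200 : u ^ 1200 = (N : ℝ) ^ (3 * ε) := by
    rw [hu, ← Real.rpow_natCast, ← Real.rpow_mul hN0.le, hκ]
    congr 1
    push_cast; ring
  have hu400 : u ^ 400 ≤ u ^ 1200 := pow_le_pow_right₀ hu0 (by norm_num)
  -- H
  have hHq : (2 * (J : ℝ)) * q = N := by rw [hNJ]; push_cast; ring
  have hH12 : (2 * (J : ℝ)) * u ^ 1200 ≤ r ^ 2 := by
    rw [hu1200, hr2]
    have h1 : (2 * (J : ℝ)) * (N : ℝ) ^ ((4 : ℝ) / 5 + 3 * ε) ≤ N := by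
      rw [← hHq]
      rw [← hHq] at hqq
      gcongr
    have h2 : (N : ℝ) ^ ((4 : ℝ) / 5 + 3 * ε) = (N : ℝ) ^ ((4 : ℝ) / 5) * (N : ℝ) ^ (3 * ε) :=
      Real.rpow_add hN0 _ _
    have h3 : (N : ℝ) = (N : ℝ) ^ ((1 : ℝ) / 5) * (N : ℝ) ^ ((4 : ℝ) / 5) := by
      rw [← Real.rpow_add hN0]; norm_num
    have h4 : (0 : ℝ) < (N : ℝ) ^ ((4 : ℝ) / 5) := by positivity
    have h5 : (2 * (J : ℝ)) * (N : ℝ) ^ (3 * ε) * (N : ℝ) ^ ((4 : ℝ) / 5) ≤
        (N : ℝ) ^ ((1 : ℝ) / 5) * (N : ℝ) ^ ((4 : ℝ) / 5) := by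
      rw [← h3]
      calc _ = (2 * (J : ℝ)) * ((N : ℝ) ^ ((4 : ℝ) / 5) * (N : ℝ) ^ (3 * ε)) := by ring
        _ ≤ N := by rw [← h2]; exact h1
    exact le_of_mul_le_mul_right h5 h4
  have hrm : r ^ 2 ≤ m ^ 2 := by
    rw [hr2, hm2]
    exact Real.rpow_le_rpow_of_exponent_le hNR (by norm_num)
  have hH : (2 * (J : ℝ)) * u ^ 400 ≤ m ^ 2 := by
    calc (2 * (J : ℝ)) * u ^ 400 ≤ (2 * (J : ℝ)) * u ^ 1200 := by gcongr
      _ ≤ r ^ 2 := hH12
      _ ≤ m ^ 2 := hrm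
  have hcast : ((N / q : ℕ) : ℝ) = 2 * (J : ℝ) := by rw [hNq]; push_cast; ring
  have hu200 : 1 ≤ u ^ 200 := one_le_pow₀ hu0
  have hHu2 : (2 * (J : ℝ)) * u ^ 200 ≤ m ^ 2 := by
    refine le_trans ?_ hH
    have h1 : u ^ 200 ≤ u ^ 400 := pow_le_pow_right₀ hu0 (by norm_num)
    gcongr
  have hH3 : ((2 * (J : ℝ)) * u ^ 200) ^ 3 ≤ N := by
    calc ((2 * (J : ℝ)) * u ^ 200) ^ 3 ≤ (m ^ 2) ^ 3 := by gcongr
      _ = (N : ℝ) := by rw [hmN]; ring
  have hlogu : Real.log u = ε / 400 * Real.log N := by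
    rw [hu, Real.log_rpow hN0, hκ]
  have huu100 : u ≤ u ^ 100 := by
    calc u = u ^ 1 := (pow_one u).symm
      _ ≤ u ^ 100 := pow_le_pow_right₀ hu0 (by norm_num)
  obtain ⟨j₀, j₁, hJj, hj0, hj1, hA0⟩ := block_range J₀ hJ₀ hrec ε (2 * (J : ℝ)) u N hε hε1
    (by linarith) hu0 hlogu hH3 (le_trans huJ huu100) huL
  have hL : Real.log N ≤ C₃ * u := by
    have := Real.log_le_rpow_div hN0.le hκ0
    rw [hC₃, hu]
    calc Real.log N ≤ (N : ℝ) ^ κ / κ := this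
      _ = _ := by ring
  have hlog2 : (1 : ℝ) / 2 ≤ Real.log 2 := by
    have := Real.log_two_gt_d9
    linarith
  have hj1N : (2 : ℝ) ^ j₁ ≤ m ^ 2 := le_trans hj1 hHu2
  have hjj : (j₁ : ℝ) ≤ 2 * C₃ * u := by
    have h1 : (2 : ℝ) ^ j₁ ≤ N := by
      refine le_trans hj1N ?_
      rw [hmN]
      exact pow_le_pow_right₀ hm1 (by norm_num)
    have h2 := Real.log_le_log (by positivity) h1
    rw [Real.log_pow] at h2
    have h3 : (j₁ : ℝ) * (1 / 2) ≤ j₁ * Real.log 2 := by gcongr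
    linarith
  have hlogq : (Nat.log 2 q : ℝ) ≤ 2 * C₃ * u := by
    have h1 : (2 : ℝ) ^ (Nat.log 2 q) ≤ N := by
      have : 2 ^ Nat.log 2 q ≤ N := le_trans (Nat.pow_log_le_self 2 (by omega)) hqN
      exact_mod_cast this
    have h2 := Real.log_le_log (by positivity) h1
    rw [Real.log_pow] at h2
    have h3 : (Nat.log 2 q : ℝ) * (1 / 2) ≤ Nat.log 2 q * Real.log 2 := by gcongr
    linarith
  have hHj : 2 * J ≤ 2 ^ j₀ := by
    have : 2 * (J : ℝ) ≤ 2 ^ j₀ := by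
      refine le_trans ?_ hj0
      exact le_mul_of_one_le_right (by positivity) (one_le_pow₀ hu0)
    exact_mod_cast this
  have hjc : ∀ j < j₁, (2 ^ j) ^ 3 ≤ N := by
    intro j hj
    have h1 : ((2 : ℝ) ^ j) ^ 3 ≤ N := by
      have h2 : (2 : ℝ) ^ j ≤ 2 ^ j₁ := pow_le_pow_right₀ (by norm_num) hj.le
      have h3 : (2 : ℝ) ^ j ≤ m ^ 2 := le_trans h2 hj1N
      calc ((2 : ℝ) ^ j) ^ 3 ≤ (m ^ 2) ^ 3 := by gcongr
        _ = (N : ℝ) := by rw [hmN]; ring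
    exact_mod_cast h1
  have hj1r : (2 : ℝ) ^ j₁ ≤ r ^ 2 := by
    refine hj1.trans (le_trans ?_ hH12)
    have : u ^ 200 ≤ u ^ 1200 := pow_le_pow_right₀ hu0 (by norm_num)
    gcongr
  have hjc2 : ∀ j < j₁, ∀ j' < j₁, (2 ^ j * 2 ^ j') ^ 5 ≤ N ^ 2 := by
    intro j hj j' hj'
    have h1 : ((2 : ℝ) ^ j * 2 ^ j') ^ 5 ≤ (N : ℝ) ^ 2 := by
      have h2 : (2 : ℝ) ^ j ≤ r ^ 2 := le_trans (pow_le_pow_right₀ (by norm_num) hj.le) hj1r
      have h3 : (2 : ℝ) ^ j' ≤ r ^ 2 := le_trans (pow_le_pow_right₀ (by norm_num) hj'.le) hj1r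
      calc ((2 : ℝ) ^ j * 2 ^ j') ^ 5 ≤ (r ^ 2 * r ^ 2) ^ 5 := by gcongr
        _ = (r ^ 10) ^ 2 := by ring
        _ = (N : ℝ) ^ 2 := by rw [← hrN]
    exact_mod_cast h1
  -- A
  have hA : ε / 40 ≤ AA (SS q j₀ j₁) := by
    have h1 := AA_lower q j₀ j₁ hq1 (ε / 20) hA0
    have h2 : (Nat.log 2 q : ℝ) / 2 ^ j₀ ≤ ε / 40 := by
      have h3 : u * u ≤ 2 ^ j₀ := by
        calc u * u = u ^ 2 := by ring
          _ ≤ u ^ 100 := pow_le_pow_right₀ hu0 (by norm_num)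
          _ ≤ (2 * (J : ℝ)) * u ^ 100 := le_mul_of_one_le_left (by positivity) (by linarith)
          _ ≤ 2 ^ j₀ := hj0
      have huε : 80 * C₃ ≤ u * ε := (div_le_iff₀ hε).1 hu3
      rw [div_le_iff₀ (by positivity)]
      calc (Nat.log 2 q : ℝ) ≤ 2 * C₃ * u := hlogq
        _ = (80 * C₃) * u / 40 := by ring
        _ ≤ (u * ε) * u / 40 := by gcongr
        _ = ε / 40 * (u * u) := by ring
        _ ≤ ε / 40 * 2 ^ j₀ := by gcongr
    linarith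
  set A := AA (SS q j₀ j₁) with hAdef
  have hApos : 0 < A := lt_of_lt_of_le (by positivity) hA
  -- the mean
  have hτ : (q.divisors.card : ℝ) ≤ C₂ * u := by
    refine le_trans (hdiv q hq1) ?_
    rw [hu]
    have : (q : ℝ) ≤ N := by exact_mod_cast hqN
    gcongr
  have hφ : (0 : ℝ) < q.totient := by
    have : 0 < q.totient := Nat.totient_pos.2 (by omega)
    exact_mod_cast this
  have hX0 : 0 ≤ mea N q := mea_nonneg N q
  have hX' : mea N q ≤ 12 * (2 * (J : ℝ)) * (C₂ * u) := by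
    have h0 := psi_cop N q
    have h1 := totient_lower q
    rw [mea, div_le_iff₀ hφ]
    calc _ ≤ 6 * (N : ℝ) := h0
      _ = 6 * ((2 * (J : ℝ)) * q) := by rw [hHq]
      _ ≤ 6 * ((2 * (J : ℝ)) * (q.divisors.card * q.totient)) := by gcongr
      _ ≤ 6 * ((2 * (J : ℝ)) * ((C₂ * u) * q.totient)) := by gcongr
      _ ≤ 12 * ((2 * (J : ℝ)) * ((C₂ * u) * q.totient)) := by
          have : 0 ≤ (2 * (J : ℝ)) * ((C₂ * u) * q.totient) := by positivity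
          linarith
      _ = _ := by ring
  -- linear term
  have hBBu : BB b1 1 ≤ u ^ 3 := by rw [BB_b1]; exact one_le_pow₀ hu0
  have hE1 := E1_bound κ C C₂ C₃ hC hC₂ hC₃1 b1 1 N q j₀ j₁ (mea N q) u m hu0 hum hmN
    hu.symm h56 (by push_cast; exact hu0) hBBu hL (by rw [hcast]; linarith)
    (by rw [hcast]; exact hH) (by rw [hcast]; exact hj0) (by rw [hcast]; exact hj1) hτ hX0
    (by rw [hcast]; exact hX') hjj
  have hE2 := E2_bound C₃ hC₃1 b1 1 N q j₀ j₁ u m hu0 hum hmN hBBu (by rw [hcast]; linarith)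
    (by rw [hcast]; exact hH) (by rw [hcast]; exact hj0) (by rw [hcast]; exact hj1) hjj
  have he1 : E1 κ C b1 1 N q j₀ j₁ (mea N q) ≤ A * (N / 80) := by
    have h1 := (div_le_iff₀ hε).1 hu1
    have h2 : E1 κ C b1 1 N q j₀ j₁ (mea N q) * u ≤ (u * ε / 3200) * N := by
      refine le_trans hE1 ?_
      gcongr
      linarith
    have h3 : E1 κ C b1 1 N q j₀ j₁ (mea N q) ≤ ε / 3200 * N := by
      refine le_of_mul_le_mul_right ?_ hupos
      calc _ ≤ (u * ε / 3200) * N := h2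
        _ = _ := by ring
    have h4 : ε / 40 * ((N : ℝ) / 80) ≤ A * (N / 80) := by gcongr
    calc _ ≤ ε / 3200 * N := h3
      _ = ε / 40 * ((N : ℝ) / 80) := by ring
      _ ≤ _ := h4
  have he2 : E2 b1 1 N q j₀ j₁ ≤ N * (A + A ^ 2) := by
    have h1 := (div_le_iff₀ hε).1 hu2
    have h2 : E2 b1 1 N q j₀ j₁ * u ≤ (u * ε / 40) * N := by
      refine le_trans hE2 ?_
      gcongr
      linarith
    have h3 : E2 b1 1 N q j₀ j₁ ≤ ε / 40 * N := by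
      refine le_of_mul_le_mul_right ?_ hupos
      calc _ ≤ (u * ε / 40) * N := h2
        _ = _ := by ring
    have h4 : (N : ℝ) * (ε / 40 + 0) ≤ N * (A + A ^ 2) := by
      gcongr
      positivity
    calc _ ≤ ε / 40 * N := h3
      _ = (N : ℝ) * (ε / 40 + 0) := by ring
      _ ≤ _ := h4
  have hb11 : b1 1 = 1 := rfl
  have hnum := numer_upper κ C hC hoff N₀ hD b1 1 N q j₀ j₁ (mea N q) hX0 (by rw [hb11]; norm_num)
    hN3 hNN le_rfl (by omega) hq1 hqN Nat.one_le_two_pow (by rw [hNq]; exact hHj) hjc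
  have hlin : ∑ a ∈ red q, EE N q a * (∑ s ∈ SS q j₀ j₁, cs (ws N s) N q a) ≤ -(A * N / 80) := by
    have e : ∑ a ∈ red q, EE N q a * (∑ s ∈ SS q j₀ j₁, cs (ws N s) N q a) =
        ∑ a ∈ (range q).filter (fun a => a.Coprime q),
          ((∑ n ∈ (Icc 1 N).filter (fun n => n % q = a), Λ n) - mea N q) *
            GG b1 1 N q (SS q j₀ j₁) a := by
      unfold red
      refine sum_congr rfl fun a _ => ?_
      rw [GG_b1, EE]
    rw [e]
    refine hnum.trans ?_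
    rw [hb11]
    have e2 : A * 1 * ((N : ℝ) / 40) = A * (N / 80) + A * N / 80 := by ring
    linarith
  -- second moment
  have hS : ∀ s ∈ SS q j₀ j₁, s.Prime ∧ 1 < s := by
    intro s hs
    have := mem_SS hs
    exact ⟨this.1, this.1.one_lt⟩
  have hM := GG_moment b1 1 N q (by omega) hq1 (SS q j₀ j₁) hS (fun s hs => (mem_SS hs).2.2.2)
    (fun s hs => by have := mem_SS hs; rw [hNq]; omega)
  have hV : ∑ a ∈ red q, (∑ s ∈ SS q j₀ j₁, cs (ws N s) N q a) ^ 2 ≤ 2 * (N * (A + A ^ 2)) := by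
    have e : ∑ a ∈ red q, (∑ s ∈ SS q j₀ j₁, cs (ws N s) N q a) ^ 2 ≤
        ∑ a ∈ range q, GG b1 1 N q (SS q j₀ j₁) a ^ 2 := by
      unfold red
      refine le_trans (sum_le_sum_of_subset_of_nonneg (filter_subset _ _)
        (fun a _ _ => sq_nonneg _)) (le_of_eq ?_)
      refine sum_congr rfl fun a _ => ?_
      rw [GG_b1]
    refine e.trans (hM.trans ?_)
    rw [QQ_b1, mul_one]
    unfold E2 at he2
    linarith
  -- quadratic term
  have hquad := quad_SS J q j₀ j₁ hJ hq1 hHj (by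
    rw [← hNJ]
    have h1 : (2 : ℝ) ^ j₁ ≤ N := by
      refine le_trans hj1N ?_
      rw [hmN]
      exact pow_le_pow_right₀ hm1 (by norm_num)
    exact_mod_cast h1)
  rw [← hNJ] at hquad
  set v : ℝ := Real.sqrt (2 * J) with hv
  have hv2 : 2 * (J : ℝ) = v ^ 2 := (Real.sq_sqrt (by positivity)).symm
  have hv0 : 0 ≤ v := Real.sqrt_nonneg _
  have hv1 : 1 ≤ v := by
    rw [hv, Real.one_le_sqrt]
    linarith
  have hvpos : 0 < v := by linarith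
  have herr := err_bound C₁ C₂ C₃ hC₁ hC₂ hC₃1 N J j₀ j₁ A (mea N q) q.divisors.card u m r v
    (fun j => ∑ s ∈ PR (2 ^ j), T1 N q s) (fun j => ∑ s ∈ PR (2 ^ j), T2 N q s)
    (fun j => ∑ s ∈ PR (2 ^ j), T3 N q s)
    (fun j j' => ∑ s ∈ PR (2 ^ j), ∑ s' ∈ (PR (2 ^ j')).filter (fun s' => s' ≠ s), T4 N q s s')
    hu0 hmN hmpos h56 hrN hrpos h910 hv1 hv2 hJ
    (by
      refine le_of_sq_le_sq ?_ hmpos.le
      calc (v * u ^ 200) ^ 2 = v ^ 2 * u ^ 400 := by ring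
        _ = (2 * (J : ℝ)) * u ^ 400 := by rw [hv2]
        _ ≤ m ^ 2 := hH)
    (by
      refine le_of_sq_le_sq ?_ hrpos.le
      calc (v * u ^ 600) ^ 2 = v ^ 2 * u ^ 1200 := by ring
        _ = (2 * (J : ℝ)) * u ^ 1200 := by rw [hv2]
        _ ≤ r ^ 2 := hH12)
    (by rw [← hv2]; exact hj0) (by rw [← hv2]; exact hj1) hL (Nat.cast_nonneg _) hτ hX0
    (by rw [← hv2]; exact hX') hjj hApos.le (AA_upper q j₀ j₁)
    (fun j hj => by
      have := hblk.1 N q j (hjc j (mem_Ico.1 hj).2)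
      rw [← hu] at this
      exact this)
    (fun j hj => by
      have := hblk.2.1 N q j (hjc j (mem_Ico.1 hj).2)
      rw [← hu] at this
      exact this)
    (fun j hj => by
      have := hblk.2.2.1 N q j (hjc j (mem_Ico.1 hj).2)
      rw [← hu, hNq] at this
      exact this)
    (fun j hj j' hj' => by
      have := hblk.2.2.2 N q j j' (hjc2 j (mem_Ico.1 hj).2 j' (mem_Ico.1 hj').2)
      rw [← hu] at this
      exact this)
  rw [← hK] at herr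
  -- the parameter
  set w : ℝ := Real.sqrt (A + A ^ 2) with hw
  have hw2 : w ^ 2 = A + A ^ 2 := Real.sq_sqrt (by positivity)
  have hwpos : 0 < w := Real.sqrt_pos.2 (by positivity)
  set g : ℝ := Real.sqrt (1 + 40 / ε) with hg
  have hg2 : g ^ 2 = 1 + 40 / ε := Real.sq_sqrt (by positivity)
  have hgpos : 0 < g := Real.sqrt_pos.2 (by positivity)
  have hwA : A ≤ w := by
    refine le_of_sq_le_sq ?_ hwpos.le
    rw [hw2]; linarith
  have hwg : w ≤ A * g := by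
    refine le_of_sq_le_sq ?_ (by positivity)
    rw [hw2, mul_pow, hg2]
    have h1 : A ≤ A ^ 2 * (40 / ε) := by
      have h2 : 1 ≤ A * (40 / ε) := by
        calc (1 : ℝ) = ε / 40 * (40 / ε) := by field_simp
          _ ≤ A * (40 / ε) := by gcongr
      calc A = A * 1 := (mul_one A).symm
        _ ≤ A * (A * (40 / ε)) := by gcongr
        _ = A ^ 2 * (40 / ε) := by ring
    linarith
  have hgv : 7200 * g ≤ v := by
    refine le_of_sq_le_sq ?_ hv0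
    rw [mul_pow, hg2, ← hv2]
    exact hJbig
  set c₀ : ℝ := 1 / (1000 * g) with hc₀
  have hc₀pos : 0 < c₀ := by positivity
  have hQ : |∑ a ∈ red q, EE N q a * (∑ s ∈ SS q j₀ j₁, cs (ws N s) N q a) ^ 2| ≤
      (v * w) * (A * N / 80) := by
    have h1 : |∑ a ∈ red q, EE N q a * (∑ s ∈ SS q j₀ j₁, cs (ws N s) N q a) ^ 2| ≤
        45 * N * w ^ 2 + K * (N * v / u) := by
      have h2 : 45 * (N : ℝ) * A + 6 * N * A ^ 2 ≤ 45 * N * w ^ 2 := by
        rw [hw2]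
        have : 0 ≤ (N : ℝ) * A ^ 2 := by positivity
        linarith
      linarith
    have h3 : 45 * (N : ℝ) * w ^ 2 ≤ (v * w) * (A * N / 160) := by
      have h4 : 7200 * w ≤ v * A := by
        calc 7200 * w ≤ 7200 * (A * g) := by gcongr
          _ = (7200 * g) * A := by ring
          _ ≤ v * A := by gcongr
      calc 45 * (N : ℝ) * w ^ 2 = (7200 * w) * (w * (N / 160)) := by ring
        _ ≤ (v * A) * (w * (N / 160)) := by gcongr
        _ = _ := by ring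
    have h5 : K * (N * v / u) ≤ (v * w) * (A * N / 160) := by
      have h6 := (div_le_iff₀ (by positivity)).1 hu5
      have h7 : (ε / 40) ^ 2 ≤ w * A := by
        calc (ε / 40) ^ 2 = (ε / 40) * (ε / 40) := by ring
          _ ≤ w * A := by
              have : ε / 40 ≤ w := hA.trans hwA
              gcongr
      have h8 : 160 * K ≤ u * (w * A) := by
        calc 160 * K = 160 * K * 1600 / 1600 := by ring
          _ ≤ u * ε ^ 2 / 1600 := by gcongr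
          _ = u * (ε / 40) ^ 2 := by ring
          _ ≤ u * (w * A) := by gcongr
      have h9 : K ≤ u * (w * A) / 160 := by linarith
      calc K * (N * v / u) ≤ (u * (w * A) / 160) * (N * v / u) := by gcongr
        _ = _ := by
            field_simp
    calc _ ≤ _ := h1
      _ ≤ (v * w) * (A * N / 160) + (v * w) * (A * N / 160) := add_le_add h3 h5
      _ = _ := by ring
  have h0 : ∑ a ∈ red q, EE N q a = 0 := by
    have := EE_const N q hq1 1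
    simpa using this
  -- the number of classes
  have hEm : ∀ a ∈ red q, |EE N q a| ≤ v ^ 2 * u * (2 * C₃ + 12 * C₂) := by
    intro a _
    apply EE_le N q a hq1
    · refine hX'.trans ?_
      rw [hv2]
      have h1 : 0 ≤ v ^ 2 * u * (2 * C₃) := by positivity
      clear * - h1
      linarith
    · rw [hcast, hv2]
      have h0 : 1 ≤ v ^ 2 := one_le_pow₀ hv1
      have h1 : v ^ 2 + 1 ≤ 2 * v ^ 2 := by clear * - h0; linarith
      calc (v ^ 2 + 1) * Real.log N ≤ (2 * v ^ 2) * (C₃ * u) := by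
            have : 0 ≤ Real.log N := Real.log_natCast_nonneg N
            gcongr
        _ ≤ v ^ 2 * u * (2 * C₃ + 12 * C₂) := by
            have h2 : 0 ≤ v ^ 2 * u * (12 * C₂) := by positivity
            clear * - h2
            linarith
  have hTm : ∀ a ∈ red q, |∑ s ∈ SS q j₀ j₁, cs (ws N s) N q a| ≤ v ^ 2 * u ^ 200 := by
    intro a ha
    rw [red, mem_filter, mem_range] at ha
    have h1 : ∀ s ∈ SS q j₀ j₁, |cs (ws N s) N q a| ≤ 1 := by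
      intro s hs
      have h2 := mem_SS hs
      rw [hNJ]
      exact X_one J q s hJ hq1 h2.1 h2.2.2.2 (by omega) a ha.1
    refine (abs_sum_le_sum_abs _ _).trans ((sum_le_sum h1).trans ?_)
    rw [sum_const, nsmul_eq_mul, mul_one]
    have h9 : (2 : ℝ) ^ j₁ ≤ v ^ 2 * u ^ 200 := by rw [← hv2]; exact hj1
    refine le_trans ?_ h9
    exact_mod_cast card_SS q j₀ j₁
  have hWm : ∀ a ∈ red q, 2 * (1 + (∑ s ∈ SS q j₀ j₁, cs (ws N s) N q a) ^ 2 / (v * w) ^ 2) ≤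
      2 * (1 + 1600 / ε ^ 2) * (v ^ 2 * u ^ 400) := by
    intro a ha
    have h1 : (∑ s ∈ SS q j₀ j₁, cs (ws N s) N q a) ^ 2 ≤ (v ^ 2 * u ^ 200) ^ 2 := by
      rw [← sq_abs]
      exact pow_le_pow_left₀ (abs_nonneg _) (hTm a ha) 2
    have h2 : (∑ s ∈ SS q j₀ j₁, cs (ws N s) N q a) ^ 2 / (v * w) ^ 2 ≤
        1600 / ε ^ 2 * (v ^ 2 * u ^ 400) := by
      rw [div_le_iff₀ (by positivity)]
      refine h1.trans ?_
      have h3 : 1 ≤ 1600 / ε ^ 2 * w ^ 2 := by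
        have h4 : ε / 40 ≤ w := hA.trans hwA
        have h5 : (ε / 40) ^ 2 ≤ w ^ 2 := pow_le_pow_left₀ (by positivity) h4 2
        calc (1 : ℝ) = 1600 / ε ^ 2 * (ε / 40) ^ 2 := by
              field_simp
              norm_num
          _ ≤ 1600 / ε ^ 2 * w ^ 2 := by gcongr
      calc (v ^ 2 * u ^ 200) ^ 2 = (v ^ 4 * u ^ 400) * 1 := by ring
        _ ≤ (v ^ 4 * u ^ 400) * (1600 / ε ^ 2 * w ^ 2) := by gcongr
        _ = 1600 / ε ^ 2 * (v ^ 2 * u ^ 400) * (v * w) ^ 2 := by ring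
    have h6 : 1 ≤ v ^ 2 * u ^ 400 :=
      one_le_mul_of_one_le_of_one_le (one_le_pow₀ hv1) (one_le_pow₀ hu0)
    calc 2 * (1 + (∑ s ∈ SS q j₀ j₁, cs (ws N s) N q a) ^ 2 / (v * w) ^ 2) ≤
        2 * (v ^ 2 * u ^ 400 + 1600 / ε ^ 2 * (v ^ 2 * u ^ 400)) := by
          gcongr
      _ = _ := by ring
  have hpc := positivity_count q (fun a => EE N q a) (fun a => ∑ s ∈ SS q j₀ j₁, cs (ws N s) N q a)
    (c₀ * Real.sqrt J) (v * w) (A * N / 80) _ _ (v ^ 2 * u * (2 * C₃ + 12 * C₂))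
    (2 * (1 + 1600 / ε ^ 2) * (v ^ 2 * u ^ 400)) (by positivity) (by positivity) (by positivity)
    h0 hV hlin hQ hEm hWm
  -- the final inequality
  have hNv : (N : ℝ) = v ^ 2 * q := by rw [← hv2, hHq]
  have e1 : 2 * ((N : ℝ) * (A + A ^ 2)) / (v * w) ^ 2 = 2 * q := by
    rw [mul_pow, hw2, hNv]
    have h1 : A + A ^ 2 ≠ 0 := by positivity
    field_simp
  have e2 : 2 * (A * (N : ℝ) / 80) / (v * w) - (v * w) * (A * N / 80) / (v * w) ^ 2 =
      A * v * q / (80 * w) := by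
    rw [hNv]
    field_simp
    ring
  rw [e1, e2] at hpc
  have hJv : Real.sqrt J ≤ v := by
    apply Real.sqrt_le_sqrt
    clear * - hJ1
    linarith
  have hC₂pos : 0 < C₂ := lt_of_lt_of_le one_pos hC₂
  have hC₃pos : 0 < C₃ := lt_of_lt_of_le one_pos hC₃1
  have hmain := main_final_ineq q A g v w c₀ (Real.sqrt J) hqR hApos hgpos hvpos hwpos hwg hc₀ hJv
  have hcount := count_final q C₂ C₃ ε g v u (A * v * q / (80 * w) -
    2 * (c₀ * Real.sqrt J) * (q + 2 * q)) hqR hC₂pos hC₃pos hε hgpos hvpos hu0 hu6 hmain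
  rw [← hu1200]
  exact ⟨hcount _ hpc.1, hcount _ hpc.2⟩

/-- The theorem for `N = 2 J q`. -/
theorem core (ε : ℝ) (hε : 0 < ε) :
    ∃ c₀ : ℝ, 0 < c₀ ∧ ∃ N₀ : ℕ, ∀ J q : ℕ, N₀ ≤ J → 1 ≤ q →
      ((2 * J * q : ℕ) : ℝ) ^ ((4 : ℝ) / 5 + ε) ≤ q →
      ((q : ℝ) / (Real.sqrt (2 * J) ^ 3 * ((2 * J * q : ℕ) : ℝ) ^ ε) ≤
        ((red q).filter (fun a => c₀ * Real.sqrt J ≤ EE (2 * J * q) q a)).card) ∧
      ((q : ℝ) / (Real.sqrt (2 * J) ^ 3 * ((2 * J * q : ℕ) : ℝ) ^ ε) ≤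
        ((red q).filter (fun a => EE (2 * J * q) q a ≤ -(c₀ * Real.sqrt J))).card) := by
  obtain ⟨ε', hε'⟩ : ∃ ε' : ℝ, ε' = min (ε / 3) (1 / 12) := ⟨_, rfl⟩
  have hε0 : 0 < ε' := by rw [hε']; exact lt_min (by linarith) (by norm_num)
  have hε1 : ε' ≤ 1 / 12 := by rw [hε']; exact min_le_right _ _
  have hε3 : 3 * ε' ≤ ε := by
    have : ε' ≤ ε / 3 := by rw [hε']; exact min_le_left _ _
    linarith
  obtain ⟨κ, hκ⟩ : ∃ κ : ℝ, κ = ε' / 400 := ⟨_, rfl⟩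
  have hκ0 : 0 < κ := by rw [hκ]; positivity
  obtain ⟨C, hC0, hC⟩ := off_block κ hκ0
  obtain ⟨C₁, hC₁, hblk⟩ := exists_BlkC κ hκ0
  obtain ⟨C₂, hC₂, hdiv⟩ := divisor_bound κ hκ0
  obtain ⟨N₀, hN₀⟩ := diag_term
  obtain ⟨J₀, hJ₀, hrec⟩ := recip_blocks
  obtain ⟨C₃, hC₃⟩ : ∃ C₃ : ℝ, C₃ = 1 / κ := ⟨_, rfl⟩
  obtain ⟨K, hK⟩ : ∃ K : ℝ, K = 8 * C₁ * C₃ + 76 * C₁ * C₃ ^ 2 + 100 * C₃ ^ 2 + 600 * C₂ ^ 2 :=
    ⟨_, rfl⟩
  have hpow : Filter.Tendsto (fun n : ℕ => (n : ℝ) ^ κ) Filter.atTop Filter.atTop :=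
    (tendsto_rpow_atTop hκ0).comp tendsto_natCast_atTop_atTop
  have hlogt : Filter.Tendsto (fun n : ℕ => Real.log (n : ℝ)) Filter.atTop Filter.atTop :=
    Real.tendsto_log_atTop.comp tendsto_natCast_atTop_atTop
  have ev := (((((((((hpow.eventually_ge_atTop 4).and (hpow.eventually_ge_atTop ((2 : ℝ) ^ J₀))).and
    (hlogt.eventually_ge_atTop (30 * Real.log 2 / ε'))).and
    (hpow.eventually_ge_atTop (3200 * (6 + 3 * C₃ + 2 * C₃ ^ 2 + 8 * C * C₃ + 8 * C₃ ^ 2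
      + 48 * C₃ + 72 * C₂ ^ 2) / ε'))).and
    (hpow.eventually_ge_atTop (40 * (36 + 4 * C₃) / ε'))).and
    (hpow.eventually_ge_atTop (80 * C₃ / ε'))).and
    (hpow.eventually_ge_atTop (160 * K * 1600 / ε' ^ 2))).and
    (hpow.eventually_ge_atTop (400 * Real.sqrt (1 + 40 / ε') * (2 * C₃ + 12 * C₂) *
      (1 + 1600 / ε' ^ 2)))).and
    (Filter.eventually_ge_atTop (max 3 N₀))).and
    (tendsto_natCast_atTop_atTop (R := ℝ).eventually_ge_atTop (7200 ^ 2 * (1 + 40 / ε')))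
  obtain ⟨M, hM⟩ := Filter.eventually_atTop.1 ev
  refine ⟨1 / (1000 * Real.sqrt (1 + 40 / ε')), by positivity, max M 1, ?_⟩
  intro J q hJ hq hqq
  have hJ1 : 1 ≤ J := le_trans (le_max_right _ _) hJ
  have hJM : M ≤ J := le_trans (le_max_left _ _) hJ
  have hJN : J ≤ 2 * J * q := by
    calc J = J * 1 := (mul_one J).symm
      _ ≤ (2 * J) * q := Nat.mul_le_mul (by omega) hq
  obtain ⟨⟨⟨⟨⟨⟨⟨⟨⟨h4, hJ0⟩, hlg⟩, hu1⟩, hu2⟩, hu3⟩, hu5⟩, hu6⟩, hN⟩, _⟩ :=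
    hM (2 * J * q) (hJM.trans hJN)
  have hbig := (hM J hJM).2
  have hN3 : 3 ≤ 2 * J * q := le_trans (le_max_left _ _) hN
  have hNN : N₀ ≤ 2 * J * q := le_trans (le_max_right _ _) hN
  have hN1 : (1 : ℝ) ≤ ((2 * J * q : ℕ) : ℝ) := by
    have : 1 ≤ 2 * J * q := by omega
    exact_mod_cast this
  have hJpos : (0 : ℝ) ≤ J := Nat.cast_nonneg J
  have h := one_J ε' κ C C₁ C₂ C₃ K N₀ J₀ hε0 hε1 hκ hC0.le hC hC₁.le hblk hC₂ hdiv hC₃ hN₀ hJ₀
    hrec hK J q (2 * J * q) hJ1 hq rfl hN3 hNN _ rfl h4 hJ0 hlg hu1 hu2 hu3 hu5 hu6 (by linarith)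
    (le_trans (Real.rpow_le_rpow_of_exponent_le hN1 (by linarith)) hqq)
  have hmono : (q : ℝ) / (Real.sqrt (2 * J) ^ 3 * ((2 * J * q : ℕ) : ℝ) ^ ε) ≤
      (q : ℝ) / (Real.sqrt (2 * J) ^ 3 * ((2 * J * q : ℕ) : ℝ) ^ (3 * ε')) := by
    have hJ2 : (0 : ℝ) < 2 * J := by
      have : (1 : ℝ) ≤ J := by exact_mod_cast hJ1
      linarith
    have hs : 0 < Real.sqrt (2 * J) := Real.sqrt_pos.2 hJ2
    have hN0 : (0 : ℝ) < ((2 * J * q : ℕ) : ℝ) := by linarith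
    apply div_le_div_of_nonneg_left (Nat.cast_nonneg _) (by positivity)
    exact mul_le_mul_of_nonneg_left (Real.rpow_le_rpow_of_exponent_le hN1 hε3) (by positivity)
  exact ⟨hmono.trans h.1, hmono.trans h.2⟩

end GB

end

end Pool.Agent.M848
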