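import Pool.Agent.Lib.MP_848d44_nt.G.Base

/-!
# MP_848d44_nt, two-sided omega theorem: module TEN (class sums of the tent and its square)
-/

set_option autoImplicit false

namespace Pool.Agent.M848

open Finset
open scoped ArithmeticFunction ComplexConjugate

noncomputable section

namespace TenAux

theorem cs_range (F : ℤ → ℝ) (L q a : ℕ) (ha : a < q) (h0 : F 0 = 0)
    (hN : F ((L * q : ℕ) : ℤ) = 0) :
    cs F (L * q) q a = ∑ h ∈ range L, F ((a + h * q : ℕ) : ℤ) := by
  have hq : 0 < q := lt_of_le_of_lt (Nat.zero_le _) ha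
  set f : ℕ → ℝ := fun m => if m % q = a then F (m : ℤ) else 0 with hf
  have e1 : cs F (L * q) q a = ∑ m ∈ Icc 1 (L * q), f m := by
    rw [cs, sum_filter]
  have e2 : ∑ m ∈ range (L * q + 1), f m = f 0 + ∑ m ∈ Icc 1 (L * q), f m := by
    rw [sum_range_succ', add_comm]
    congr 1
    rw [range_eq_Ico, sum_Ico_add' f 0 (L * q) 1]
    rfl
  have e3 : f 0 = 0 := by
    simp only [hf]
    split_ifs
    · exact_mod_cast h0
    · rfl
  have e4 : f (L * q) = 0 := by
    simp only [hf]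
    split_ifs
    · exact hN
    · rfl
  rw [sum_range_succ, e3, e4, zero_add, add_zero] at e2
  rw [e1, ← e2, hf, ← sum_filter]
  refine sum_nbij' (fun m => m / q) (fun h => a + h * q) ?_ ?_ ?_ ?_ ?_
  · intro m hm
    rw [mem_filter, mem_range] at hm
    rw [mem_range]
    exact Nat.div_lt_of_lt_mul (by rw [mul_comm]; exact hm.1)
  · intro h hh
    rw [mem_range] at hh
    rw [mem_filter, mem_range]
    refine ⟨?_, ?_⟩
    · calc a + h * q < q + h * q := by omega
        _ = (h + 1) * q := by ring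
        _ ≤ L * q := Nat.mul_le_mul_right q hh
    · rw [Nat.add_mul_mod_self_right, Nat.mod_eq_of_lt ha]
  · intro m hm
    rw [mem_filter] at hm
    have := Nat.div_add_mod m q
    rw [hm.2] at this
    rw [mul_comm, add_comm]
    exact this
  · intro h _
    rw [Nat.add_mul_div_right _ _ hq, Nat.div_eq_of_lt ha, zero_add]
  · intro m hm
    rw [mem_filter] at hm
    congr 2
    have := Nat.div_add_mod m q
    rw [hm.2] at this
    rw [mul_comm, add_comm]
    exact this.symm

theorem pair_sum (f : ℕ → ℝ) (J : ℕ) :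
    ∑ h ∈ range (2 * J), f h = ∑ h ∈ range J, (f h + f (2 * J - 1 - h)) := by
  rw [two_mul, sum_range_add, ← sum_range_reflect (fun x => f (J + x)) J, ← sum_add_distrib]
  refine sum_congr rfl fun h hh => ?_
  rw [mem_range] at hh
  have : J + (J - 1 - h) = J + J - 1 - h := by omega
  simp only [this]

theorem tent_left (N m : ℕ) (h : 2 * m ≤ N) : tent N (m : ℤ) = m / N := by
  have h1 : (2 * m : ℝ) ≤ N := by exact_mod_cast h
  have h2 : (0 : ℝ) ≤ m := Nat.cast_nonneg _
  unfold tent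
  rw [Int.cast_natCast, min_eq_left (by linarith), max_eq_right h2]

theorem tent_right (N m : ℕ) (h : N ≤ 2 * m) (h' : m ≤ N) :
    tent N (m : ℤ) = ((N : ℝ) - m) / N := by
  have h1 : (N : ℝ) ≤ 2 * m := by exact_mod_cast h
  have h2 : (m : ℝ) ≤ N := by exact_mod_cast h'
  unfold tent
  rw [Int.cast_natCast, min_eq_right (by linarith), max_eq_right (by linarith)]

theorem val_left (J q a h : ℕ) (ha : a < q) (hh : h < J) :
    tent (2 * J * q) ((a + h * q : ℕ) : ℤ) = (a + h * q) / (2 * J * q) := by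
  rw [tent_left]
  · push_cast; ring
  · have : a + h * q ≤ J * q := by
      calc a + h * q ≤ q + h * q := by omega
        _ = (h + 1) * q := by ring
        _ ≤ J * q := Nat.mul_le_mul_right q hh
    calc 2 * (a + h * q) ≤ 2 * (J * q) := Nat.mul_le_mul_left 2 this
      _ = 2 * J * q := by ring

theorem val_right (J q a h : ℕ) (ha : a < q) (hh : h < J) :
    tent (2 * J * q) ((a + (2 * J - 1 - h) * q : ℕ) : ℤ) = ((h + 1) * q - a) / (2 * J * q) := by
  have hle : h + 1 ≤ 2 * J := by omega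
  have e : 2 * J - 1 - h = 2 * J - (h + 1) := by omega
  have e2 : ((2 * J - 1 - h : ℕ) : ℝ) = 2 * J - (h + 1) := by
    rw [e, Nat.cast_sub hle]; push_cast; ring
  have e3 : a + (2 * J - 1 - h) * q + (h + 1) * q = 2 * J * q + a := by
    have : (2 * J - 1 - h) * q + (h + 1) * q = 2 * J * q := by
      rw [← Nat.add_mul]
      congr 1
      omega
    omega
  have e4 : (h + 1) * q ≤ J * q := Nat.mul_le_mul_right q hh
  have e5 : 2 * J * q = J * q + J * q := by ring
  have e6 : q ≤ (h + 1) * q := Nat.le_mul_of_pos_left q (Nat.succ_pos h)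
  rw [tent_right]
  · push_cast [e2]; ring
  · omega
  · omega

end TenAux

open TenAux

theorem cs_tent (J q : ℕ) (hJ : 1 ≤ J) (hq : 1 ≤ q) (a : ℕ) (ha : a < q) :
    cs (tent (2 * J * q)) (2 * J * q) q a = J / 2 := by
  have hJ' : (0 : ℝ) < J := by exact_mod_cast hJ
  have hq' : (0 : ℝ) < q := by exact_mod_cast hq
  rw [cs_range _ (2 * J) q a ha (by unfold tent; simp) (by unfold tent; simp), pair_sum]
  have h1 : ∀ h ∈ range J, (tent (2 * J * q) ((a + h * q : ℕ) : ℤ) +
      tent (2 * J * q) ((a + (2 * J - 1 - h) * q : ℕ) : ℤ)) = (2 * h + 1) / (2 * J) := by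
    intro h hh
    rw [mem_range] at hh
    rw [val_left J q a h ha hh, val_right J q a h ha hh]
    field_simp
    ring
  rw [sum_congr rfl h1, ← sum_div]
  have h2 : ∀ n : ℕ, ∑ h ∈ range n, (2 * (h : ℝ) + 1) = n ^ 2 := by
    intro n
    induction n with
    | zero => simp
    | succ n ih => rw [sum_range_succ, ih]; push_cast; ring
  rw [h2]
  field_simp

theorem cs_tent2 (J q : ℕ) (hJ : 1 ≤ J) (hq : 1 ≤ q) :
    ∃ B₀ : ℝ, ∀ a : ℕ, a < q → |cs (tent2 (2 * J * q)) (2 * J * q) q a - B₀| ≤ 1 := by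
  have hJ' : (1 : ℝ) ≤ J := by exact_mod_cast hJ
  have hq' : (0 : ℝ) < q := by exact_mod_cast hq
  refine ⟨∑ h ∈ range J, (2 * (h : ℝ) ^ 2 + 2 * h) / (4 * J ^ 2), fun a ha => ?_⟩
  rw [cs_range _ (2 * J) q a ha (by unfold tent2 tent; simp) (by unfold tent2 tent; simp),
    pair_sum, ← sum_sub_distrib]
  have h1 : ∀ h ∈ range J, (tent2 (2 * J * q) ((a + h * q : ℕ) : ℤ) +
      tent2 (2 * J * q) ((a + (2 * J - 1 - h) * q : ℕ) : ℤ)) -
      (2 * (h : ℝ) ^ 2 + 2 * h) / (4 * J ^ 2) = (a ^ 2 + (q - a) ^ 2) / (4 * J ^ 2 * q ^ 2) := by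
    intro h hh
    rw [mem_range] at hh
    rw [tent2, tent2, val_left J q a h ha hh, val_right J q a h ha hh]
    field_simp
    ring
  rw [sum_congr rfl h1, sum_const, card_range, nsmul_eq_mul, abs_of_nonneg (by positivity)]
  have ha' : (a : ℝ) ≤ q := by exact_mod_cast ha.le
  have ha0 : (0 : ℝ) ≤ a := Nat.cast_nonneg _
  have h2 : (a : ℝ) ^ 2 + (q - a) ^ 2 ≤ q ^ 2 := by nlinarith
  rw [← mul_div_assoc, div_le_one (by positivity)]
  have h3 : (J : ℝ) * (a ^ 2 + (q - a) ^ 2) ≤ J * q ^ 2 := by gcongr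
  have h4 : (J : ℝ) * q ^ 2 ≤ 4 * J ^ 2 * q ^ 2 := by
    have : (J : ℝ) ≤ 4 * J ^ 2 := by nlinarith
    gcongr
  linarith

/-- at most one multiple of `s` in a class -/
theorem cs_dv_sq (N q s : ℕ) (hq : 1 ≤ q) (hs : s.Prime) (hsq : ¬ s ∣ q) (hH : N / q < s)
    (a : ℕ) : (cs (fun m => tent N m * dv s m) N q a) ^ 2 =
      cs (fun m => tent2 N m * dv s m) N q a := by
  have key : ∀ G : ℤ → ℝ, cs (fun m => G m * dv s m) N q a =
      ∑ m ∈ ((Icc 1 N).filter (fun m => m % q = a)).filter (fun m => s ∣ m), G (m : ℤ) := by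
    intro G
    rw [cs, sum_filter (fun m => s ∣ m)]
    refine sum_congr rfl fun m _ => ?_
    by_cases h : s ∣ m
    · rw [if_pos h, dv, if_pos (by exact_mod_cast h), mul_one]
    · rw [if_neg h, dv, if_neg (by exact_mod_cast h), mul_zero]
  have hNlt : N < s * q := by
    have := Nat.lt_mul_of_div_lt hH (by omega : 0 < q)
    rwa [mul_comm] at this ⊢
  have hcard : (((Icc 1 N).filter (fun m => m % q = a)).filter (fun m => s ∣ m)).card ≤ 1 := by
    rw [card_le_one]
    have main : ∀ x y : ℕ, 1 ≤ x → y ≤ N → x % q = y % q → s ∣ x → s ∣ y → x ≤ y → x = y := by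
      intro x y hx hy hxy hsx hsy hle
      have h1 : q ∣ y - x := (Nat.modEq_iff_dvd' hle).mp hxy
      have h2 : s ∣ y - x := Nat.dvd_sub hsy hsx
      have h3 : s * q ∣ y - x := Nat.Coprime.mul_dvd_of_dvd_of_dvd
        ((Nat.Prime.coprime_iff_not_dvd hs).mpr hsq) h2 h1
      rcases Nat.eq_zero_or_pos (y - x) with h4 | h4
      · omega
      · have := Nat.le_of_dvd h4 h3
        omega
    intro x hx y hy
    simp only [mem_filter, mem_Icc] at hx hy
    rcases le_total x y with h | h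
    · exact main x y hx.1.1.1 hy.1.1.2 (hx.1.2.trans hy.1.2.symm) hx.2 hy.2 h
    · exact (main y x hy.1.1.1 hx.1.1.2 (hy.1.2.trans hx.1.2.symm) hy.2 hx.2 h).symm
  rw [key, key]
  rcases Nat.le_one_iff_eq_zero_or_eq_one.mp hcard with h | h
  · rw [card_eq_zero.mp h]; simp
  · obtain ⟨m, hm⟩ := card_eq_one.mp h
    rw [hm, sum_singleton, sum_singleton]
    rfl

end

end Pool.Agent.M848
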