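import Pool.Agent.Lib.MP_848d44_nt.G.Basic
import Pool.Agent.Lib.MP_848d44_nt.G.Dec
import Pool.Agent.Lib.MP_848d44_nt.G.Ten
import Pool.Agent.Lib.MP_848d44_nt.G.Asd
import Pool.Agent.Lib.MP_848d44_nt.G.BlkG

/-!
# MP_848d44_nt, two-sided omega theorem: pairs of different primes
-/

set_option autoImplicit false

namespace Pool.Agent.M848

open Finset
open scoped ArithmeticFunction ComplexConjugate

noncomputable section

namespace GB

/-- the main part of the class sum of `ws` -/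
def ZR (J N s : ℕ) (n : ℤ) : ℝ := (1 / ((s : ℝ) - 1)) * (J / 2 - tent N n) - (1 / s) * (J / 2)

theorem div_NJ (J q : ℕ) (hq : 1 ≤ q) : 2 * J * q / q = 2 * J := Nat.mul_div_cancel _ hq

theorem ws_dec (J q s : ℕ) (hJ : 1 ≤ J) (hq : 1 ≤ q) (hs : s.Prime) (hsq : ¬ s ∣ q)
    (hH : 2 * J < s) (n : ℕ) (hn : n ∈ Icc 1 (2 * J * q)) (hns : n.Coprime s) :
    ((cs (ws (2 * J * q) s) (2 * J * q) q (n % q) : ℝ) : ℂ) =
      ((ZR J (2 * J * q) s n : ℝ) : ℂ) + YC (tent (2 * J * q)) (2 * J * q) q s n := by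
  have h1 := dec_gen (tent (2 * J * q)) (2 * J * q) q s hq hs hsq
    (by rw [div_NJ J q hq]; exact hH) (fun m hm => tent_zero _ m hm) n hn hns
  have h2 := cs_tent J q hJ hq (n % q) (Nat.mod_lt _ (by omega))
  rw [cs_ws, h2]
  push_cast
  push_cast at h1
  rw [h1, h2]
  unfold ZR
  push_cast
  ring

theorem s_sub (s : ℕ) (hs : s.Prime) : (0 : ℝ) < (s : ℝ) - 1 ∧ (s : ℝ) ≤ 2 * ((s : ℝ) - 1) := by
  have h2 : (2 : ℝ) ≤ s := by exact_mod_cast hs.two_le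
  constructor <;> linarith

theorem inv_sub (s : ℕ) (hs : s.Prime) : 1 / ((s : ℝ) - 1) ≤ 2 / s := by
  obtain ⟨h1, h2⟩ := s_sub s hs
  have h0 : (0 : ℝ) < s := by exact_mod_cast hs.pos
  rw [div_le_div_iff₀ h1 h0]
  linarith

theorem alpha_bound (J s : ℕ) (hs : s.Prime) (hH : 2 * J < s) :
    0 ≤ (1 / ((s : ℝ) - 1)) * (J / 2) - (1 / s) * (J / 2) ∧
      (1 / ((s : ℝ) - 1)) * (J / 2) - (1 / s) * (J / 2) ≤ 1 / (4 * ((s : ℝ) - 1)) := by
  obtain ⟨h1, h2⟩ := s_sub s hs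
  have h0 : (0 : ℝ) < s := by exact_mod_cast hs.pos
  have hJ : 2 * (J : ℝ) ≤ s := by exact_mod_cast hH.le
  have hJ0 : (0 : ℝ) ≤ J := Nat.cast_nonneg J
  have e : (1 / ((s : ℝ) - 1)) * (J / 2) - (1 / s) * (J / 2) = (J / 2) / (s * ((s : ℝ) - 1)) := by
    field_simp
    ring
  rw [e]
  refine ⟨by positivity, ?_⟩
  rw [div_le_div_iff₀ (by positivity) (by positivity)]
  nlinarith

theorem ZR_abs (J N s : ℕ) (hs : s.Prime) (hH : 2 * J < s) (n : ℤ) : |ZR J N s n| ≤ 1 / s := by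
  obtain ⟨h1, h2⟩ := s_sub s hs
  obtain ⟨h3, h4⟩ := alpha_bound J s hs hH
  have h0 : (0 : ℝ) < s := by exact_mod_cast hs.pos
  have ht0 := tent_nonneg N n
  have ht1 := tent_le N n
  have e : ZR J N s n = ((1 / ((s : ℝ) - 1)) * (J / 2) - (1 / s) * (J / 2)) -
      (1 / ((s : ℝ) - 1)) * tent N n := by
    unfold ZR; ring
  have h5 : (1 / ((s : ℝ) - 1)) * tent N n ≤ (1 / ((s : ℝ) - 1)) * (1 / 2) := by gcongr
  have h6 : 0 ≤ (1 / ((s : ℝ) - 1)) * tent N n := by positivity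
  have h7 : (1 / ((s : ℝ) - 1)) * (1 / 2) ≤ 1 / s := by
    have := inv_sub s hs
    have e2 : (2 : ℝ) / s * (1 / 2) = 1 / s := by ring
    calc (1 / ((s : ℝ) - 1)) * (1 / 2) ≤ 2 / s * (1 / 2) := by gcongr
      _ = 1 / s := e2
  have h8 : 1 / (4 * ((s : ℝ) - 1)) ≤ (1 / ((s : ℝ) - 1)) * (1 / 2) := by
    rw [show (1 / ((s : ℝ) - 1)) * (1 / 2) = 1 / (2 * ((s : ℝ) - 1)) by
      field_simp]
    exact one_div_le_one_div_of_le (by positivity) (by linarith)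
  rw [e, abs_le]
  constructor <;> linarith

theorem YC_zero (w : ℤ → ℝ) (N q s n : ℕ) (hs : s.Prime) (h : ¬ n.Coprime s) :
    YC w N q s n = 0 := by
  have hd : s ∣ n := by
    by_contra h2
    exact h (((Nat.Prime.coprime_iff_not_dvd hs).2 h2).symm)
  unfold YC
  rw [sum_eq_zero, mul_zero]
  intro χ hχ
  rw [nc_zero hs hχ n hd, zero_mul]

theorem ws_abs (N s : ℕ) (hs : s.Prime) (m : ℤ) : |ws N s m| ≤ 1 / 2 := by
  unfold ws
  have h0 := tent_nonneg N m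
  have h1 := tent_le N m
  have h2 : |dv s m - 1 / s| ≤ 1 := by
    have hs1 : (1 : ℝ) ≤ s := by exact_mod_cast hs.one_lt.le
    have h3 : 1 / (s : ℝ) ≤ 1 := by rw [div_le_one (by linarith)]; exact hs1
    have h4 : 0 ≤ 1 / (s : ℝ) := by positivity
    obtain ⟨h5, h6⟩ := dv_abs s m
    rw [abs_le]
    constructor <;> linarith
  rw [abs_mul, abs_of_nonneg h0]
  calc tent N m * |dv s m - 1 / s| ≤ 1 / 2 * 1 :=
        mul_le_mul h1 h2 (abs_nonneg _) (by norm_num)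
    _ = 1 / 2 := mul_one _

theorem X_abs (J q s : ℕ) (hq : 1 ≤ q) (hs : s.Prime) (n : ℕ) (hn : n ∈ Icc 1 (2 * J * q)) :
    |cs (ws (2 * J * q) s) (2 * J * q) q (n % q)| ≤ 2 * J + 1 := by
  have h := cs_abs (ws (2 * J * q) s) (2 * J * q) q hq (fun m hm => ws_zero _ s m hm) n hn
    (1 / 2) (ws_abs _ s hs)
  rw [div_NJ J q hq] at h
  push_cast at h
  linarith

/-- the sum of the main and the nonprincipal part is bounded -/
theorem W_abs (J q s : ℕ) (hJ : 1 ≤ J) (hq : 1 ≤ q) (hs : s.Prime) (hsq : ¬ s ∣ q)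
    (hH : 2 * J < s) (n : ℕ) (hn : n ∈ Icc 1 (2 * J * q)) :
    ‖((ZR J (2 * J * q) s n : ℝ) : ℂ) + YC (tent (2 * J * q)) (2 * J * q) q s n‖ ≤ 2 * J + 1 := by
  by_cases hc : n.Coprime s
  · rw [← ws_dec J q s hJ hq hs hsq hH n hn hc, Complex.norm_real, Real.norm_eq_abs]
    exact X_abs J q s hq hs n hn
  · rw [YC_zero _ _ _ s n hs hc, add_zero, Complex.norm_real, Real.norm_eq_abs]
    have h1 := ZR_abs J (2 * J * q) s hs hH n
    have h2 : 1 / (s : ℝ) ≤ 1 := by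
      have hs1 : (1 : ℝ) ≤ s := by exact_mod_cast hs.one_lt.le
      rw [div_le_one (by linarith)]; exact hs1
    have h3 : (0 : ℝ) ≤ J := Nat.cast_nonneg J
    linarith

/-- cross terms -/
theorem cross (J q s s' : ℕ) (hs' : s'.Prime) (hH' : 2 * J < s') (Y : ℕ → ℂ) (N : ℕ) :
    ‖∑ n ∈ Icc 1 N, ((Λ n : ℝ) : ℂ) * (((ZR J N s' n : ℝ) : ℂ) * Y n)‖ ≤
      (2 / (s' : ℝ)) * (‖∑ n ∈ Icc 1 N, ((Λ n : ℝ) : ℂ) * Y n‖ +
        ‖∑ n ∈ Icc 1 N, ((Λ n : ℝ) : ℂ) * (((tent N n : ℝ) : ℂ) * Y n)‖) := by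
  obtain ⟨h1, h2⟩ := s_sub s' hs'
  obtain ⟨h3, h4⟩ := alpha_bound J s' hs' hH'
  have h0 : (0 : ℝ) < s' := by exact_mod_cast hs'.pos
  set α : ℝ := (1 / ((s' : ℝ) - 1)) * (J / 2) - (1 / s') * (J / 2) with hα
  set β : ℝ := 1 / ((s' : ℝ) - 1) with hβ
  have hβ0 : 0 ≤ β := by positivity
  have hβ2 : β ≤ 2 / s' := inv_sub s' hs'
  have hα2 : α ≤ 2 / s' := by
    refine h4.trans (le_trans ?_ hβ2)
    rw [hβ]
    exact one_div_le_one_div_of_le h1 (by linarith)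
  have e : ∑ n ∈ Icc 1 N, ((Λ n : ℝ) : ℂ) * (((ZR J N s' n : ℝ) : ℂ) * Y n) =
      (α : ℂ) * ∑ n ∈ Icc 1 N, ((Λ n : ℝ) : ℂ) * Y n -
      (β : ℂ) * ∑ n ∈ Icc 1 N, ((Λ n : ℝ) : ℂ) * (((tent N n : ℝ) : ℂ) * Y n) := by
    rw [mul_sum, mul_sum, ← sum_sub_distrib]
    refine sum_congr rfl fun n _ => ?_
    have : ZR J N s' n = α - β * tent N n := by
      rw [hα, hβ]; unfold ZR; ring
    rw [this]
    push_cast
    ring
  rw [e]
  refine (norm_sub_le _ _).trans ?_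
  rw [norm_mul, norm_mul, Complex.norm_real, Complex.norm_real, Real.norm_of_nonneg h3,
    Real.norm_of_nonneg hβ0, mul_add]
  gcongr

theorem pair_bound (J q s s' : ℕ) (hJ : 1 ≤ J) (hq : 1 ≤ q) (hs : s.Prime) (hs' : s'.Prime)
    (hsq : ¬ s ∣ q) (hsq' : ¬ s' ∣ q) (hH : 2 * J < s) (hH' : 2 * J < s')
    (hsN : s ≤ 2 * J * q) (hsN' : s' ≤ 2 * J * q) :
    |∑ n ∈ (Icc 1 (2 * J * q)).filter (fun n => n.Coprime q),
      Λ n * (cs (ws (2 * J * q) s) (2 * J * q) q (n % q) *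
        cs (ws (2 * J * q) s') (2 * J * q) q (n % q))| ≤
      T4 (2 * J * q) q s s' + (2 / (s' : ℝ)) * (T1 (2 * J * q) q s + T2 (2 * J * q) q s) +
        (2 / (s : ℝ)) * (T1 (2 * J * q) q s' + T2 (2 * J * q) q s') +
        6 * ((2 * J * q : ℕ) : ℝ) / (s * s') +
        12 * (2 * J + 1) ^ 2 * Real.log ((2 * J * q : ℕ) : ℝ) ^ 2 := by
  set N := 2 * J * q with hN
  have hN1 : 1 ≤ N := by rw [hN]; exact Nat.mul_pos (by omega) hq
  have hqN : q ≤ N := by rw [hN]; exact Nat.le_mul_of_pos_left q (by omega)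
  set f : ℕ → ℂ := fun n => ((cs (ws N s) N q (n % q) : ℝ) : ℂ) *
    ((cs (ws N s') N q (n % q) : ℝ) : ℂ) with hf
  set g : ℕ → ℂ := fun n => (((ZR J N s n : ℝ) : ℂ) + YC (tent N) N q s n) *
    (((ZR J N s' n : ℝ) : ℂ) + YC (tent N) N q s' n) with hg
  have hB0 : (0 : ℝ) ≤ 2 * J + 1 := by positivity
  have htr := transfer N q (s * s') hq (Nat.mul_pos hs.pos hs'.pos) hN1
    (by
      calc q * (s * s') ≤ N * (N * N) := Nat.mul_le_mul hqN (Nat.mul_le_mul hsN hsN')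
        _ = N ^ 3 := by ring) f g ((2 * J + 1) ^ 2)
    (fun n hn hc => by
      have hcs : n.Coprime s := Nat.Coprime.coprime_dvd_right ⟨q * s', by ring⟩ hc
      have hcs' : n.Coprime s' := Nat.Coprime.coprime_dvd_right ⟨q * s, by ring⟩ hc
      simp only [hf, hg]
      rw [ws_dec J q s hJ hq hs hsq hH n hn hcs, ws_dec J q s' hJ hq hs' hsq' hH' n hn hcs'])
    (fun n hn => by
      simp only [hf]
      rw [norm_mul, Complex.norm_real, Complex.norm_real, Real.norm_eq_abs, Real.norm_eq_abs, sq]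
      exact mul_le_mul (X_abs J q s hq hs n hn) (X_abs J q s' hq hs' n hn) (abs_nonneg _) hB0)
    (fun n hn => by
      simp only [hg]
      rw [norm_mul, sq]
      exact mul_le_mul (W_abs J q s hJ hq hs hsq hH n hn) (W_abs J q s' hJ hq hs' hsq' hH' n hn)
        (norm_nonneg _) hB0)
  have e1 : ((∑ n ∈ (Icc 1 N).filter (fun n => n.Coprime q),
      Λ n * (cs (ws N s) N q (n % q) * cs (ws N s') N q (n % q)) : ℝ) : ℂ) =
      ∑ n ∈ (Icc 1 N).filter (fun n => n.Coprime q), ((Λ n : ℝ) : ℂ) * f n := by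
    push_cast
    rfl
  have e2 : ∑ n ∈ Icc 1 N, ((Λ n : ℝ) : ℂ) * g n =
      ∑ n ∈ Icc 1 N, ((Λ n : ℝ) : ℂ) * (YC (tent N) N q s n * YC (tent N) N q s' n) +
      ∑ n ∈ Icc 1 N, ((Λ n : ℝ) : ℂ) * (((ZR J N s' n : ℝ) : ℂ) * YC (tent N) N q s n) +
      ∑ n ∈ Icc 1 N, ((Λ n : ℝ) : ℂ) * (((ZR J N s n : ℝ) : ℂ) * YC (tent N) N q s' n) +
      ∑ n ∈ Icc 1 N, ((Λ n : ℝ) : ℂ) * (((ZR J N s n : ℝ) : ℂ) * ((ZR J N s' n : ℝ) : ℂ)) := by
    rw [← sum_add_distrib, ← sum_add_distrib, ← sum_add_distrib]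
    refine sum_congr rfl fun n _ => ?_
    simp only [hg]
    ring
  have b2 := cross J q s s' hs' hH' (fun n => YC (tent N) N q s n) N
  have b3 := cross J q s' s hs hH (fun n => YC (tent N) N q s' n) N
  have b4 : ‖∑ n ∈ Icc 1 N, ((Λ n : ℝ) : ℂ) * (((ZR J N s n : ℝ) : ℂ) *
      ((ZR J N s' n : ℝ) : ℂ))‖ ≤ 6 * (N : ℝ) / (s * s') := by
    have hs0 : (0 : ℝ) < s := by exact_mod_cast hs.pos
    have hs0' : (0 : ℝ) < s' := by exact_mod_cast hs'.pos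
    have h1 : ∀ n ∈ Icc 1 N, ‖((Λ n : ℝ) : ℂ) * (((ZR J N s n : ℝ) : ℂ) *
      ((ZR J N s' n : ℝ) : ℂ))‖ ≤ Λ n * (1 / s * (1 / s')) := by
      intro n _
      rw [norm_mul, norm_mul, Complex.norm_real, Complex.norm_real, Complex.norm_real,
        Real.norm_of_nonneg (Lam_nonneg n), Real.norm_eq_abs, Real.norm_eq_abs]
      refine mul_le_mul_of_nonneg_left ?_ (Lam_nonneg n)
      exact mul_le_mul (ZR_abs J N s hs hH n) (ZR_abs J N s' hs' hH' n) (abs_nonneg _)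
        (by positivity)
    refine (norm_sum_le _ _).trans ((sum_le_sum h1).trans ?_)
    rw [← sum_mul]
    calc (∑ n ∈ Icc 1 N, (Λ n : ℝ)) * (1 / s * (1 / s')) ≤ (6 * N) * (1 / s * (1 / s')) := by
          have := Off1Aux.psi_bound N
          gcongr
      _ = 6 * (N : ℝ) / (s * s') := by
          field_simp
  have h5 : ‖∑ n ∈ Icc 1 N, ((Λ n : ℝ) : ℂ) * g n‖ ≤
      T4 N q s s' + (2 / (s' : ℝ)) * (T1 N q s + T2 N q s) +
        (2 / (s : ℝ)) * (T1 N q s' + T2 N q s') + 6 * (N : ℝ) / (s * s') := by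
    rw [e2]
    refine (norm_add_le _ _).trans (add_le_add ((norm_add_le _ _).trans (add_le_add
      ((norm_add_le _ _).trans (add_le_add le_rfl b2)) b3)) b4)
  rw [← Real.norm_eq_abs, ← Complex.norm_real, e1]
  have h6 := norm_sub_norm_le (∑ n ∈ (Icc 1 N).filter (fun n => n.Coprime q),
    ((Λ n : ℝ) : ℂ) * f n) (∑ n ∈ Icc 1 N, ((Λ n : ℝ) : ℂ) * g n)
  linarith

end GB

end

end Pool.Agent.M848
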