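import Pool.Agent.Lib.MP_848d44_nt.G.Base
import Pool.Agent.Lib.MP_848d44_nt.L1

/-!
# MP_848d44_nt: the mean value theorem for characters modulo products of two primes (module PAIR)
-/

set_option autoImplicit false

namespace Pool.Agent.M848

open Finset
open scoped ArithmeticFunction ComplexConjugate

noncomputable section

namespace PairAux

open MP848 L1Aux

/-- from characters to exponentials for one prime -/
theorem one_prime {s : ℕ} (hs : s.Prime) (V : Finset ℕ) (c : ℕ → ℂ) :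
    ∑ χ ∈ nc s, ‖∑ v ∈ V, c v * χ v‖ ^ 2 ≤
      ∑ b ∈ Ico 1 s, ‖∑ v ∈ V, c v * ee (v * ((b : ℝ) / s))‖ ^ 2 := by
  have : Fact s.Prime := ⟨hs⟩
  rw [nc_sum_eq (fun χ => ‖∑ v ∈ V, c v * χ v‖ ^ 2)]
  refine (gauss_gen V c).trans (le_of_eq ?_)
  simp_rw [stdAddChar_eq_ee]
  apply Finset.sum_bij (fun (b : ZMod s) _ => b.val)
  · intro b hb
    rw [Finset.mem_Ico]
    refine ⟨?_, ZMod.val_lt b⟩
    rw [Nat.one_le_iff_ne_zero]
    intro h
    exact Finset.ne_of_mem_erase hb ((ZMod.val_eq_zero b).1 h)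
  · intro b _ b' _ h
    exact ZMod.val_injective s h
  · intro b hb
    rw [Finset.mem_Ico] at hb
    refine ⟨(b : ZMod s), ?_, ZMod.val_natCast_of_lt hb.2⟩
    rw [Finset.mem_erase]
    refine ⟨?_, Finset.mem_univ _⟩
    intro h
    have := (ZMod.natCast_eq_zero_iff b s).1 h
    have := Nat.le_of_dvd (by omega) this
    omega
  · intro b _
    rfl

/-- from characters to exponentials for two primes -/
theorem two_primes {s s' : ℕ} (hs : s.Prime) (hs' : s'.Prime) (V : Finset ℕ) (c : ℕ → ℂ) :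
    ∑ χ ∈ nc s, ∑ χ' ∈ nc s', ‖∑ v ∈ V, c v * (χ v * χ' v)‖ ^ 2 ≤
      ∑ b ∈ Ico 1 s, ∑ b' ∈ Ico 1 s',
        ‖∑ v ∈ V, c v * ee (v * ((b : ℝ) / s + (b' : ℝ) / s'))‖ ^ 2 := by
  have h1 : ∀ χ' ∈ nc s', ∑ χ ∈ nc s, ‖∑ v ∈ V, c v * (χ v * χ' v)‖ ^ 2 ≤
      ∑ b ∈ Ico 1 s, ‖∑ v ∈ V, (c v * ee (v * ((b : ℝ) / s))) * χ' v‖ ^ 2 := by
    intro χ' _
    refine le_trans (le_of_eq ?_) ((one_prime hs V (fun v => c v * χ' v)).trans (le_of_eq ?_))
    · refine Finset.sum_congr rfl fun χ _ => ?_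
      congr 2
      refine Finset.sum_congr rfl fun v _ => ?_
      ring
    · refine Finset.sum_congr rfl fun b _ => ?_
      congr 2
      refine Finset.sum_congr rfl fun v _ => ?_
      ring
  rw [Finset.sum_comm]
  refine (Finset.sum_le_sum h1).trans ?_
  rw [Finset.sum_comm]
  refine Finset.sum_le_sum fun b _ => ?_
  refine (one_prime hs' V (fun v => c v * ee (v * ((b : ℝ) / s)))).trans (le_of_eq ?_)
  refine Finset.sum_congr rfl fun b' _ => ?_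
  congr 2
  refine Finset.sum_congr rfl fun v _ => ?_
  rw [mul_add, ee_add]
  ring

/-- the pairs of primes `s < s'` with residues `1 ≤ b < s`, `1 ≤ b' < s'` -/
def prs2 (R R' : ℕ) : Finset (Σ _ : ℕ × ℕ, ℕ × ℕ) :=
  ((PR R ×ˢ PR R').filter (fun p => p.1 < p.2)).sigma fun p => Ico 1 p.1 ×ˢ Ico 1 p.2

theorem mem_prs2 {R R' : ℕ} {p : Σ _ : ℕ × ℕ, ℕ × ℕ} (h : p ∈ prs2 R R') :
    (p.1.1 ≤ 2 * R ∧ p.1.1.Prime) ∧ (p.1.2 ≤ 2 * R' ∧ p.1.2.Prime) ∧ p.1.1 < p.1.2 ∧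
      (1 ≤ p.2.1 ∧ p.2.1 < p.1.1) ∧ (1 ≤ p.2.2 ∧ p.2.2 < p.1.2) := by
  simp only [prs2, Finset.mem_sigma, Finset.mem_filter, Finset.mem_product, PR, Finset.mem_Ioc,
    Finset.mem_Ico] at h
  exact ⟨⟨h.1.1.1.1.2, h.1.1.1.2⟩, ⟨h.1.1.2.1.2, h.1.1.2.2⟩, h.1.2, h.2.1, h.2.2⟩

theorem num_ne {s s' t t' b b' c c' : ℕ} (hs : s.Prime) (hs' : s'.Prime) (ht : t.Prime)
    (ht' : t'.Prime) (hss : s < s') (htt : t < t') (hb : 1 ≤ b ∧ b < s) (hb' : 1 ≤ b' ∧ b' < s')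
    (hc : 1 ≤ c ∧ c < t) (hc' : 1 ≤ c' ∧ c' < t') (n : ℤ)
    (h0 : ((b : ℤ) * s' + b' * s) * (t * t') - (c * t' + c' * t) * (s * s')
      - n * ((s * s') * (t * t')) = 0) : s = t ∧ s' = t' ∧ b = c ∧ b' = c' := by
  have e1 : s ∣ b * s' * (t * t') := by
    have : (s : ℤ) ∣ (b : ℤ) * s' * (t * t') := by
      refine ⟨(c * t' + c' * t) * s' + n * (s' * (t * t')) - b' * (t * t'), ?_⟩
      linear_combination h0
    exact_mod_cast this
  have e2 : s' ∣ b' * s * (t * t') := by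
    have : (s' : ℤ) ∣ (b' : ℤ) * s * (t * t') := by
      refine ⟨(c * t' + c' * t) * s + n * (s * (t * t')) - b * (t * t'), ?_⟩
      linear_combination h0
    exact_mod_cast this
  have d1 : s = t ∨ s = t' := by
    rcases hs.dvd_mul.1 e1 with h | h
    · rcases hs.dvd_mul.1 h with h | h
      · have := Nat.le_of_dvd (by omega) h
        omega
      · have := (Nat.prime_dvd_prime_iff_eq hs hs').1 h
        omega
    · rcases hs.dvd_mul.1 h with h | h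
      · exact Or.inl ((Nat.prime_dvd_prime_iff_eq hs ht).1 h)
      · exact Or.inr ((Nat.prime_dvd_prime_iff_eq hs ht').1 h)
  have d2 : s' = t ∨ s' = t' := by
    rcases hs'.dvd_mul.1 e2 with h | h
    · rcases hs'.dvd_mul.1 h with h | h
      · have := Nat.le_of_dvd (by omega) h
        omega
      · have := (Nat.prime_dvd_prime_iff_eq hs' hs).1 h
        omega
    · rcases hs'.dvd_mul.1 h with h | h
      · exact Or.inl ((Nat.prime_dvd_prime_iff_eq hs' ht).1 h)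
      · exact Or.inr ((Nat.prime_dvd_prime_iff_eq hs' ht').1 h)
  have f1 : s = t := by omega
  have f2 : s' = t' := by omega
  subst f1
  subst f2
  have hpos : ((s : ℤ) * s') ≠ 0 := by
    have h1 := hs.pos
    have h2 := hs'.pos
    positivity
  have h1 : ((b : ℤ) - c) * s' + (b' - c') * s - n * (s * s') = 0 := by
    have h2 : ((s : ℤ) * s') * (((b : ℤ) - c) * s' + (b' - c') * s - n * (s * s')) = 0 := by
      linear_combination h0
    rcases mul_eq_zero.1 h2 with h | h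
    · exact absurd h hpos
    · exact h
  have hcop : IsCoprime (s : ℤ) s' := by
    rw [Nat.isCoprime_iff_coprime]
    exact (Nat.coprime_primes hs hs').2 (by omega)
  have g1 : (s : ℤ) ∣ (b : ℤ) - c := by
    refine hcop.dvd_of_dvd_mul_right ?_
    refine ⟨n * s' - (b' - c'), ?_⟩
    linear_combination h1
  have g2 : (s' : ℤ) ∣ (b' : ℤ) - c' := by
    refine hcop.symm.dvd_of_dvd_mul_right ?_
    refine ⟨n * s - (b - c), ?_⟩
    linear_combination h1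
  have k1 : (b : ℤ) - c = 0 := by
    apply Int.eq_zero_of_abs_lt_dvd g1
    rw [abs_lt]
    constructor <;> omega
  have k2 : (b' : ℤ) - c' = 0 := by
    apply Int.eq_zero_of_abs_lt_dvd g2
    rw [abs_lt]
    constructor <;> omega
  exact ⟨rfl, rfl, by omega, by omega⟩

theorem prs2_spaced {R R' : ℕ} (hR : 1 ≤ R) (hR' : 1 ≤ R') (p q : Σ _ : ℕ × ℕ, ℕ × ℕ)
    (hp : p ∈ prs2 R R') (hq : q ∈ prs2 R R') (hpq : p ≠ q) :
    1 / (16 * ((R : ℝ) * R') ^ 2) ≤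
      dni (((p.2.1 : ℝ) / p.1.1 + (p.2.2 : ℝ) / p.1.2) -
        ((q.2.1 : ℝ) / q.1.1 + (q.2.2 : ℝ) / q.1.2)) := by
  obtain ⟨⟨s, s'⟩, ⟨b, b'⟩⟩ := p
  obtain ⟨⟨t, t'⟩, ⟨c, c'⟩⟩ := q
  obtain ⟨⟨h1, h2⟩, ⟨h3, h4⟩, h5, h6, h7⟩ := mem_prs2 hp
  obtain ⟨⟨g1, g2⟩, ⟨g3, g4⟩, g5, g6, g7⟩ := mem_prs2 hq
  simp only at h1 h2 h3 h4 h5 h6 h7 g1 g2 g3 g4 g5 g6 g7 ⊢
  set n := round (((b : ℝ) / s + (b' : ℝ) / s') - ((c : ℝ) / t + (c' : ℝ) / t')) with hn
  have hs0 : (0 : ℝ) < s := by exact_mod_cast h2.pos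
  have hs0' : (0 : ℝ) < s' := by exact_mod_cast h4.pos
  have ht0 : (0 : ℝ) < t := by exact_mod_cast g2.pos
  have ht0' : (0 : ℝ) < t' := by exact_mod_cast g4.pos
  have hR0 : (0 : ℝ) < R := by exact_mod_cast hR
  have hR0' : (0 : ℝ) < R' := by exact_mod_cast hR'
  have e1 : ((b : ℝ) / s + (b' : ℝ) / s') - ((c : ℝ) / t + (c' : ℝ) / t') - n =
      ((((b : ℤ) * s' + b' * s) * (t * t') - (c * t' + c' * t) * (s * s')
      - n * ((s * s') * (t * t')) : ℤ) : ℝ) / ((s * s') * (t * t')) := by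
    push_cast
    field_simp
  have hne : (((b : ℤ) * s' + b' * s) * (t * t') - (c * t' + c' * t) * (s * s')
      - n * ((s * s') * (t * t')) : ℤ) ≠ 0 := by
    intro h0
    obtain ⟨k1, k2, k3, k4⟩ := num_ne h2 h4 g2 g4 h5 g5 h6 h7 g6 g7 n h0
    apply hpq
    subst k1
    subst k2
    subst k3
    subst k4
    rfl
  have habs : (1 : ℝ) ≤ |((((b : ℤ) * s' + b' * s) * (t * t') - (c * t' + c' * t) * (s * s')
      - n * ((s * s') * (t * t')) : ℤ) : ℝ)| := by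
    rw [← Int.cast_abs]
    exact_mod_cast Int.one_le_abs hne
  have e2 : dni (((b : ℝ) / s + (b' : ℝ) / s') - ((c : ℝ) / t + (c' : ℝ) / t')) =
      |((((b : ℤ) * s' + b' * s) * (t * t') - (c * t' + c' * t) * (s * s')
      - n * ((s * s') * (t * t')) : ℤ) : ℝ)| / ((s * s') * (t * t')) := by
    rw [dni, ← hn, e1, abs_div, abs_of_pos (mul_pos (mul_pos hs0 hs0') (mul_pos ht0 ht0'))]
  rw [e2, div_le_div_iff₀ (by positivity) (by positivity), one_mul]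
  have k1 : (s : ℝ) ≤ 2 * R := by exact_mod_cast h1
  have k2 : (s' : ℝ) ≤ 2 * R' := by exact_mod_cast h3
  have k3 : (t : ℝ) ≤ 2 * R := by exact_mod_cast g1
  have k4 : (t' : ℝ) ≤ 2 * R' := by exact_mod_cast g3
  calc (s : ℝ) * s' * (t * t') ≤ (2 * R) * (2 * R') * ((2 * R) * (2 * R')) := by gcongr
    _ = 1 * (16 * ((R : ℝ) * R') ^ 2) := by ring
    _ ≤ _ := by gcongr

/-- additive large sieve for the fractions whose denominators are products of two primes -/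
theorem ls_prs2 {R R' : ℕ} (hR : 1 ≤ R) (hR' : 1 ≤ R') (c : ℕ → ℂ) (a T : ℕ) :
    ∑ p ∈ (PR R ×ˢ PR R').filter (fun p => p.1 < p.2), ∑ χ ∈ nc p.1, ∑ χ' ∈ nc p.2,
        ‖∑ v ∈ Ioc a (a + T), c v * (χ v * χ' v)‖ ^ 2 ≤
      (T + 16 * ((R : ℝ) * R') ^ 2 * (1 + Real.log (16 * ((R : ℝ) * R') ^ 2))) *
        ∑ v ∈ Ioc a (a + T), ‖c v‖ ^ 2 := by
  classical
  have hR0 : (1 : ℝ) ≤ R := by exact_mod_cast hR
  have hR0' : (1 : ℝ) ≤ R' := by exact_mod_cast hR'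
  have hX : (1 : ℝ) ≤ (R : ℝ) * R' := by nlinarith
  have h1 := add_large_sieve (ι := {p // p ∈ prs2 R R'})
    (fun p => (p.1.2.1 : ℝ) / p.1.1.1 + (p.1.2.2 : ℝ) / p.1.1.2)
    (1 / (16 * ((R : ℝ) * R') ^ 2)) (by positivity)
    (by rw [div_le_one (by positivity)]; nlinarith)
    (fun i j hij => prs2_spaced hR hR' i.1 j.1 i.2 j.2 (fun h => hij (Subtype.ext h))) c a T
  have e1 : ∑ i : {p // p ∈ prs2 R R'}, ‖∑ v ∈ Ioc a (a + T), c v *
      ee (v * ((i.1.2.1 : ℝ) / i.1.1.1 + (i.1.2.2 : ℝ) / i.1.1.2))‖ ^ 2 =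
      ∑ p ∈ (PR R ×ˢ PR R').filter (fun p => p.1 < p.2), ∑ b ∈ Ico 1 p.1, ∑ b' ∈ Ico 1 p.2,
        ‖∑ v ∈ Ioc a (a + T), c v * ee (v * ((b : ℝ) / p.1 + (b' : ℝ) / p.2))‖ ^ 2 := by
    rw [Finset.sum_coe_sort (prs2 R R') (fun p : Σ _ : ℕ × ℕ, ℕ × ℕ =>
      ‖∑ v ∈ Ioc a (a + T), c v * ee (v * ((p.2.1 : ℝ) / p.1.1 + (p.2.2 : ℝ) / p.1.2))‖ ^ 2),
      prs2, Finset.sum_sigma]
    refine Finset.sum_congr rfl fun p _ => ?_
    rw [Finset.sum_product]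
  rw [e1] at h1
  have h2 : ∑ p ∈ (PR R ×ˢ PR R').filter (fun p => p.1 < p.2), ∑ χ ∈ nc p.1, ∑ χ' ∈ nc p.2,
        ‖∑ v ∈ Ioc a (a + T), c v * (χ v * χ' v)‖ ^ 2 ≤
      ∑ p ∈ (PR R ×ˢ PR R').filter (fun p => p.1 < p.2), ∑ b ∈ Ico 1 p.1, ∑ b' ∈ Ico 1 p.2,
        ‖∑ v ∈ Ioc a (a + T), c v * ee (v * ((b : ℝ) / p.1 + (b' : ℝ) / p.2))‖ ^ 2 := by
    refine Finset.sum_le_sum fun p hp => ?_
    rw [Finset.mem_filter, Finset.mem_product, PR, PR, Finset.mem_filter, Finset.mem_filter] at hp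
    exact two_primes hp.1.1.2 hp.1.2.2 _ c
  refine h2.trans ?_
  simpa only [one_div, inv_inv] using h1

theorem nc_sub_ac {s : ℕ} {χ : ℕ → ℂ} (h : χ ∈ nc s) : χ ∈ ac s := by
  classical
  rw [nc] at h
  rw [ac]
  split_ifs at h ⊢ with hs
  · exact h
  · rw [Finset.mem_image] at h ⊢
    obtain ⟨χ₀, _, h2⟩ := h
    exact ⟨χ₀, Finset.mem_univ _, h2⟩

/-- the index set of the family -/
def idx (R R' : ℕ) : Finset (Σ _ : ℕ × ℕ, (ℕ → ℂ) × (ℕ → ℂ)) :=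
  ((PR R ×ˢ PR R').filter (fun p => p.1 < p.2)).sigma fun p => nc p.1 ×ˢ nc p.2

theorem mem_idx {R R' : ℕ} {p : Σ _ : ℕ × ℕ, (ℕ → ℂ) × (ℕ → ℂ)} (h : p ∈ idx R R') :
    (p.1.1 ≤ 2 * R ∧ p.1.1.Prime) ∧ (p.1.2 ≤ 2 * R' ∧ p.1.2.Prime) ∧ p.1.1 < p.1.2 ∧
      p.2.1 ∈ nc p.1.1 ∧ p.2.2 ∈ nc p.1.2 := by
  simp only [idx, Finset.mem_sigma, Finset.mem_filter, Finset.mem_product, PR,
    Finset.mem_Ioc] at h
  exact ⟨⟨h.1.1.1.1.2, h.1.1.1.2⟩, ⟨h.1.1.2.1.2, h.1.1.2.2⟩, h.1.2, h.2.1, h.2.2⟩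

theorem sum_idx {R R' : ℕ} (g : (ℕ → ℂ) → (ℕ → ℂ) → ℝ) :
    ∑ i : {p // p ∈ idx R R'}, g i.1.2.1 i.1.2.2 =
      ∑ p ∈ (PR R ×ˢ PR R').filter (fun p => p.1 < p.2), ∑ χ ∈ nc p.1, ∑ χ' ∈ nc p.2, g χ χ' := by
  rw [Finset.sum_coe_sort (idx R R') (fun p : Σ _ : ℕ × ℕ, (ℕ → ℂ) × (ℕ → ℂ) => g p.2.1 p.2.2),
    idx, Finset.sum_sigma]
  refine Finset.sum_congr rfl fun p _ => ?_
  rw [Finset.sum_product]

theorem card_PR_le (R : ℕ) : ((PR R).card : ℝ) ≤ R := by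
  have h : (PR R).card ≤ R := by
    refine (Finset.card_filter_le _ _).trans ?_
    rw [Nat.card_Ioc]
    omega
  exact_mod_cast h

theorem card_idx2 (R R' : ℕ) :
    (Fintype.card {p // p ∈ idx R R'} : ℝ) ≤ 4 * ((R : ℝ) * R') ^ 2 := by
  rw [Fintype.card_coe, idx, Finset.card_sigma]
  push_cast
  calc ∑ p ∈ (PR R ×ˢ PR R').filter (fun p => p.1 < p.2), ((nc p.1 ×ˢ nc p.2).card : ℝ)
      ≤ ∑ p ∈ (PR R ×ˢ PR R').filter (fun p => p.1 < p.2), (2 * (R : ℝ)) * (2 * R') := by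
        refine Finset.sum_le_sum fun p hp => ?_
        rw [Finset.mem_filter, Finset.mem_product, PR, PR, Finset.mem_filter, Finset.mem_filter,
          Finset.mem_Ioc, Finset.mem_Ioc] at hp
        rw [Finset.card_product]
        push_cast
        have h1 : ((nc p.1).card : ℝ) ≤ 2 * R :=
          (nc_card_le hp.1.1.2).trans (by exact_mod_cast hp.1.1.1.2)
        have h2 : ((nc p.2).card : ℝ) ≤ 2 * R' :=
          (nc_card_le hp.1.2.2).trans (by exact_mod_cast hp.1.2.1.2)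
        gcongr
    _ = (((PR R ×ˢ PR R').filter (fun p => p.1 < p.2)).card : ℝ) * ((2 * (R : ℝ)) * (2 * R')) := by
        rw [Finset.sum_const, nsmul_eq_mul]
    _ ≤ ((R : ℝ) * R') * ((2 * (R : ℝ)) * (2 * R')) := by
        gcongr
        have h3 : (((PR R ×ˢ PR R').filter (fun p => p.1 < p.2)).card : ℝ) ≤
            ((PR R ×ˢ PR R').card : ℝ) := by
          exact_mod_cast Finset.card_filter_le _ _
        refine h3.trans ?_
        rw [Finset.card_product]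
        push_cast
        have h1 := card_PR_le R
        have h2 := card_PR_le R'
        gcongr
    _ = 4 * ((R : ℝ) * R') ^ 2 := by ring

/-- `s √s' ≤ (s s')^(3/4)` for `s ≤ s'` -/
theorem sqrt_bound {s s' : ℝ} (hs : 0 < s) (hss : s ≤ s') :
    s * Real.sqrt s' ≤ (s * s') ^ ((3 : ℝ) / 4) := by
  have hs' : 0 < s' := lt_of_lt_of_le hs hss
  rw [Real.mul_rpow hs.le hs'.le, Real.sqrt_eq_rpow]
  have e1 : s = s ^ ((3 : ℝ) / 4) * s ^ ((1 : ℝ) / 4) := by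
    rw [← Real.rpow_add hs]
    norm_num
  have e2 : s' ^ ((3 : ℝ) / 4) = s' ^ ((1 : ℝ) / 4) * s' ^ ((1 : ℝ) / 2) := by
    rw [← Real.rpow_add hs']
    norm_num
  calc s * s' ^ ((1 : ℝ) / 2) = s ^ ((3 : ℝ) / 4) * s ^ ((1 : ℝ) / 4) * s' ^ ((1 : ℝ) / 2) := by
        rw [← e1]
    _ ≤ s ^ ((3 : ℝ) / 4) * s' ^ ((1 : ℝ) / 4) * s' ^ ((1 : ℝ) / 2) := by
        have h3 : s ^ ((1 : ℝ) / 4) ≤ s' ^ ((1 : ℝ) / 4) :=
          Real.rpow_le_rpow hs.le hss (by norm_num)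
        gcongr
    _ = s ^ ((3 : ℝ) / 4) * s' ^ ((3 : ℝ) / 4) := by
        rw [e2]
        ring

theorem fam_pair {R R' : ℕ} (hR : 1 ≤ R) (hR' : 1 ≤ R') :
    Fam (ι := {p // p ∈ idx R R'}) (fun i n => i.1.2.1 n * i.1.2.2 n)
      (1 + Real.log (16 * ((R : ℝ) * R') ^ 2)) (16 * ((R : ℝ) * R') ^ 2)
      ((4 * ((R : ℝ) * R')) ^ ((3 : ℝ) / 4) * (1 + Real.log (4 * ((R : ℝ) * R')))) := by
  have hR0 : (1 : ℝ) ≤ R := by exact_mod_cast hR
  have hR0' : (1 : ℝ) ≤ R' := by exact_mod_cast hR'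
  have hX : (1 : ℝ) ≤ (R : ℝ) * R' := by nlinarith
  have hlog4 : 0 ≤ Real.log (16 * ((R : ℝ) * R') ^ 2) := Real.log_nonneg (by nlinarith)
  have hlog2 : 0 ≤ Real.log (4 * ((R : ℝ) * R')) := Real.log_nonneg (by linarith)
  refine ⟨?_, ?_, ?_, ?_, by linarith, by positivity, ?_⟩
  · intro i m n
    obtain ⟨-, -, -, h1, h2⟩ := mem_idx i.2
    rw [nc_map h1, nc_map h2]
    ring
  · intro i n
    obtain ⟨-, -, -, h1, h2⟩ := mem_idx i.2
    rw [norm_mul]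
    calc ‖i.1.2.1 n‖ * ‖i.1.2.2 n‖ ≤ 1 * 1 :=
          mul_le_mul (nc_norm h1 n) (nc_norm h2 n) (norm_nonneg _) zero_le_one
      _ = 1 := one_mul 1
  · intro c a T
    rw [sum_idx (R := R) (R' := R')
      (fun χ χ' => ‖∑ v ∈ Ioc a (a + T), c v * (χ v * χ' v)‖ ^ 2)]
    refine (ls_prs2 hR hR' c a T).trans ?_
    have h4 : (T : ℝ) + 16 * ((R : ℝ) * R') ^ 2 * (1 + Real.log (16 * ((R : ℝ) * R') ^ 2)) ≤
        (1 + Real.log (16 * ((R : ℝ) * R') ^ 2)) * (16 * ((R : ℝ) * R') ^ 2 + T) := by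
      nlinarith [mul_nonneg hlog4 (Nat.cast_nonneg (α := ℝ) T)]
    exact mul_le_mul_of_nonneg_right h4 (Finset.sum_nonneg fun v _ => by positivity)
  · intro i z
    obtain ⟨⟨h1, h2⟩, ⟨h3, h4⟩, h5, h6, h7⟩ := mem_idx i.2
    have h8 : ¬ i.1.1.2 ∣ i.1.1.1 := fun h => by
      have := Nat.le_of_dvd h2.pos h
      omega
    have h9 := pvt h4 h7 h2.one_lt.le h8 (nc_sub_ac h6) z
    have e : Ioc 0 z = Icc 1 z := by
      ext r
      simp only [Finset.mem_Ioc, Finset.mem_Icc]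
      omega
    rw [e]
    have e2 : ∑ r ∈ Icc 1 z, i.1.2.1 r * i.1.2.2 r = ∑ r ∈ Icc 1 z, i.1.2.2 r * i.1.2.1 r :=
      Finset.sum_congr rfl fun r _ => mul_comm _ _
    rw [e2]
    refine h9.trans ?_
    have hs0 : (0 : ℝ) < i.1.1.1 := by exact_mod_cast h2.pos
    have hs0' : (0 : ℝ) < i.1.1.2 := by exact_mod_cast h4.pos
    have hs1 : (i.1.1.1 : ℝ) ≤ 2 * R := by exact_mod_cast h1
    have hs1' : (i.1.1.2 : ℝ) ≤ 2 * R' := by exact_mod_cast h3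
    have hss : (i.1.1.1 : ℝ) ≤ i.1.1.2 := by exact_mod_cast h5.le
    have hs2 : (i.1.1.2 : ℝ) ≤ 4 * ((R : ℝ) * R') := by nlinarith
    have hls : Real.log (i.1.1.2 : ℝ) ≤ Real.log (4 * ((R : ℝ) * R')) := Real.log_le_log hs0' hs2
    have hls0 : 0 ≤ Real.log (i.1.1.2 : ℝ) := Real.log_natCast_nonneg _
    have h10 := sqrt_bound hs0 hss
    have h11 : ((i.1.1.1 : ℝ) * i.1.1.2) ^ ((3 : ℝ) / 4) ≤
        (4 * ((R : ℝ) * R')) ^ ((3 : ℝ) / 4) := by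
      refine Real.rpow_le_rpow (by positivity) ?_ (by norm_num)
      calc (i.1.1.1 : ℝ) * i.1.1.2 ≤ (2 * R) * (2 * R') := by gcongr
        _ = 4 * ((R : ℝ) * R') := by ring
    rw [← mul_assoc]
    gcongr
    exact h10.trans h11
  · have h1 : 1 ≤ (4 * ((R : ℝ) * R')) ^ ((3 : ℝ) / 4) :=
      Real.one_le_rpow (by linarith) (by norm_num)
    nlinarith

theorem pair_lt (δ : ℝ) (hδ : 0 < δ) (N R R' y : ℕ) (hR : 1 ≤ R) (hR' : 1 ≤ R')
    (hXN : (R * R') ^ 5 ≤ N ^ 2) (hy : y ≤ N) :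
    ∑ p ∈ (PR R ×ˢ PR R').filter (fun p => p.1 < p.2), ∑ χ ∈ nc p.1, ∑ χ' ∈ nc p.2,
      ‖SL (fun n => χ n * χ' n) y‖ ≤
      1100 * ((1 + 6 / δ) ^ 6 * (N : ℝ) ^ δ) *
        (N + (N : ℝ) ^ ((9 : ℝ) / 10) * ((R : ℝ) * R')) := by
  have hN1 : 1 ≤ N := by
    by_contra h
    have h0 : N = 0 := by omega
    subst h0
    have h1 : 0 < (R * R') ^ 5 := by positivity
    simp at hXN
    omega
  -- the parameter U
  obtain ⟨U, hUN, hNU⟩ : ∃ U : ℕ, U ^ 5 ≤ N ∧ N < (U + 1) ^ 5 := by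
    refine ⟨Nat.findGreatest (fun u => u ^ 5 ≤ N) N, ?_, ?_⟩
    · exact Nat.findGreatest_spec (P := fun u => u ^ 5 ≤ N) (Nat.zero_le N) (by simp)
    · by_contra h
      rw [not_lt] at h
      have h1 : Nat.findGreatest (fun u => u ^ 5 ≤ N) N + 1 ≤ N :=
        (Nat.le_self_pow (by norm_num) _).trans h
      have := Nat.le_findGreatest (P := fun u => u ^ 5 ≤ N) h1 h
      omega
  have hU1 : 1 ≤ U := by
    by_contra h
    have h0 : U = 0 := by omega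
    subst h0
    simp at hNU
    omega
  have hUN3 : U ^ 3 ≤ N := (Nat.pow_le_pow_right hU1 (by norm_num)).trans hUN
  have hmain := (fam_pair hR hR').l1 N U y hU1 hUN3 hy
  have e : Ioc 0 y = Icc 1 y := by
    ext r
    simp only [Finset.mem_Ioc, Finset.mem_Icc]
    omega
  rw [e, sum_idx (R := R) (R' := R') (fun χ χ' => ‖∑ n ∈ Icc 1 y,
    ((ArithmeticFunction.vonMangoldt n : ℝ) : ℂ) * (χ n * χ' n)‖)] at hmain
  refine le_trans (le_of_eq rfl) (hmain.trans ?_)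
  -- real variables
  have hn : (1 : ℝ) ≤ N := by exact_mod_cast hN1
  set X : ℝ := (R : ℝ) * R' with hX
  have hR0 : (1 : ℝ) ≤ R := by exact_mod_cast hR
  have hR0' : (1 : ℝ) ≤ R' := by exact_mod_cast hR'
  have hX1 : 1 ≤ X := by nlinarith
  set a : ℝ := (N : ℝ) ^ ((1 : ℝ) / 20) with ha
  have ha1 : 1 ≤ a := Real.one_le_rpow hn (by norm_num)
  have ha20 : (N : ℝ) = a ^ 20 := by
    rw [ha, ← Real.rpow_natCast, ← Real.rpow_mul (by linarith)]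
    norm_num
  have ha18 : (N : ℝ) ^ ((9 : ℝ) / 10) = a ^ 18 := by
    rw [ha, ← Real.rpow_natCast, ← Real.rpow_mul (by linarith)]
    norm_num
  have ha10 : Real.sqrt N = a ^ 10 := by
    rw [ha20, show a ^ 20 = (a ^ 10) ^ 2 by ring]
    exact Real.sqrt_sq (by positivity)
  have hXa : X ≤ a ^ 8 := by
    have h1 : X ^ 5 ≤ (a ^ 8) ^ 5 := by
      have h2 : (a ^ 8) ^ 5 = (N : ℝ) ^ 2 := by rw [ha20]; ring
      rw [h2, hX]
      exact_mod_cast hXN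
    exact le_of_pow_le_pow_left₀ (by norm_num) (by positivity) h1
  have hUr : (1 : ℝ) ≤ U := by exact_mod_cast hU1
  have hUa : (U : ℝ) ≤ a ^ 4 := by
    have h1 : (U : ℝ) ^ 5 ≤ (a ^ 4) ^ 5 := by
      rw [← pow_mul, ← ha20]
      exact_mod_cast hUN
    exact le_of_pow_le_pow_left₀ (by norm_num) (by positivity) h1
  have hUa' : a ^ 4 ≤ 2 * U := by
    have h1 : (a ^ 4) ^ 5 ≤ (2 * (U : ℝ)) ^ 5 := by
      rw [← pow_mul, ← ha20]
      have h2 : (N : ℝ) ≤ ((U : ℝ) + 1) ^ 5 := by exact_mod_cast hNU.le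
      refine h2.trans (pow_le_pow_left₀ (by positivity) (by linarith) 5)
    exact le_of_pow_le_pow_left₀ (by norm_num) (by positivity) h1
  have hlog : 0 ≤ Real.log N := Real.log_natCast_nonneg N
  set L : ℝ := 1 + Real.log N with hL
  have hL1 : 1 ≤ L := by linarith
  have hXN' : X ≤ N := by
    rw [ha20]
    exact hXa.trans (pow_le_pow_right₀ ha1 (by norm_num))
  have hlogX : Real.log X ≤ Real.log N := Real.log_le_log (by linarith) hXN'
  have hlogX0 : 0 ≤ Real.log X := Real.log_nonneg hX1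
  have hlog4 : 1 + Real.log (4 * X) ≤ 3 * L := by
    rw [Real.log_mul (by norm_num) (by linarith), show (4 : ℝ) = 2 ^ 2 by norm_num, Real.log_pow]
    have := Real.log_two_lt_d9
    push_cast
    linarith
  have hlog16 : 1 + Real.log (16 * X ^ 2) ≤ 4 * L := by
    rw [Real.log_mul (by norm_num) (by positivity), Real.log_pow,
      show (16 : ℝ) = 2 ^ 4 by norm_num, Real.log_pow]
    have := Real.log_two_lt_d9
    push_cast
    linarith
  have hlog40 : 0 ≤ Real.log (4 * X) := Real.log_nonneg (by linarith)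
  have hlog160 : 0 ≤ Real.log (16 * X ^ 2) := Real.log_nonneg (by nlinarith)
  have hlev : (lev N : ℝ) ≤ 2 * L := lev_le N
  have hlev0 : (0 : ℝ) ≤ lev N := Nat.cast_nonneg _
  -- the logarithms
  have hLpow : L ^ 6 ≤ (1 + 6 / δ) ^ 6 * (N : ℝ) ^ δ := by
    have h1 : Real.log N ≤ (N : ℝ) ^ (δ / 6) / (δ / 6) :=
      Real.log_le_rpow_div (by linarith) (by positivity)
    have h2 : (1 : ℝ) ≤ (N : ℝ) ^ (δ / 6) := Real.one_le_rpow hn (by positivity)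
    have h3 : L ≤ (1 + 6 / δ) * (N : ℝ) ^ (δ / 6) := by
      have e : (N : ℝ) ^ (δ / 6) / (δ / 6) = 6 / δ * (N : ℝ) ^ (δ / 6) := by
        field_simp
      rw [e] at h1
      rw [add_mul, one_mul]
      linarith
    have h4 : L ^ 6 ≤ ((1 + 6 / δ) * (N : ℝ) ^ (δ / 6)) ^ 6 :=
      pow_le_pow_left₀ (by linarith) h3 6
    refine h4.trans (le_of_eq ?_)
    rw [mul_pow, ← Real.rpow_natCast ((N : ℝ) ^ (δ / 6)) 6, ← Real.rpow_mul (by linarith)]
    congr 2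
    push_cast
    ring
  -- the first term
  have hP : (4 * X) ^ ((3 : ℝ) / 4) ≤ 3 * a ^ 6 := by
    have h1 : ((4 * X) ^ ((3 : ℝ) / 4)) ^ 4 ≤ (3 * a ^ 6) ^ 4 := by
      rw [← Real.rpow_natCast ((4 * X) ^ ((3 : ℝ) / 4)) 4, ← Real.rpow_mul (by positivity)]
      have e3 : ((3 : ℝ) / 4 * (4 : ℕ)) = (3 : ℕ) := by norm_num
      rw [e3, Real.rpow_natCast]
      calc (4 * X) ^ 3 ≤ (4 * a ^ 8) ^ 3 := by gcongr
        _ = 64 * a ^ 24 := by ring
        _ ≤ 81 * a ^ 24 := by gcongr; norm_num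
        _ = (3 * a ^ 6) ^ 4 := by ring
    exact le_of_pow_le_pow_left₀ (by norm_num) (by positivity) h1
  have hA : (Fintype.card {p // p ∈ idx R R'} : ℝ) *
      (4 * (U * ((4 * X) ^ ((3 : ℝ) / 4) * (1 + Real.log (4 * X)) * Real.log N))) ≤
      144 * L ^ 6 * (a ^ 18 * X) := by
    have hc : (Fintype.card {p // p ∈ idx R R'} : ℝ) ≤ 4 * X ^ 2 := card_idx2 R R'
    have hp0 : 0 ≤ (4 * X) ^ ((3 : ℝ) / 4) := by positivity
    calc (Fintype.card {p // p ∈ idx R R'} : ℝ) *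
        (4 * (U * ((4 * X) ^ ((3 : ℝ) / 4) * (1 + Real.log (4 * X)) * Real.log N)))
        ≤ (4 * X ^ 2) * (4 * (a ^ 4 * ((3 * a ^ 6) * (3 * L) * L))) := by
          gcongr
          linarith
      _ = 144 * L ^ 2 * (a ^ 10 * X * X) := by ring
      _ ≤ 144 * L ^ 6 * (a ^ 10 * X * a ^ 8) := by
          gcongr
          norm_num
      _ = 144 * L ^ 6 * (a ^ 18 * X) := by ring
  -- the second term
  have hE : Real.sqrt N * (16 * X ^ 2) + 2 * (N * Real.sqrt (16 * X ^ 2 / U)) + N ≤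
      N + 28 * (a ^ 18 * X) := by
    have h1 : Real.sqrt N * (16 * X ^ 2) ≤ 16 * (a ^ 18 * X) := by
      rw [ha10]
      calc a ^ 10 * (16 * X ^ 2) = 16 * (a ^ 10 * X * X) := by ring
        _ ≤ 16 * (a ^ 10 * X * a ^ 8) := by gcongr
        _ = 16 * (a ^ 18 * X) := by ring
    have h2 : Real.sqrt (16 * X ^ 2 / U) ≤ 6 * X / a ^ 2 := by
      rw [Real.sqrt_le_left (by positivity), div_pow, div_le_div_iff₀ (by linarith) (by positivity)]
      have h0 : 0 ≤ X ^ 2 * U := by positivity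
      calc 16 * X ^ 2 * (a ^ 2) ^ 2 = 16 * X ^ 2 * a ^ 4 := by ring
        _ ≤ 16 * X ^ 2 * (2 * U) := by gcongr
        _ ≤ (6 * X) ^ 2 * U := by nlinarith
    have h3 : 2 * (N * Real.sqrt (16 * X ^ 2 / U)) ≤ 12 * (a ^ 18 * X) := by
      calc 2 * (N * Real.sqrt (16 * X ^ 2 / U)) ≤ 2 * (N * (6 * X / a ^ 2)) := by gcongr
        _ = 12 * (a ^ 18 * X) := by
            rw [ha20]
            field_simp
            ring
    linarith
  have hE0 : 0 ≤ Real.sqrt N * (16 * X ^ 2) + 2 * (N * Real.sqrt (16 * X ^ 2 / U)) + N := by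
    positivity
  have hB : 2 * ((lev N : ℝ) * (lev N * ((1 + Real.log (16 * X ^ 2)) * ((1 + Real.log N) ^ 3 *
      (Real.sqrt N * (16 * X ^ 2) + 2 * (N * Real.sqrt (16 * X ^ 2 / U)) + N))))) ≤
      32 * L ^ 6 * (N + 28 * (a ^ 18 * X)) := by
    calc _ ≤ 2 * ((2 * L) * ((2 * L) * ((4 * L) * (L ^ 3 * (N + 28 * (a ^ 18 * X)))))) := by
          gcongr
      _ = 32 * L ^ 6 * (N + 28 * (a ^ 18 * X)) := by ring
  rw [ha18]
  have hR5 : 0 ≤ a ^ 18 * X := by positivity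
  calc _ ≤ 144 * L ^ 6 * (a ^ 18 * X) + 32 * L ^ 6 * (N + 28 * (a ^ 18 * X)) := add_le_add hA hB
    _ ≤ 1100 * L ^ 6 * (N + a ^ 18 * X) := by
        have h1 : 0 ≤ L ^ 6 * (N : ℝ) := by positivity
        have h2 : 0 ≤ L ^ 6 * (a ^ 18 * X) := by positivity
        nlinarith
    _ ≤ 1100 * ((1 + 6 / δ) ^ 6 * (N : ℝ) ^ δ) * (N + a ^ 18 * X) := by gcongr

end PairAux

open PairAux in
/-- PAIR. Mean value theorem for the characters modulo products of two primes. -/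
theorem l1_pair (δ : ℝ) (hδ : 0 < δ) :
    ∃ C : ℝ, 0 < C ∧ ∀ N R R' y : ℕ, 1 ≤ R → 1 ≤ R' → (R * R') ^ 5 ≤ N ^ 2 → y ≤ N →
      ∑ s ∈ PR R, ∑ s' ∈ (PR R').filter (fun s' => s' ≠ s), ∑ χ ∈ nc s, ∑ χ' ∈ nc s',
        ‖SL (fun n => χ n * χ' n) y‖ ≤
        C * (N : ℝ) ^ δ * (N + (N : ℝ) ^ ((9 : ℝ) / 10) * (R * R')) := by
  refine ⟨2200 * (1 + 6 / δ) ^ 6, by positivity, ?_⟩
  intro N R R' y hR hR' hXN hy
  have h1 := pair_lt δ hδ N R R' y hR hR' hXN hy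
  have h2 := pair_lt δ hδ N R' R y hR' hR (by rwa [mul_comm]) hy
  have e1 : ∀ s ∈ PR R, ∑ s' ∈ (PR R').filter (fun s' => s' ≠ s), ∑ χ ∈ nc s, ∑ χ' ∈ nc s',
        ‖SL (fun n => χ n * χ' n) y‖ =
      (∑ s' ∈ (PR R').filter (fun s' => s < s'), ∑ χ ∈ nc s, ∑ χ' ∈ nc s',
        ‖SL (fun n => χ n * χ' n) y‖) +
      ∑ s' ∈ (PR R').filter (fun s' => s' < s), ∑ χ ∈ nc s, ∑ χ' ∈ nc s',
        ‖SL (fun n => χ n * χ' n) y‖ := by
    intro s _
    rw [← Finset.sum_union]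
    · refine Finset.sum_congr ?_ fun _ _ => rfl
      ext s'
      simp only [Finset.mem_filter, Finset.mem_union]
      constructor
      · rintro ⟨h3, h4⟩
        rcases lt_or_gt_of_ne h4 with h5 | h5
        · exact Or.inr ⟨h3, h5⟩
        · exact Or.inl ⟨h3, h5⟩
      · rintro (⟨h3, h4⟩ | ⟨h3, h4⟩)
        · exact ⟨h3, by omega⟩
        · exact ⟨h3, by omega⟩
    · rw [Finset.disjoint_left]
      intro s' h3 h4
      simp only [Finset.mem_filter] at h3 h4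
      omega
  rw [Finset.sum_congr rfl e1, Finset.sum_add_distrib]
  have e2 : ∑ s ∈ PR R, ∑ s' ∈ (PR R').filter (fun s' => s < s'), ∑ χ ∈ nc s, ∑ χ' ∈ nc s',
        ‖SL (fun n => χ n * χ' n) y‖ =
      ∑ p ∈ (PR R ×ˢ PR R').filter (fun p => p.1 < p.2), ∑ χ ∈ nc p.1, ∑ χ' ∈ nc p.2,
        ‖SL (fun n => χ n * χ' n) y‖ := by
    rw [Finset.sum_filter, Finset.sum_product]
    refine Finset.sum_congr rfl fun s _ => ?_
    rw [Finset.sum_filter]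
  have e3 : ∑ s ∈ PR R, ∑ s' ∈ (PR R').filter (fun s' => s' < s), ∑ χ ∈ nc s, ∑ χ' ∈ nc s',
        ‖SL (fun n => χ n * χ' n) y‖ =
      ∑ p ∈ (PR R' ×ˢ PR R).filter (fun p => p.1 < p.2), ∑ χ ∈ nc p.1, ∑ χ' ∈ nc p.2,
        ‖SL (fun n => χ n * χ' n) y‖ := by
    rw [Finset.sum_filter, Finset.sum_product, Finset.sum_comm' (t' := PR R')
      (s' := fun s' => (PR R).filter (fun s => s' < s))]
    · refine Finset.sum_congr rfl fun s' _ => ?_
      rw [Finset.sum_filter]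
      refine Finset.sum_congr rfl fun s _ => ?_
      split_ifs
      · rw [Finset.sum_comm]
        refine Finset.sum_congr rfl fun χ _ => Finset.sum_congr rfl fun χ' _ => ?_
        congr 2
        funext n
        exact mul_comm _ _
      · rfl
    · intro s s'
      simp only [Finset.mem_filter]
      tauto
  rw [e2, e3]
  have e4 : (N : ℝ) + (N : ℝ) ^ ((9 : ℝ) / 10) * ((R' : ℝ) * R) =
      N + (N : ℝ) ^ ((9 : ℝ) / 10) * ((R : ℝ) * R') := by ring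
  rw [e4] at h2
  refine (add_le_add h1 h2).trans (le_of_eq ?_)
  ring

end

end Pool.Agent.M848
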