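import Pool.Agent.Lib.MP_848d44_nt.G.DiagG

/-!
# MP_848d44_nt, two-sided omega theorem: the quadratic sum
-/

set_option autoImplicit false

namespace Pool.Agent.M848

open Finset
open scoped ArithmeticFunction ComplexConjugate

noncomputable section

namespace GB

theorem T1_nonneg (N q s : ℕ) : 0 ≤ T1 N q s := norm_nonneg _
theorem T2_nonneg (N q s : ℕ) : 0 ≤ T2 N q s := norm_nonneg _
theorem T3_nonneg (N q s : ℕ) : 0 ≤ T3 N q s := norm_nonneg _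
theorem T4_nonneg (N q s s' : ℕ) : 0 ≤ T4 N q s s' := norm_nonneg _

theorem pair_total (J q s s' : ℕ) (hJ : 1 ≤ J) (hq : 1 ≤ q) (hs : s.Prime) (hs' : s'.Prime)
    (hss : s ≠ s')
    (hsq : ¬ s ∣ q) (hsq' : ¬ s' ∣ q) (hH : 2 * J < s) (hH' : 2 * J < s')
    (hsN : s ≤ 2 * J * q) (hsN' : s' ≤ 2 * J * q) :
    |∑ a ∈ red q, EE (2 * J * q) q a * (cs (ws (2 * J * q) s) (2 * J * q) q a *
        cs (ws (2 * J * q) s') (2 * J * q) q a)| ≤
      T4 (2 * J * q) q s s' + (2 / (s' : ℝ)) * (T1 (2 * J * q) q s + T2 (2 * J * q) q s) +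
        (2 / (s : ℝ)) * (T1 (2 * J * q) q s' + T2 (2 * J * q) q s') +
        6 * ((2 * J * q : ℕ) : ℝ) / (s * s') +
        (12 * (2 * J + 1) ^ 2 * Real.log ((2 * J * q : ℕ) : ℝ) ^ 2 +
          12 * (4 * J + 1) * q.divisors.card * mea (2 * J * q) q) := by
  have h1 := pair_bound J q s s' hJ hq hs hs' hsq hsq' hH hH' hsN hsN'
  have h2 := asd_pair (2 * J * q) q s s' (Nat.mul_pos (by omega) hq) hq hs hs' hss hsq hsq'
  rw [div_NJ J q hq] at h2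
  set N := 2 * J * q with hN
  have hm := mea_nonneg N q
  rw [EE_sum N q hq (fun a => cs (ws N s) N q a * cs (ws N s') N q a)]
  refine (abs_sub _ _).trans ?_
  rw [abs_mul, abs_of_nonneg hm]
  have h3 := mul_le_mul_of_nonneg_left h2 hm
  push_cast at h3
  have e : mea N q * (12 * (2 * (2 * (J : ℝ)) + 1) * q.divisors.card) =
      12 * (4 * J + 1) * q.divisors.card * mea N q := by ring
  rw [e] at h3
  linarith

theorem quad (J q : ℕ) (hJ : 1 ≤ J) (hq : 1 ≤ q) (S : Finset ℕ)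
    (hS : ∀ s ∈ S, s.Prime ∧ ¬ s ∣ q ∧ 2 * J < s ∧ s ≤ 2 * J * q) :
    |∑ a ∈ red q, EE (2 * J * q) q a * (∑ s ∈ S, cs (ws (2 * J * q) s) (2 * J * q) q a) ^ 2| ≤
      45 * ((2 * J * q : ℕ) : ℝ) * AA S + 6 * ((2 * J * q : ℕ) : ℝ) * AA S ^ 2 +
      ∑ s ∈ S, T3 (2 * J * q) q s + ∑ s ∈ S, T1 (2 * J * q) q s +
      4 * AA S * (∑ s ∈ S, T1 (2 * J * q) q s + ∑ s ∈ S, T2 (2 * J * q) q s) +
      ∑ s ∈ S, ∑ s' ∈ S.erase s, T4 (2 * J * q) q s s' +
      S.card * (24 * (2 * J + 1) * Real.log ((2 * J * q : ℕ) : ℝ) ^ 2 +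
        12 * q.divisors.card * mea (2 * J * q) q) +
      (S.card : ℝ) ^ 2 * (12 * (2 * J + 1) ^ 2 * Real.log ((2 * J * q : ℕ) : ℝ) ^ 2 +
          12 * (4 * J + 1) * q.divisors.card * mea (2 * J * q) q) := by
  set N := 2 * J * q with hN
  have hm := mea_nonneg N q
  set X : ℕ → ℕ → ℝ := fun s a => cs (ws N s) N q a with hX
  set D1 : ℝ := 24 * (2 * J + 1) * Real.log (N : ℝ) ^ 2 + 12 * q.divisors.card * mea N q with hD1
  set D2 : ℝ := 12 * (2 * J + 1) ^ 2 * Real.log (N : ℝ) ^ 2 +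
          12 * (4 * J + 1) * q.divisors.card * mea N q with hD2
  have hD20 : 0 ≤ D2 := by rw [hD2]; positivity
  have hsplit : ∑ a ∈ red q, EE N q a * (∑ s ∈ S, X s a) ^ 2 =
      ∑ s ∈ S, ∑ a ∈ red q, EE N q a * X s a ^ 2 +
      ∑ s ∈ S, ∑ s' ∈ S.erase s, ∑ a ∈ red q, EE N q a * (X s a * X s' a) := by
    have e1 : ∀ a ∈ red q, EE N q a * (∑ s ∈ S, X s a) ^ 2 =
        ∑ s ∈ S, EE N q a * X s a ^ 2 +
        ∑ s ∈ S, ∑ s' ∈ S.erase s, EE N q a * (X s a * X s' a) := by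
      intro a _
      rw [sq, Finset.sum_mul_sum, mul_sum, ← sum_add_distrib]
      refine sum_congr rfl fun s hs => ?_
      rw [← Finset.add_sum_erase S _ hs, mul_add, mul_sum]
      congr 1
      ring
    rw [sum_congr rfl e1, sum_add_distrib, sum_comm]
    congr 1
    rw [sum_comm]
    refine sum_congr rfl fun s _ => ?_
    rw [sum_comm]
  rw [hsplit]
  refine (abs_add_le _ _).trans ?_
  have hdiag : |∑ s ∈ S, ∑ a ∈ red q, EE N q a * X s a ^ 2| ≤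
      ∑ s ∈ S, T3 N q s + ∑ s ∈ S, T1 N q s + 45 * N * AA S + S.card * D1 := by
    refine (abs_sum_le_sum_abs _ _).trans ?_
    have h1 : ∀ s ∈ S, |∑ a ∈ red q, EE N q a * X s a ^ 2| ≤
        T3 N q s + T1 N q s + 45 * N * (1 / s) + D1 := by
      intro s hs
      obtain ⟨h2, h3, h4, h5⟩ := hS s hs
      refine (diag_bound J q s hJ hq h2 h3 h4 h5).trans (le_of_eq ?_)
      rw [hD1]
      ring
    refine (sum_le_sum h1).trans (le_of_eq ?_)
    rw [sum_add_distrib, sum_add_distrib, sum_add_distrib, ← mul_sum, sum_const, nsmul_eq_mul, AA]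
  have hAA0 : 0 ≤ AA S := sum_nonneg fun _ _ => by positivity
  have hoff : |∑ s ∈ S, ∑ s' ∈ S.erase s, ∑ a ∈ red q, EE N q a * (X s a * X s' a)| ≤
      ∑ s ∈ S, ∑ s' ∈ S.erase s, T4 N q s s' +
      4 * AA S * (∑ s ∈ S, T1 N q s + ∑ s ∈ S, T2 N q s) +
      6 * N * AA S ^ 2 + (S.card : ℝ) ^ 2 * D2 := by
    have h1 : ∀ s ∈ S, ∀ s' ∈ S.erase s, |∑ a ∈ red q, EE N q a * (X s a * X s' a)| ≤
        T4 N q s s' + (2 / (s' : ℝ)) * (T1 N q s + T2 N q s) +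
        (2 / (s : ℝ)) * (T1 N q s' + T2 N q s') + 6 * (N : ℝ) / (s * s') + D2 := by
      intro s hs s' hs'
      rw [mem_erase] at hs'
      obtain ⟨h2, h3, h4, h5⟩ := hS s hs
      obtain ⟨h2', h3', h4', h5'⟩ := hS s' hs'.2
      exact pair_total J q s s' hJ hq h2 h2' (Ne.symm hs'.1) h3 h3' h4 h4' h5 h5'
    refine (abs_sum_le_sum_abs _ _).trans ?_
    refine (sum_le_sum fun s hs => (abs_sum_le_sum_abs _ _).trans (sum_le_sum (h1 s hs))).trans ?_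
    have h2 : ∀ s ∈ S, ∑ s' ∈ S.erase s, (T4 N q s s' + (2 / (s' : ℝ)) * (T1 N q s + T2 N q s) +
        (2 / (s : ℝ)) * (T1 N q s' + T2 N q s') + 6 * (N : ℝ) / (s * s') + D2) ≤
        ∑ s' ∈ S.erase s, T4 N q s s' + 2 * AA S * (T1 N q s + T2 N q s) +
        (2 / (s : ℝ)) * (∑ s' ∈ S, T1 N q s' + ∑ s' ∈ S, T2 N q s') +
        6 * N * AA S * (1 / s) + S.card * D2 := by
      intro s hs
      have h3 : ∑ s' ∈ S.erase s, (T4 N q s s' + (2 / (s' : ℝ)) * (T1 N q s + T2 N q s) +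
        (2 / (s : ℝ)) * (T1 N q s' + T2 N q s') + 6 * (N : ℝ) / (s * s') + D2) =
        ∑ s' ∈ S.erase s, T4 N q s s' +
        ∑ s' ∈ S.erase s, ((2 / (s' : ℝ)) * (T1 N q s + T2 N q s) +
        (2 / (s : ℝ)) * (T1 N q s' + T2 N q s') + 6 * (N : ℝ) / (s * s') + D2) := by
        rw [← sum_add_distrib]
        refine sum_congr rfl fun s' _ => ?_
        ring
      rw [h3]
      have h4 : ∑ s' ∈ S.erase s, ((2 / (s' : ℝ)) * (T1 N q s + T2 N q s) +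
        (2 / (s : ℝ)) * (T1 N q s' + T2 N q s') + 6 * (N : ℝ) / (s * s') + D2) ≤
        ∑ s' ∈ S, ((2 / (s' : ℝ)) * (T1 N q s + T2 N q s) +
        (2 / (s : ℝ)) * (T1 N q s' + T2 N q s') + 6 * (N : ℝ) / (s * s') + D2) := by
        apply sum_le_sum_of_subset_of_nonneg (erase_subset _ _)
        intro s' _ _
        have := T1_nonneg N q s
        have := T2_nonneg N q s
        have := T1_nonneg N q s'
        have := T2_nonneg N q s'
        positivity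
      have h5 : ∑ s' ∈ S, ((2 / (s' : ℝ)) * (T1 N q s + T2 N q s) +
        (2 / (s : ℝ)) * (T1 N q s' + T2 N q s') + 6 * (N : ℝ) / (s * s') + D2) =
        2 * AA S * (T1 N q s + T2 N q s) +
        (2 / (s : ℝ)) * (∑ s' ∈ S, T1 N q s' + ∑ s' ∈ S, T2 N q s') +
        6 * N * AA S * (1 / s) + S.card * D2 := by
        rw [sum_add_distrib, sum_add_distrib, sum_add_distrib, sum_const, nsmul_eq_mul,
          ← sum_mul, ← mul_sum, sum_add_distrib]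
        have e1 : ∑ i ∈ S, 2 / (i : ℝ) = 2 * AA S := by
          rw [AA, mul_sum]
          refine sum_congr rfl fun i _ => ?_
          ring
        have e2 : ∑ i ∈ S, 6 * (N : ℝ) / (s * i) = 6 * N * AA S * (1 / s) := by
          rw [AA, mul_sum, sum_mul]
          refine sum_congr rfl fun i _ => ?_
          rw [div_mul_eq_div_div]
          ring
        rw [e1, e2]
      rw [h5] at h4
      linarith
    refine (sum_le_sum h2).trans (le_of_eq ?_)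
    rw [sum_add_distrib, sum_add_distrib, sum_add_distrib, sum_add_distrib, sum_const,
      nsmul_eq_mul, ← mul_sum, ← mul_sum, ← sum_mul, sum_add_distrib]
    have e1 : ∑ i ∈ S, 2 / (i : ℝ) = 2 * AA S := by
      rw [AA, mul_sum]
      refine sum_congr rfl fun i _ => ?_
      ring
    have e2 : ∑ i ∈ S, 1 / (i : ℝ) = AA S := rfl
    rw [e1, e2]
    ring
  linarith

/-- the quadratic sum over the dyadic blocks -/
theorem quad_SS (J q j₀ j₁ : ℕ) (hJ : 1 ≤ J) (hq : 1 ≤ q) (hJj : 2 * J ≤ 2 ^ j₀)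
    (hjN : 2 ^ j₁ ≤ 2 * J * q) :
    |∑ a ∈ red q, EE (2 * J * q) q a *
      (∑ s ∈ SS q j₀ j₁, cs (ws (2 * J * q) s) (2 * J * q) q a) ^ 2| ≤
      45 * ((2 * J * q : ℕ) : ℝ) * AA (SS q j₀ j₁) +
      6 * ((2 * J * q : ℕ) : ℝ) * AA (SS q j₀ j₁) ^ 2 +
      ∑ j ∈ Ico j₀ j₁, ∑ s ∈ PR (2 ^ j), T3 (2 * J * q) q s +
      ∑ j ∈ Ico j₀ j₁, ∑ s ∈ PR (2 ^ j), T1 (2 * J * q) q s +
      4 * AA (SS q j₀ j₁) * (∑ j ∈ Ico j₀ j₁, ∑ s ∈ PR (2 ^ j), T1 (2 * J * q) q s +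
        ∑ j ∈ Ico j₀ j₁, ∑ s ∈ PR (2 ^ j), T2 (2 * J * q) q s) +
      ∑ j ∈ Ico j₀ j₁, ∑ j' ∈ Ico j₀ j₁, ∑ s ∈ PR (2 ^ j),
        ∑ s' ∈ (PR (2 ^ j')).filter (fun s' => s' ≠ s), T4 (2 * J * q) q s s' +
      2 ^ j₁ * (24 * (2 * J + 1) * Real.log ((2 * J * q : ℕ) : ℝ) ^ 2 +
        12 * q.divisors.card * mea (2 * J * q) q) +
      (2 ^ j₁) ^ 2 * (12 * (2 * J + 1) ^ 2 * Real.log ((2 * J * q : ℕ) : ℝ) ^ 2 +
          12 * (4 * J + 1) * q.divisors.card * mea (2 * J * q) q) := by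
  have hS : ∀ s ∈ SS q j₀ j₁, s.Prime ∧ ¬ s ∣ q ∧ 2 * J < s ∧ s ≤ 2 * J * q := by
    intro s hs
    have h := mem_SS hs
    exact ⟨h.1, h.2.2.2, by omega, by omega⟩
  have h0 := quad J q hJ hq (SS q j₀ j₁) hS
  set N := 2 * J * q with hN
  have hm := mea_nonneg N q
  have hcard : ((SS q j₀ j₁).card : ℝ) ≤ 2 ^ j₁ := by exact_mod_cast card_SS q j₀ j₁
  have hAA0 : 0 ≤ AA (SS q j₀ j₁) := sum_nonneg fun _ _ => by positivity
  have h1 := sum_SS_le q j₀ j₁ (T1 N q) (fun j _ s _ => T1_nonneg N q s)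
  have h2 := sum_SS_le q j₀ j₁ (T2 N q) (fun j _ s _ => T2_nonneg N q s)
  have h3 := sum_SS_le q j₀ j₁ (T3 N q) (fun j _ s _ => T3_nonneg N q s)
  have h4 : ∑ s ∈ SS q j₀ j₁, ∑ s' ∈ (SS q j₀ j₁).erase s, T4 N q s s' ≤
      ∑ j ∈ Ico j₀ j₁, ∑ j' ∈ Ico j₀ j₁, ∑ s ∈ PR (2 ^ j),
        ∑ s' ∈ (PR (2 ^ j')).filter (fun s' => s' ≠ s), T4 N q s s' := by
    have h5 : ∀ s, ∑ s' ∈ (SS q j₀ j₁).erase s, T4 N q s s' ≤
        ∑ j' ∈ Ico j₀ j₁, ∑ s' ∈ (PR (2 ^ j')).filter (fun s' => s' ≠ s), T4 N q s s' := by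
      intro s
      have e1 : ∑ s' ∈ (SS q j₀ j₁).erase s, T4 N q s s' =
          ∑ s' ∈ SS q j₀ j₁, if s' ≠ s then T4 N q s s' else 0 := by
        rw [← sum_filter]
        refine sum_congr ?_ fun _ _ => rfl
        ext x
        rw [mem_erase, mem_filter]
        tauto
      rw [e1]
      refine (sum_SS_le q j₀ j₁ _ (fun j _ s' _ => ?_)).trans (le_of_eq ?_)
      · split_ifs
        · exact T4_nonneg N q s s'
        · exact le_rfl
      · refine sum_congr rfl fun j _ => ?_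
        rw [sum_filter]
    refine (sum_le_sum fun s _ => h5 s).trans ?_
    refine (sum_SS_le q j₀ j₁ _ (fun j _ s _ => sum_nonneg fun _ _ => sum_nonneg fun _ _ =>
      T4_nonneg N q _ _)).trans (le_of_eq ?_)
    refine sum_congr rfl fun j _ => ?_
    rw [sum_comm]
  have hD1 : 0 ≤ 24 * (2 * J + 1) * Real.log (N : ℝ) ^ 2 + 12 * q.divisors.card * mea N q := by
    positivity
  have hD2 : 0 ≤ 12 * (2 * J + 1) ^ 2 * Real.log (N : ℝ) ^ 2 +
          12 * (4 * J + 1) * q.divisors.card * mea N q := by positivity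
  have h6 : ((SS q j₀ j₁).card : ℝ) * (24 * (2 * J + 1) * Real.log (N : ℝ) ^ 2 +
      12 * q.divisors.card * mea N q) ≤ 2 ^ j₁ * (24 * (2 * J + 1) * Real.log (N : ℝ) ^ 2 +
      12 * q.divisors.card * mea N q) := mul_le_mul_of_nonneg_right hcard hD1
  have h7 : ((SS q j₀ j₁).card : ℝ) ^ 2 * (12 * (2 * J + 1) ^ 2 * Real.log (N : ℝ) ^ 2 +
          12 * (4 * J + 1) * q.divisors.card * mea N q) ≤
      (2 ^ j₁) ^ 2 * (12 * (2 * J + 1) ^ 2 * Real.log (N : ℝ) ^ 2 +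
          12 * (4 * J + 1) * q.divisors.card * mea N q) :=
    mul_le_mul_of_nonneg_right (pow_le_pow_left₀ (Nat.cast_nonneg _) hcard 2) hD2
  have h8 : 4 * AA (SS q j₀ j₁) * (∑ s ∈ SS q j₀ j₁, T1 N q s + ∑ s ∈ SS q j₀ j₁, T2 N q s) ≤
      4 * AA (SS q j₀ j₁) * (∑ j ∈ Ico j₀ j₁, ∑ s ∈ PR (2 ^ j), T1 N q s +
        ∑ j ∈ Ico j₀ j₁, ∑ s ∈ PR (2 ^ j), T2 N q s) :=
    mul_le_mul_of_nonneg_left (add_le_add h1 h2) (by positivity)
  linarith

end GB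

end

end Pool.Agent.M848
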