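import Pool.Agent.Lib.MP_848d44_nt.G.Basic

/-!
# MP_848d44_nt, two-sided omega theorem: from `N = 2 J q` to real `x`
-/

set_option autoImplicit false

namespace Pool.Agent.M848

open Finset
open scoped ArithmeticFunction ComplexConjugate

/-- The sum over a class grows by at most `2 L` from `N` (a multiple of `q`) to `M < N + 2 q`. -/
theorem class_grow (N M q a : ℕ) (L : ℝ) (hq : 1 ≤ q) (hqN : q ∣ N) (hNM : N ≤ M)
    (hM : M < N + 2 * q) (hL : ∀ n ∈ Icc 1 M, (Λ n : ℝ) ≤ L) (hL0 : 0 ≤ L) :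
    ∑ n ∈ (Icc 1 N).filter (fun n => n % q = a), (Λ n : ℝ) ≤
      ∑ n ∈ (Icc 1 M).filter (fun n => n % q = a), (Λ n : ℝ) ∧
    ∑ n ∈ (Icc 1 M).filter (fun n => n % q = a), (Λ n : ℝ) ≤
      ∑ n ∈ (Icc 1 N).filter (fun n => n % q = a), (Λ n : ℝ) + 2 * L := by
  have hsub : (Icc 1 N).filter (fun n => n % q = a) ⊆ (Icc 1 M).filter (fun n => n % q = a) := by
    intro n hn
    rw [mem_filter, mem_Icc] at hn ⊢
    exact ⟨⟨hn.1.1, hn.1.2.trans hNM⟩, hn.2⟩
  constructor
  · exact sum_le_sum_of_subset_of_nonneg hsub fun n _ _ => GB.Lam_nonneg n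
  · rw [← sum_sdiff hsub]
    have hcard : ((Icc 1 M).filter (fun n => n % q = a) \
        (Icc 1 N).filter (fun n => n % q = a)).card ≤ (range 2).card := by
      have hmem : ∀ n ∈ ((Icc 1 M).filter (fun n => n % q = a) \
          (Icc 1 N).filter (fun n => n % q = a)), N < n ∧ n ≤ M ∧ n % q = a := by
        intro n hn
        rw [mem_sdiff, mem_filter, mem_filter, mem_Icc, mem_Icc] at hn
        obtain ⟨⟨⟨h1, h2⟩, h3⟩, h4⟩ := hn
        refine ⟨?_, h2, h3⟩
        by_contra h5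
        exact h4 ⟨⟨h1, by omega⟩, h3⟩
      apply card_le_card_of_injOn (fun n => (n - N) / q)
      · intro n hn
        obtain ⟨h1, h2, _⟩ := hmem n hn
        rw [mem_coe, mem_range]
        have h3 : (n - N) / q < 2 := by
          rw [Nat.div_lt_iff_lt_mul (by omega)]
          omega
        exact h3
      · intro n hn m hm hnm
        obtain ⟨h1, _, h3⟩ := hmem n hn
        obtain ⟨h1', _, h3'⟩ := hmem m hm
        obtain ⟨k, hk⟩ := hqN
        have e1 : (n - N) % q = a := by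
          have : n = (n - N) + q * k := by omega
          rw [this, Nat.add_mul_mod_self_left] at h3
          exact h3
        have e2 : (m - N) % q = a := by
          have : m = (m - N) + q * k := by omega
          rw [this, Nat.add_mul_mod_self_left] at h3'
          exact h3'
        have e3 := Nat.div_add_mod (n - N) q
        have e4 := Nat.div_add_mod (m - N) q
        simp only at hnm
        rw [hnm, e1] at e3
        rw [e2] at e4
        omega
    have h1 : ∑ n ∈ ((Icc 1 M).filter (fun n => n % q = a) \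
        (Icc 1 N).filter (fun n => n % q = a)), (Λ n : ℝ) ≤
        ((Icc 1 M).filter (fun n => n % q = a) \
        (Icc 1 N).filter (fun n => n % q = a)).card • L := by
      apply sum_le_card_nsmul
      intro n hn
      rw [mem_sdiff, mem_filter] at hn
      exact hL n hn.1.1
    rw [nsmul_eq_mul] at h1
    have h2 : (((Icc 1 M).filter (fun n => n % q = a) \
        (Icc 1 N).filter (fun n => n % q = a)).card : ℝ) * L ≤ 2 * L := by
      apply mul_le_mul_of_nonneg_right _ hL0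
      rw [card_range] at hcard
      exact_mod_cast hcard
    linarith

/-- The mean over the classes grows by at most `2 L`. -/
theorem mean_grow (N M q : ℕ) (L : ℝ) (hq : 1 ≤ q) (hqN : q ∣ N) (hNM : N ≤ M)
    (hM : M < N + 2 * q) (hL : ∀ n ∈ Icc 1 M, (Λ n : ℝ) ≤ L) (hL0 : 0 ≤ L) :
    mea N q ≤ (∑ n ∈ (Icc 1 M).filter (fun n => n.Coprime q), (Λ n : ℝ)) / q.totient ∧
    (∑ n ∈ (Icc 1 M).filter (fun n => n.Coprime q), (Λ n : ℝ)) / q.totient ≤
      mea N q + 2 * L := by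
  have hφ : (0 : ℝ) < q.totient := by
    have : 0 < q.totient := Nat.totient_pos.2 (by omega)
    exact_mod_cast this
  have hs := fun K => GB.sum_red q hq K (fun n => (Λ n : ℝ))
  rw [mea]
  constructor
  · apply div_le_div_of_nonneg_right _ hφ.le
    rw [hs, hs]
    exact sum_le_sum fun a _ => (class_grow N M q a L hq hqN hNM hM hL hL0).1
  · rw [div_le_iff₀ hφ, add_mul, div_mul_cancel₀ _ hφ.ne', hs, hs]
    have h1 : ∑ a ∈ red q, ∑ n ∈ (Icc 1 M).filter (fun n => n % q = a), (Λ n : ℝ) ≤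
        ∑ a ∈ red q, (∑ n ∈ (Icc 1 N).filter (fun n => n % q = a), (Λ n : ℝ) + 2 * L) :=
      sum_le_sum fun a _ => (class_grow N M q a L hq hqN hNM hM hL hL0).2
    rw [sum_add_distrib, sum_const, nsmul_eq_mul, GB.card_red] at h1
    linarith

theorem real_pt (c₀ : ℝ) (N₀ : ℕ) (hc₀ : 0 < c₀) : ∃ c : ℝ, 0 < c ∧ ∃ x₀ : ℝ, ∀ x : ℝ, x₀ ≤ x →
    ∀ q : ℕ, 1 ≤ q → (q : ℝ) ≤ x / Real.log x ^ 3 →
    ∃ J : ℕ, N₀ ≤ J ∧ 1 ≤ J ∧ ((2 * J * q : ℕ) : ℝ) ≤ x ∧ x ≤ 4 * J * q ∧ ∀ a ∈ red q,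
      (c₀ * Real.sqrt J ≤ EE (2 * J * q) q a →
        (∑ n ∈ (Icc 1 ⌊x⌋₊).filter (fun n => n.Coprime q), (Λ n : ℝ)) / q.totient +
          c * Real.sqrt (x / q) ≤ ∑ n ∈ (Icc 1 ⌊x⌋₊).filter (fun n => n % q = a), (Λ n : ℝ)) ∧
      (EE (2 * J * q) q a ≤ -(c₀ * Real.sqrt J) →
        ∑ n ∈ (Icc 1 ⌊x⌋₊).filter (fun n => n % q = a), (Λ n : ℝ) ≤
          (∑ n ∈ (Icc 1 ⌊x⌋₊).filter (fun n => n.Coprime q), (Λ n : ℝ)) / q.totient -
            c * Real.sqrt (x / q)) := by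
  refine ⟨c₀ / 4, by positivity, Real.exp (64 / c₀ ^ 2 + 2 * (N₀ + 2) + 1), ?_⟩
  intro x hx q hq hqx
  have hx0 : 0 < x := lt_of_lt_of_le (Real.exp_pos _) hx
  have hpos64 : 0 < 64 / c₀ ^ 2 := by positivity
  have hN00 : (0 : ℝ) ≤ N₀ := Nat.cast_nonneg _
  set l : ℝ := Real.log x with hl
  have hl1 : 64 / c₀ ^ 2 + 2 * (N₀ + 2) + 1 ≤ l := by
    rw [hl, Real.le_log_iff_exp_le hx0]
    exact hx
  have hl_one : 1 ≤ l := by linarith
  have hl0 : 0 < l := by linarith
  have hl64 : 64 / c₀ ^ 2 ≤ l := by linarith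
  have hlN : 2 * (N₀ + 2) ≤ l := by linarith
  have hq0 : (0 : ℝ) < q := by exact_mod_cast hq
  have hl3 : l ^ 3 ≤ x / q := by
    rw [le_div_iff₀ hq0]
    rw [le_div_iff₀ (by positivity)] at hqx
    linarith
  have hll3 : l ≤ l ^ 3 := by
    nlinarith [mul_nonneg hl0.le (mul_nonneg (sub_nonneg.2 hl_one) (by linarith : (0:ℝ) ≤ l + 1))]
  have h2q : (0 : ℝ) < 2 * q := by positivity
  set J : ℕ := ⌊x / (2 * q)⌋₊ with hJ
  have hJle : (J : ℝ) ≤ x / (2 * q) := Nat.floor_le (by positivity)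
  have hJlt : x / (2 * q) < J + 1 := Nat.lt_floor_add_one _
  have hxq2 : x / (2 * q) = x / q / 2 := by
    field_simp
  have hJN : (N₀ : ℝ) + 1 ≤ J := by
    have h1 : (N₀ : ℝ) + 2 ≤ x / (2 * q) := by
      rw [hxq2]
      linarith
    linarith
  have hJN' : N₀ + 1 ≤ J := by exact_mod_cast hJN
  have hJx : ((2 * J * q : ℕ) : ℝ) ≤ x := by
    push_cast
    rw [le_div_iff₀ h2q] at hJle
    linarith
  have hJ1 : (1 : ℝ) ≤ J := by linarith
  have hxJ : x < (J + 1) * (2 * q) := by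
    rwa [div_lt_iff₀ h2q] at hJlt
  have hx4 : x ≤ 4 * J * q := by
    have : (J + 1) * (2 * (q : ℝ)) ≤ 4 * J * q := by nlinarith
    linarith
  refine ⟨J, by omega, by omega, hJx, hx4, ?_⟩
  intro a _
  set N : ℕ := 2 * J * q with hN
  set M : ℕ := ⌊x⌋₊ with hM
  have hNM : N ≤ M := Nat.le_floor hJx
  have hMx : (M : ℝ) ≤ x := Nat.floor_le hx0.le
  have hMN : M < N + 2 * q := by
    have : (M : ℝ) < ((N + 2 * q : ℕ) : ℝ) := by
      rw [hN]
      push_cast
      nlinarith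
    exact_mod_cast this
  have hqN : q ∣ N := Dvd.intro_left _ rfl
  have hL : ∀ n ∈ Icc 1 M, (Λ n : ℝ) ≤ l := by
    intro n hn
    rw [mem_Icc] at hn
    refine ArithmeticFunction.vonMangoldt_le_log.trans ?_
    apply Real.log_le_log
    · exact_mod_cast hn.1
    · exact le_trans (by exact_mod_cast hn.2) hMx
  have hcl := class_grow N M q a l hq hqN hNM hMN hL hl0.le
  have hmn := mean_grow N M q l hq hqN hNM hMN hL hl0.le
  have hs0 : 0 ≤ Real.sqrt (x / q) := Real.sqrt_nonneg _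
  have hsJ : Real.sqrt (x / q) ≤ 2 * Real.sqrt J := by
    have h1 : x / q ≤ 4 * J := by
      rw [div_le_iff₀ hq0]
      exact hx4
    calc Real.sqrt (x / q) ≤ Real.sqrt (4 * J) := Real.sqrt_le_sqrt h1
      _ = 2 * Real.sqrt J := by
        rw [Real.sqrt_mul (by norm_num)]
        congr 1
        rw [show (4 : ℝ) = 2 ^ 2 by norm_num, Real.sqrt_sq (by norm_num)]
  have hsl : 8 * l / c₀ ≤ Real.sqrt (x / q) := by
    apply Real.le_sqrt_of_sq_le
    refine le_trans ?_ hl3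
    rw [div_pow, div_le_iff₀ (by positivity)]
    rw [div_le_iff₀ (by positivity)] at hl64
    nlinarith [mul_nonneg (sq_nonneg l) (sub_nonneg.2 hl64)]
  have hsl' : 2 * l ≤ c₀ / 4 * Real.sqrt (x / q) := by
    rw [div_le_iff₀ hc₀] at hsl
    linarith
  have hc2 : c₀ / 2 * Real.sqrt (x / q) ≤ c₀ * Real.sqrt J := by
    nlinarith
  constructor
  · intro h
    rw [EE] at h
    linarith [hcl.1, hmn.2]
  · intro h
    rw [EE] at h
    linarith [hcl.2, hmn.1]

end Pool.Agent.M848
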