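import Pool.Agent.Lib.MP_848d44_nt.G.Fin
import Pool.Agent.Lib.MP_848d44_nt.G.Real

/-!
# MP_848d44_nt: the two-sided omega theorem for every modulus
-/

set_option autoImplicit false

namespace Pool.Agent.M848

open Finset
open scoped ArithmeticFunction ComplexConjugate

noncomputable section

/-- The two-sided omega theorem, with the number of residue classes. -/
theorem two_sided (ε : ℝ) (hε : 0 < ε) :
    ∃ c : ℝ, 0 < c ∧ ∃ x₀ : ℝ, ∀ x : ℝ, x₀ ≤ x → ∀ q : ℕ, x ^ ((4 : ℝ) / 5 + ε) ≤ q →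
      (q : ℝ) ≤ x / Real.log x ^ 3 →
      ((q : ℝ) / ((x / q) ^ ((3 : ℝ) / 2) * x ^ ε) ≤
        (((range q).filter (fun a => a.Coprime q ∧
          (∑ n ∈ (Icc 1 ⌊x⌋₊).filter (fun n => n.Coprime q), (Λ n : ℝ)) / q.totient +
            c * Real.sqrt (x / q) ≤
          ∑ n ∈ (Icc 1 ⌊x⌋₊).filter (fun n => n % q = a), (Λ n : ℝ))).card : ℝ)) ∧
      ((q : ℝ) / ((x / q) ^ ((3 : ℝ) / 2) * x ^ ε) ≤
        (((range q).filter (fun a => a.Coprime q ∧
          ∑ n ∈ (Icc 1 ⌊x⌋₊).filter (fun n => n % q = a), (Λ n : ℝ) ≤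
          (∑ n ∈ (Icc 1 ⌊x⌋₊).filter (fun n => n.Coprime q), (Λ n : ℝ)) / q.totient -
            c * Real.sqrt (x / q))).card : ℝ)) := by
  obtain ⟨c₀, hc₀, N₀, hcore⟩ := GB.core ε hε
  obtain ⟨c, hc, x₀, hreal⟩ := real_pt c₀ N₀ hc₀
  refine ⟨c, hc, max x₀ 1, fun x hx q hq hqx => ?_⟩
  have hx1 : 1 ≤ x := le_trans (le_max_right _ _) hx
  have hx0 : 0 < x := by linarith
  have hqpos : (0 : ℝ) < q := lt_of_lt_of_le (Real.rpow_pos_of_pos hx0 _) hq
  have hq1 : 1 ≤ q := by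
    have : 0 < q := by exact_mod_cast hqpos
    omega
  obtain ⟨J, hJN, hJ1, hJx, _, hpt⟩ := hreal x (le_trans (le_max_left _ _) hx) q hq1 hqx
  have hN0 : (0 : ℝ) < ((2 * J * q : ℕ) : ℝ) := by
    have : 0 < 2 * J * q := Nat.mul_pos (by omega) hq1
    exact_mod_cast this
  have hexp : (0 : ℝ) ≤ (4 : ℝ) / 5 + ε := by positivity
  obtain ⟨h1, h2⟩ := hcore J q hJN hq1
    ((Real.rpow_le_rpow hN0.le hJx hexp).trans hq)
  have hJ0 : (0 : ℝ) < J := by exact_mod_cast hJ1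
  have hbound : (q : ℝ) / ((x / q) ^ ((3 : ℝ) / 2) * x ^ ε) ≤
      (q : ℝ) / (Real.sqrt (2 * J) ^ 3 * ((2 * J * q : ℕ) : ℝ) ^ ε) := by
    have hs : 0 < Real.sqrt (2 * J) := Real.sqrt_pos.2 (by positivity)
    apply div_le_div_of_nonneg_left hqpos.le (by positivity)
    have e1 : Real.sqrt (2 * J) ^ 3 ≤ (x / q) ^ ((3 : ℝ) / 2) := by
      have e2 : Real.sqrt (2 * J) ^ 3 = (2 * (J : ℝ)) ^ ((3 : ℝ) / 2) := by
        rw [Real.sqrt_eq_rpow, ← Real.rpow_natCast, ← Real.rpow_mul (by positivity)]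
        norm_num
      rw [e2]
      apply Real.rpow_le_rpow (by positivity) _ (by norm_num)
      rw [le_div_iff₀ hqpos]
      push_cast at hJx
      exact hJx
    have e3 : ((2 * J * q : ℕ) : ℝ) ^ ε ≤ x ^ ε := Real.rpow_le_rpow hN0.le hJx hε.le
    exact mul_le_mul e1 e3 (by positivity) (by positivity)
  constructor
  · refine hbound.trans (h1.trans ?_)
    have hsub : (red q).filter (fun a => c₀ * Real.sqrt J ≤ EE (2 * J * q) q a) ⊆
        (range q).filter (fun a => a.Coprime q ∧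
          (∑ n ∈ (Icc 1 ⌊x⌋₊).filter (fun n => n.Coprime q), (Λ n : ℝ)) / q.totient +
            c * Real.sqrt (x / q) ≤
          ∑ n ∈ (Icc 1 ⌊x⌋₊).filter (fun n => n % q = a), (Λ n : ℝ)) := by
      intro a ha
      rw [mem_filter] at ha
      have ha' := ha.1
      rw [red, mem_filter] at ha'
      rw [mem_filter]
      exact ⟨ha'.1, ha'.2, (hpt a ha.1).1 ha.2⟩
    exact_mod_cast card_le_card hsub
  · refine hbound.trans (h2.trans ?_)
    have hsub : (red q).filter (fun a => EE (2 * J * q) q a ≤ -(c₀ * Real.sqrt J)) ⊆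
        (range q).filter (fun a => a.Coprime q ∧
          ∑ n ∈ (Icc 1 ⌊x⌋₊).filter (fun n => n % q = a), (Λ n : ℝ) ≤
          (∑ n ∈ (Icc 1 ⌊x⌋₊).filter (fun n => n.Coprime q), (Λ n : ℝ)) / q.totient -
            c * Real.sqrt (x / q)) := by
      intro a ha
      rw [mem_filter] at ha
      have ha' := ha.1
      rw [red, mem_filter] at ha'
      rw [mem_filter]
      exact ⟨ha'.1, ha'.2, (hpt a ha.1).2 ha.2⟩
    exact_mod_cast card_le_card hsub

end

end Pool.Agent.M848
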